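import Mathlib

/-! Groups `G_ω`: words, sections, short words (helper file for MP_2e40ce_al) -/

namespace Pool.Agent.H44Sp

open Function

/-- The generator `a, b_ω, c_ω, d_ω` (for `s = 0, 1, 2, 3`) acting on finite words. -/
def gen (ω : ℕ → Fin 3) (s : Fin 4) (v : List Bool) : List Bool :=
  if s = 0 then v.set 0 (!(v.getD 0 false))
  else if (List.takeWhile id v).length + 1 < v.length ∧
      (ω (List.takeWhile id v).length).val ≠ 3 - s.val
    then v.set ((List.takeWhile id v).length + 1)
      (!(v.getD ((List.takeWhile id v).length + 1) false))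
    else v

/-- The product of the generators named by the word `u`. -/
def E (ω : ℕ → Fin 3) (u : List (Fin 4)) : List Bool → List Bool :=
  (u.map (gen ω)).foldr (fun f g => f ∘ g) id

/-- The number of words of length `k` in the four generators that equal the identity. -/
noncomputable def closedWords (ω : ℕ → Fin 3) (k : ℕ) : ℕ :=
  Nat.card {u : List (Fin 4) // u.length = k ∧ E ω u = id}

/-- the shifted sequence -/
def sh (ω : ℕ → Fin 3) : ℕ → Fin 3 := fun n => ω (n + 1)

/-- the first generator -/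
def fl : List Bool → List Bool := fun v => v.set 0 (!(v.getD 0 false))

lemma gen_zero (ω : ℕ → Fin 3) : gen ω 0 = fl := by
  funext v; simp [gen, fl]

@[simp] lemma fl_nil : fl [] = [] := rfl
@[simp] lemma fl_cons (b : Bool) (w : List Bool) : fl (b :: w) = (!b) :: w := rfl

lemma fl_fl (v : List Bool) : fl (fl v) = v := by
  cases v <;> simp

lemma gen_nil (ω : ℕ → Fin 3) {s : Fin 4} (hs : s ≠ 0) : gen ω s [] = [] := by
  simp [gen, hs]

lemma gen_false (ω : ℕ → Fin 3) {s : Fin 4} (hs : s ≠ 0) (w : List Bool) :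
    gen ω s (false :: w) = false :: (if (ω 0).val = 3 - s.val then w else fl w) := by
  by_cases h : (ω 0).val = 3 - s.val
  · simp [gen, hs, h]
  · cases w with
    | nil => simp [gen, hs, h]
    | cons b w => simp [gen, hs, h]

lemma gen_true (ω : ℕ → Fin 3) {s : Fin 4} (hs : s ≠ 0) (w : List Bool) :
    gen ω s (true :: w) = true :: gen (sh ω) s w := by
  have ht : (List.takeWhile id (true :: w)).length = (List.takeWhile id w).length + 1 := by
    simp
  unfold gen
  rw [if_neg hs, if_neg hs, ht]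
  generalize (List.takeWhile id w).length = t
  have e : sh ω t = ω (t + 1) := rfl
  rw [e]
  by_cases h : t + 1 < w.length ∧ (ω (t + 1)).val ≠ 3 - s.val
  · have h' : t + 1 + 1 < (true :: w).length ∧ (ω (t + 1)).val ≠ 3 - s.val :=
      ⟨by simp only [List.length_cons]; omega, h.2⟩
    rw [if_pos h', if_pos h]
    simp
  · have h' : ¬ (t + 1 + 1 < (true :: w).length ∧ (ω (t + 1)).val ≠ 3 - s.val) := by
      intro hh
      apply h
      refine ⟨?_, hh.2⟩
      have := hh.1
      simp only [List.length_cons] at this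
      omega
    rw [if_neg h', if_neg h]

lemma gen_gen (s : Fin 4) (v : List Bool) (ω : ℕ → Fin 3) : gen ω s (gen ω s v) = v := by
  by_cases hs : s = 0
  · subst hs; rw [gen_zero]; exact fl_fl v
  · induction v generalizing ω with
    | nil => rw [gen_nil ω hs, gen_nil ω hs]
    | cons b w ih =>
      cases b
      · rw [gen_false ω hs, gen_false ω hs]
        split_ifs <;> simp [fl_fl]
      · rw [gen_true ω hs, gen_true ω hs, ih]

lemma gen_comm {s t : Fin 4} (hs : s ≠ 0) (ht : t ≠ 0) (v : List Bool) (ω : ℕ → Fin 3) :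
    gen ω s (gen ω t v) = gen ω t (gen ω s v) := by
  induction v generalizing ω with
  | nil => rw [gen_nil ω hs, gen_nil ω ht, gen_nil ω hs]
  | cons b w ih =>
    cases b
    · rw [gen_false ω hs, gen_false ω ht, gen_false ω hs, gen_false ω ht]
      split_ifs <;> rfl
    · rw [gen_true ω hs, gen_true ω ht, gen_true ω hs, gen_true ω ht, ih]

lemma gen_one_two (v : List Bool) (ω : ℕ → Fin 3) : gen ω 1 (gen ω 2 v) = gen ω 3 v := by
  induction v generalizing ω with
  | nil => rw [gen_nil ω (by decide), gen_nil ω (by decide), gen_nil ω (by decide)]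
  | cons b w ih =>
    cases b
    · rw [gen_false ω (by decide), gen_false ω (by decide), gen_false ω (by decide)]
      have h1 : (3 - (1 : Fin 4).val) = 2 := rfl
      have h2 : (3 - (2 : Fin 4).val) = 1 := rfl
      have h3 : (3 - (3 : Fin 4).val) = 0 := rfl
      rw [h1, h2, h3]
      have h := (ω 0).isLt
      congr 1
      generalize (ω 0).val = z at *
      interval_cases z <;> simp [fl_fl]
    · rw [gen_true ω (by decide), gen_true ω (by decide), gen_true ω (by decide), ih]

/-- generators as permutations -/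
def gp (ω : ℕ → Fin 3) (s : Fin 4) : Equiv.Perm (List Bool) :=
  ⟨gen ω s, gen ω s, fun v => gen_gen s v ω, fun v => gen_gen s v ω⟩

@[simp] lemma gp_apply (ω : ℕ → Fin 3) (s : Fin 4) (v : List Bool) : gp ω s v = gen ω s v := rfl

/-- words as permutations -/
def W (ω : ℕ → Fin 3) (u : List (Fin 4)) : Equiv.Perm (List Bool) := (u.map (gp ω)).prod

@[simp] lemma W_nil (ω : ℕ → Fin 3) : W ω [] = 1 := rfl
@[simp] lemma W_cons (ω : ℕ → Fin 3) (s : Fin 4) (u : List (Fin 4)) :
    W ω (s :: u) = gp ω s * W ω u := by simp [W]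
@[simp] lemma W_append (ω : ℕ → Fin 3) (u v : List (Fin 4)) :
    W ω (u ++ v) = W ω u * W ω v := by simp [W]

lemma W_apply (ω : ℕ → Fin 3) (u : List (Fin 4)) (v : List Bool) : W ω u v = E ω u v := by
  induction u generalizing v with
  | nil => rfl
  | cons s u ih =>
    rw [W_cons, Equiv.Perm.mul_apply, ih]
    rfl

lemma E_eq_id (ω : ℕ → Fin 3) (u : List (Fin 4)) : E ω u = id ↔ W ω u = 1 := by
  constructor
  · intro h
    ext1 v
    rw [W_apply, h]; rfl
  · intro h
    funext v
    rw [← W_apply, h]; rfl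

@[simp] lemma gp_sq (ω : ℕ → Fin 3) (s : Fin 4) : gp ω s * gp ω s = 1 := by
  ext1 v; exact gen_gen s v ω

@[simp] lemma gp_sq_mul (ω : ℕ → Fin 3) (s : Fin 4) (g : Equiv.Perm (List Bool)) :
    gp ω s * (gp ω s * g) = g := by rw [← mul_assoc, gp_sq, one_mul]

lemma gp_inv (ω : ℕ → Fin 3) (s : Fin 4) : (gp ω s)⁻¹ = gp ω s :=
  inv_eq_of_mul_eq_one_left (gp_sq ω s)

lemma gp_comm (ω : ℕ → Fin 3) {s t : Fin 4} (hs : s ≠ 0) (ht : t ≠ 0) :
    gp ω s * gp ω t = gp ω t * gp ω s := by
  ext1 v; exact gen_comm hs ht v ω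

lemma gp_one_two (ω : ℕ → Fin 3) : gp ω 1 * gp ω 2 = gp ω 3 := by
  ext1 v; exact gen_one_two v ω
lemma gp_two_one (ω : ℕ → Fin 3) : gp ω 2 * gp ω 1 = gp ω 3 := by
  rw [gp_comm ω (by decide) (by decide), gp_one_two]
lemma gp_one_three (ω : ℕ → Fin 3) : gp ω 1 * gp ω 3 = gp ω 2 := by
  rw [← gp_one_two, gp_sq_mul]
lemma gp_three_one (ω : ℕ → Fin 3) : gp ω 3 * gp ω 1 = gp ω 2 := by
  rw [gp_comm ω (by decide) (by decide), gp_one_three]
lemma gp_two_three (ω : ℕ → Fin 3) : gp ω 2 * gp ω 3 = gp ω 1 := by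
  rw [← gp_two_one, gp_sq_mul]
lemma gp_three_two (ω : ℕ → Fin 3) : gp ω 3 * gp ω 2 = gp ω 1 := by
  rw [gp_comm ω (by decide) (by decide), gp_two_three]

lemma W_reverse (ω : ℕ → Fin 3) (u : List (Fin 4)) : W ω u.reverse = (W ω u)⁻¹ := by
  induction u with
  | nil => simp
  | cons s u ih =>
    rw [List.reverse_cons, W_append, ih, W_cons, W_cons, W_nil, mul_one, mul_inv_rev, gp_inv]

lemma mul_one_comm {G : Type*} [Group G] {a b : G} : a * b = 1 ↔ b * a = 1 := by
  constructor <;> intro h
  · rw [eq_inv_of_mul_eq_one_left h, mul_inv_cancel]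
  · rw [eq_inv_of_mul_eq_one_left h, mul_inv_cancel]

lemma W_rot (ω : ℕ → Fin 3) (u v : List (Fin 4)) : W ω (u ++ v) = 1 ↔ W ω (v ++ u) = 1 := by
  rw [W_append, W_append]; exact mul_one_comm

lemma exists_third (s t : Fin 4) (hs : s ≠ 0) (ht : t ≠ 0) (hst : s ≠ t) :
    ∃ r, ∀ ω, gp ω s * gp ω t = gp ω r := by
  have key : (s = 1 ∧ t = 2) ∨ (s = 2 ∧ t = 1) ∨ (s = 1 ∧ t = 3) ∨ (s = 3 ∧ t = 1) ∨
      (s = 2 ∧ t = 3) ∨ (s = 3 ∧ t = 2) := by
    revert s t; decide
  rcases key with ⟨rfl, rfl⟩ | ⟨rfl, rfl⟩ | ⟨rfl, rfl⟩ | ⟨rfl, rfl⟩ | ⟨rfl, rfl⟩ | ⟨rfl, rfl⟩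
  · exact ⟨3, gp_one_two⟩
  · exact ⟨3, gp_two_one⟩
  · exact ⟨2, gp_one_three⟩
  · exact ⟨2, gp_three_one⟩
  · exact ⟨1, gp_two_three⟩
  · exact ⟨1, gp_three_two⟩

/-- alternating words -/
def altL (xs : List (Fin 4)) : List (Fin 4) := xs.flatMap (fun x => [0, x])

@[simp] lemma altL_nil : altL [] = [] := rfl
@[simp] lemma altL_cons (x : Fin 4) (xs : List (Fin 4)) : altL (x :: xs) = 0 :: x :: altL xs := rfl
@[simp] lemma altL_append (xs ys : List (Fin 4)) : altL (xs ++ ys) = altL xs ++ altL ys := by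
  simp [altL]
@[simp] lemma length_altL (xs : List (Fin 4)) : (altL xs).length = 2 * xs.length := by
  induction xs with
  | nil => rfl
  | cons x xs ih => simp only [altL_cons, List.length_cons, ih]; ring

lemma lin (u : List (Fin 4)) : (∃ l s t r, u = l ++ s :: t :: r ∧ (s = 0 ↔ t = 0)) ∨
    (∃ xs : List (Fin 4), (∀ x ∈ xs, x ≠ 0) ∧ (u = altL xs ∨ u = altL xs ++ [0])) ∨
    (∃ (x : Fin 4) (xs : List (Fin 4)), x ≠ 0 ∧ (∀ y ∈ xs, y ≠ 0) ∧
      (u = x :: altL xs ∨ u = x :: (altL xs ++ [0]))) := by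
  induction u with
  | nil => exact Or.inr (Or.inl ⟨[], by simp, Or.inl rfl⟩)
  | cons s u ih =>
    rcases ih with ⟨l, a, b, r, rfl, h⟩ | ⟨xs, hxs, h⟩ | ⟨x, xs, hx, hxs, h⟩
    · exact Or.inl ⟨s :: l, a, b, r, rfl, h⟩
    · by_cases hs : s = 0
      · subst hs
        cases xs with
        | nil =>
          rcases h with rfl | rfl
          · exact Or.inr (Or.inl ⟨[], by simp, Or.inr rfl⟩)
          · exact Or.inl ⟨[], 0, 0, [], rfl, by simp⟩
        | cons y ys =>
          rcases h with rfl | rfl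
          · exact Or.inl ⟨[], 0, 0, y :: altL ys, rfl, by simp⟩
          · exact Or.inl ⟨[], 0, 0, y :: (altL ys ++ [0]), rfl, by simp⟩
      · exact Or.inr (Or.inr ⟨s, xs, hs, hxs, by rcases h with rfl | rfl <;> simp⟩)
    · by_cases hs : s = 0
      · subst hs
        refine Or.inr (Or.inl ⟨x :: xs, ?_, ?_⟩)
        · intro y hy
          rcases List.mem_cons.1 hy with rfl | hy
          · exact hx
          · exact hxs y hy
        · rcases h with rfl | rfl <;> simp
      · rcases h with rfl | rfl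
        · exact Or.inl ⟨[], s, x, altL xs, rfl, by simp [hs, hx]⟩
        · exact Or.inl ⟨[], s, x, altL xs ++ [0], rfl, by simp [hs, hx]⟩

lemma shorter (l r : List (Fin 4)) (s t : Fin 4) (h : s = 0 ↔ t = 0) :
    ∃ u' : List (Fin 4), u'.length < (l ++ s :: t :: r).length ∧
      ∀ ω, W ω (l ++ s :: t :: r) = W ω u' := by
  by_cases hst : s = t
  · subst hst
    refine ⟨l ++ r, by simp, fun ω => ?_⟩
    simp only [W_append, W_cons, gp_sq_mul]
  · have hs : s ≠ 0 := by
      intro h0
      exact hst (by rw [h0, h.1 h0])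
    have ht : t ≠ 0 := fun h0 => hs (h.2 h0)
    obtain ⟨r', hr'⟩ := exists_third s t hs ht hst
    refine ⟨l ++ r' :: r, by simp, fun ω => ?_⟩
    simp only [W_append, W_cons]
    rw [← mul_assoc (gp ω s), hr']

/-- reduction of words -/
lemma normal (u : List (Fin 4)) (hu : u ≠ []) :
    (∃ u' : List (Fin 4), u'.length < u.length ∧ ∀ ω, (W ω u = 1 ↔ W ω u' = 1)) ∨
    (∃ s, u = [s]) ∨
    (∃ xs : List (Fin 4), (∀ x ∈ xs, x ≠ 0) ∧ u.length = 2 * xs.length ∧
      ∀ ω, (W ω u = 1 ↔ W ω (altL xs) = 1)) := by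
  rcases lin u with ⟨l, s, t, r, rfl, h⟩ | ⟨xs, hxs, h⟩ | ⟨x, xs, hx, hxs, h⟩
  · obtain ⟨u', h1, h2⟩ := shorter l r s t h
    exact Or.inl ⟨u', h1, fun ω => by rw [h2]⟩
  · rcases h with rfl | rfl
    · exact Or.inr (Or.inr ⟨xs, hxs, length_altL xs, fun ω => Iff.rfl⟩)
    · cases xs with
      | nil => exact Or.inr (Or.inl ⟨0, rfl⟩)
      | cons y ys =>
        obtain ⟨u', h1, h2⟩ := shorter [] (y :: altL ys) 0 0 (by simp)
        refine Or.inl ⟨u', ?_, fun ω => ?_⟩
        · refine lt_of_lt_of_eq h1 ?_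
          simp
        · rw [W_rot, ← h2]; simp
  · rcases h with rfl | rfl
    · rcases List.eq_nil_or_concat xs with rfl | ⟨ys, y, rfl⟩
      · exact Or.inr (Or.inl ⟨x, rfl⟩)
      · have hy : y ≠ 0 := hxs y (by simp)
        obtain ⟨u', h1, h2⟩ := shorter (altL ys ++ [0]) [] y x (by simp [hy, hx])
        refine Or.inl ⟨u', ?_, fun ω => ?_⟩
        · refine lt_of_lt_of_eq h1 ?_
          simp

        · have e : x :: altL (ys.concat y) = [x] ++ altL (ys.concat y) := rfl
          rw [e, W_rot, ← h2]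
          have e2 : altL (ys.concat y) ++ [x] = altL ys ++ [0] ++ y :: x :: [] := by
            simp
          rw [e2]
    · refine Or.inr (Or.inr ⟨xs ++ [x], ?_, ?_, fun ω => ?_⟩)
      · intro z hz
        rcases List.mem_append.1 hz with hz | hz
        · exact hxs z hz
        · rw [List.mem_singleton.1 hz]; exact hx
      · simp; ring
      · have e : x :: (altL xs ++ [0]) = [x] ++ (altL xs ++ [0]) := rfl
        rw [e, W_rot]
        have e2 : altL xs ++ [0] ++ [x] = altL (xs ++ [x]) := by simp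
        rw [e2]

/-- parity of the number of first generators -/
lemma head_parity (ω : ℕ → Fin 3) (u : List (Fin 4)) (b : Bool) (w : List Bool) :
    ∃ w', E ω u (b :: w) = (if u.count 0 % 2 = 0 then b else !b) :: w' := by
  induction u with
  | nil => exact ⟨w, by simp [E]⟩
  | cons s u ih =>
    obtain ⟨w', hw'⟩ := ih
    have e : E ω (s :: u) (b :: w) = gen ω s (E ω u (b :: w)) := rfl
    rw [e, hw']
    by_cases hs : s = 0
    · subst hs
      rw [gen_zero, fl_cons]
      refine ⟨w', ?_⟩
      rw [List.count_cons_self]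
      congr 1
      by_cases h : u.count 0 % 2 = 0
      · rw [if_pos h, if_neg (by omega)]
      · rw [if_neg h, if_pos (by omega), Bool.not_not]
    · rw [List.count_cons_of_ne (by simpa using hs)]
      cases (if List.count 0 u % 2 = 0 then b else !b)
      · rw [gen_false ω hs]; exact ⟨_, rfl⟩
      · rw [gen_true ω hs]; exact ⟨_, rfl⟩

lemma W_ne_one_of_odd (ω : ℕ → Fin 3) (u : List (Fin 4)) (h : u.count 0 % 2 = 1) :
    W ω u ≠ 1 := by
  intro h1
  obtain ⟨w', hw'⟩ := head_parity ω u false []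
  rw [← W_apply, h1, if_neg (by omega)] at hw'
  simp at hw'

lemma count_altL (xs : List (Fin 4)) (h : ∀ x ∈ xs, x ≠ 0) : (altL xs).count 0 = xs.length := by
  induction xs with
  | nil => rfl
  | cons x xs ih =>
    rw [altL_cons, List.count_cons_self, List.count_cons_of_ne (by
      have := h x (by simp); simpa using this), ih (fun y hy => h y (by simp [hy]))]
    simp

/-- the trace of a letter on the left subtree -/
def ph (d : Fin 3) (s : Fin 4) : List (Fin 4) := if d.val = 3 - s.val then [] else [0]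

/-- first section -/
def c1 (d : Fin 3) : List (Fin 4) → List (Fin 4)
  | x :: y :: r => x :: (ph d y ++ c1 d r)
  | _ => []
/-- second section -/
def c2 (d : Fin 3) : List (Fin 4) → List (Fin 4)
  | x :: y :: r => ph d x ++ (y :: c2 d r)
  | _ => []

lemma E_cons (ω : ℕ → Fin 3) (s : Fin 4) (u : List (Fin 4)) (v : List Bool) :
    E ω (s :: u) v = gen ω s (E ω u v) := rfl
lemma E_append (ω : ℕ → Fin 3) (u v : List (Fin 4)) (z : List Bool) :
    E ω (u ++ v) z = E ω u (E ω v z) := by
  rw [← W_apply, W_append, Equiv.Perm.mul_apply, W_apply, W_apply]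

lemma E_ph (ω : ℕ → Fin 3) (d : Fin 3) (s : Fin 4) (w : List Bool) :
    E ω (ph d s) w = if d.val = 3 - s.val then w else fl w := by
  unfold ph
  split_ifs
  · rfl
  · rw [E_cons, gen_zero]; rfl

lemma sections (ω : ℕ → Fin 3) (m : ℕ) : ∀ xs : List (Fin 4), xs.length = 2 * m →
    (∀ x ∈ xs, x ≠ 0) → ∀ w,
    E ω (altL xs) (false :: w) = false :: E (sh ω) (c1 (ω 0) xs) w ∧
    E ω (altL xs) (true :: w) = true :: E (sh ω) (c2 (ω 0) xs) w := by
  induction m with
  | zero =>
    intro xs h _ w
    have : xs = [] := List.eq_nil_of_length_eq_zero (by omega)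
    subst this
    exact ⟨rfl, rfl⟩
  | succ m ih =>
    intro xs h hne w
    match xs, h, hne with
    | x :: y :: r, h, hne =>
      have hr : r.length = 2 * m := by simp only [List.length_cons] at h; omega
      obtain ⟨i1, i2⟩ := ih r hr (fun z hz => hne z (by simp [hz])) w
      have hx : x ≠ 0 := hne x (by simp)
      have hy : y ≠ 0 := hne y (by simp)
      constructor
      · rw [altL_cons, altL_cons, E_cons, E_cons, E_cons, E_cons, i1, gen_false ω hy, gen_zero,
          fl_cons, Bool.not_false, gen_true ω hx, fl_cons, Bool.not_true]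
        show _ = false :: E (sh ω) (x :: (ph (ω 0) y ++ c1 (ω 0) r)) w
        rw [E_cons, E_append, E_ph]
      · rw [altL_cons, altL_cons, E_cons, E_cons, E_cons, E_cons, i2, gen_true ω hy, gen_zero,
          fl_cons, Bool.not_true, gen_false ω hx, fl_cons, Bool.not_false]
        show _ = true :: E (sh ω) (ph (ω 0) x ++ (y :: c2 (ω 0) r)) w
        rw [E_append, E_cons, E_ph]

lemma E_nil_list (ω : ℕ → Fin 3) (u : List (Fin 4)) : E ω u [] = [] := by
  induction u with
  | nil => rfl
  | cons s u ih =>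
    rw [E_cons, ih]
    by_cases hs : s = 0
    · subst hs; rw [gen_zero]; rfl
    · exact gen_nil ω hs

lemma W_altL_iff (ω : ℕ → Fin 3) (xs : List (Fin 4)) (hl : xs.length % 2 = 0)
    (hne : ∀ x ∈ xs, x ≠ 0) :
    W ω (altL xs) = 1 ↔ W (sh ω) (c1 (ω 0) xs) = 1 ∧ W (sh ω) (c2 (ω 0) xs) = 1 := by
  have hs := sections ω (xs.length / 2) xs (by omega) hne
  constructor
  · intro h
    constructor
    · ext1 w
      have := (hs w).1
      rw [← W_apply, h] at this
      rw [W_apply]
      exact (List.tail_eq_of_cons_eq this).symm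
    · ext1 w
      have := (hs w).2
      rw [← W_apply, h] at this
      rw [W_apply]
      exact (List.tail_eq_of_cons_eq this).symm
  · rintro ⟨h1, h2⟩
    ext1 w
    rw [W_apply]
    cases w with
    | nil => rw [E_nil_list]; rfl
    | cons b w =>
      cases b
      · rw [(hs w).1, ← W_apply, h1]; rfl
      · rw [(hs w).2, ← W_apply, h2]; rfl

lemma length_ph (d : Fin 3) (s : Fin 4) : (ph d s).length ≤ 1 := by
  unfold ph; split_ifs <;> simp

lemma length_c (d : Fin 3) (m : ℕ) : ∀ xs : List (Fin 4), xs.length = 2 * m →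
    (c1 d xs).length ≤ 2 * m ∧ (c2 d xs).length ≤ 2 * m := by
  induction m with
  | zero =>
    intro xs h
    have : xs = [] := List.eq_nil_of_length_eq_zero (by omega)
    subst this
    simp [c1, c2]
  | succ m ih =>
    intro xs h
    match xs, h with
    | x :: y :: r, h =>
      have hr : r.length = 2 * m := by simp only [List.length_cons] at h; omega
      obtain ⟨i1, i2⟩ := ih r hr
      have h1 := length_ph d x
      have h2 := length_ph d y
      constructor
      · show (x :: (ph d y ++ c1 d r)).length ≤ _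
        simp only [List.length_cons, List.length_append]; omega
      · show (ph d x ++ (y :: c2 d r)).length ≤ _
        simp only [List.length_cons, List.length_append]; omega

/-- not eventually constant -/
def NC (ω : ℕ → Fin 3) : Prop := ∀ n, ∀ c, ∃ i ≥ n, ω i ≠ c

lemma NC_sh {ω : ℕ → Fin 3} (h : NC ω) : NC (sh ω) := by
  intro n c
  obtain ⟨i, hi, h2⟩ := h (n + 1) c
  obtain ⟨j, rfl⟩ : ∃ j, i = j + 1 := ⟨i - 1, by omega⟩
  exact ⟨j, by omega, h2⟩

lemma gp_ne_one {ω : ℕ → Fin 3} (h : NC ω) (s : Fin 4) : gp ω s ≠ 1 := by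
  by_cases hs : s = 0
  · subst hs
    intro h1
    have := congrArg (fun g => g [false]) h1
    simp [gen_zero] at this
  · have key : ∀ i (ω : ℕ → Fin 3), (ω i).val ≠ 3 - s.val → gp ω s ≠ 1 := by
      intro i
      induction i with
      | zero =>
        intro ω hi h1
        have := congrArg (fun g => g [false, false]) h1
        simp only [gp_apply, gen_false ω hs, if_neg hi, Equiv.Perm.coe_one, id] at this
        simp at this
      | succ i ih =>
        intro ω hi h1
        apply ih (sh ω) hi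
        ext1 w
        have := congrArg (fun g => g (true :: w)) h1
        simp only [gp_apply, gen_true ω hs, Equiv.Perm.coe_one, id] at this
        exact List.tail_eq_of_cons_eq this
    obtain ⟨i, _, hi⟩ := h 0 ⟨3 - s.val, by
      have : s.val ≠ 0 := fun h0 => hs (Fin.ext h0)
      omega⟩
    apply key i ω
    intro h2
    exact hi (Fin.ext h2)

lemma alt_two_ne {ω : ℕ → Fin 3} (h : NC ω) (x y : Fin 4) (hx : x ≠ 0) (hy : y ≠ 0) :
    W ω (altL [x, y]) ≠ 1 := by
  rw [Ne, W_altL_iff ω [x, y] (by simp) (by intro z hz; simp at hz; rcases hz with rfl | rfl <;> assumption)]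
  rintro ⟨h1, -⟩
  have e : c1 (ω 0) [x, y] = x :: ph (ω 0) y := by simp [c1]
  rw [e] at h1
  unfold ph at h1
  split_ifs at h1
  · simp at h1
    exact gp_ne_one (NC_sh h) x h1
  · refine W_ne_one_of_odd (sh ω) [x, 0] ?_ h1
    rw [List.count_cons_of_ne (by simpa using hx)]
    simp

/-- Short words do not see the digits from the `n`-th on. -/
lemma short_words (n : ℕ) : ∀ (N : ℕ) (ω ω' : ℕ → Fin 3), NC ω → NC ω' →
    (∀ i < n, ω i = ω' i) → ∀ u : List (Fin 4), u.length = N → N < 2 ^ (n + 3) →
    (W ω u = 1 ↔ W ω' u = 1) := by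
  induction n with
  | zero =>
    intro N
    induction N using Nat.strong_induction_on with
    | _ N ih =>
      intro ω ω' h h' hag u hu hN
      rcases eq_or_ne u [] with rfl | hne
      · simp
      rcases normal u hne with ⟨u', h1, h2⟩ | ⟨s, rfl⟩ | ⟨xs, hxs, h1, h2⟩
      · rw [h2, h2]
        exact ih u'.length (by omega) ω ω' h h' hag u' rfl (by omega)
      · simp only [W_cons, W_nil, mul_one]
        exact iff_of_false (gp_ne_one h s) (gp_ne_one h' s)
      · rw [h2, h2]
        have hl : xs.length < 4 := by norm_num at hN; omega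
        match xs, hxs, hl with
        | [], _, _ => simp
        | [x], hxs, _ =>
          exact iff_of_false (W_ne_one_of_odd _ _ (by rw [count_altL _ hxs]; simp))
            (W_ne_one_of_odd _ _ (by rw [count_altL _ hxs]; simp))
        | [x, y], hxs, _ =>
          exact iff_of_false (alt_two_ne h x y (hxs x (by simp)) (hxs y (by simp)))
            (alt_two_ne h' x y (hxs x (by simp)) (hxs y (by simp)))
        | [x, y, z], hxs, _ =>
          exact iff_of_false (W_ne_one_of_odd _ _ (by rw [count_altL _ hxs]; simp))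
            (W_ne_one_of_odd _ _ (by rw [count_altL _ hxs]; simp))
        | x :: y :: z :: t :: r, _, hl => simp only [List.length_cons] at hl; omega
  | succ n ihn =>
    intro N
    induction N using Nat.strong_induction_on with
    | _ N ih =>
      intro ω ω' h h' hag u hu hN
      rcases eq_or_ne u [] with rfl | hne
      · simp
      rcases normal u hne with ⟨u', h1, h2⟩ | ⟨s, rfl⟩ | ⟨xs, hxs, h1, h2⟩
      · rw [h2, h2]
        exact ih u'.length (by omega) ω ω' h h' hag u' rfl (by omega)
      · simp only [W_cons, W_nil, mul_one]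
        exact iff_of_false (gp_ne_one h s) (gp_ne_one h' s)
      · rw [h2, h2]
        rcases Nat.mod_two_eq_zero_or_one xs.length with he | ho
        · rw [W_altL_iff ω xs he hxs, W_altL_iff ω' xs he hxs, ← hag 0 (by omega)]
          have hlen := length_c (ω 0) (xs.length / 2) xs (by omega)
          have hp : 2 ^ (n + 1 + 3) = 2 * 2 ^ (n + 3) := by ring
          have hag' : ∀ i < n, sh ω i = sh ω' i := fun i hi => hag (i + 1) (by omega)
          rw [ihn _ (sh ω) (sh ω') (NC_sh h) (NC_sh h') hag' _ rfl (by omega),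
            ihn _ (sh ω) (sh ω') (NC_sh h) (NC_sh h') hag' (c2 (ω 0) xs) rfl (by omega)]
        · exact iff_of_false (W_ne_one_of_odd _ _ (by rw [count_altL _ hxs]; exact ho))
            (W_ne_one_of_odd _ _ (by rw [count_altL _ hxs]; exact ho))

end Pool.Agent.H44Sp
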