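import Mathlib
import Pool.Agent.H44Sp.A

/-! Periodic sequences: products over blocks and counting modulo powers of two
(helper file for MP_2e40ce_al) -/

namespace Pool.Agent.H44Sp

open Function

/-! ### Products -/

section prod
variable {G : Type*} [Group G]

/-- the product of `F 0, ..., F (m-1)` -/
def pr (F : ℤ → G) (m : ℕ) : G := ((List.range m).map (fun k : ℕ => F k)).prod

@[simp] lemma pr_zero (F : ℤ → G) : pr F 0 = 1 := rfl
lemma pr_succ (F : ℤ → G) (m : ℕ) : pr F (m + 1) = pr F m * F m := by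
  simp [pr, List.range_succ]

lemma pr_succ' (F : ℤ → G) (m : ℕ) : pr F (m + 1) = F 0 * pr (fun j => F (j + 1)) m := by
  induction m with
  | zero => simp [pr_succ]
  | succ m ih =>
    rw [pr_succ, ih, pr_succ, mul_assoc]
    push_cast
    rfl

lemma pr_add (F : ℤ → G) (m n : ℕ) : pr F (m + n) = pr F m * pr (fun j => F (j + m)) n := by
  induction n with
  | zero => simp
  | succ n ih =>
    rw [← add_assoc, pr_succ, ih, pr_succ, mul_assoc]
    congr 3
    push_cast; ring

lemma pr_congr {F F' : ℤ → G} {m : ℕ} (h : ∀ k : ℕ, k < m → F k = F' k) : pr F m = pr F' m := by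
  induction m with
  | zero => rfl
  | succ m ih => rw [pr_succ, pr_succ, ih (fun k hk => h k (by omega)), h m (by omega)]

lemma pr_one (m : ℕ) : pr (fun _ => (1 : G)) m = 1 := by
  induction m with
  | zero => rfl
  | succ m ih => rw [pr_succ, ih, one_mul]

lemma pr_conj (p : ℤ → G) (q : G) (m : ℕ) :
    q * pr (fun j => p j * q) m = pr (fun j => q * p j) m * q := by
  induction m with
  | zero => simp
  | succ m ih => rw [pr_succ, pr_succ, ← mul_assoc, ih]; group

lemma pr_conj_one (p : ℤ → G) (q : G) (m : ℕ) :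
    pr (fun j => p j * q) m = 1 ↔ pr (fun j => q * p j) m = 1 := by
  have h := pr_conj p q m
  constructor
  · intro h1
    rw [h1, mul_one] at h
    exact (mul_eq_right.1 h.symm)
  · intro h1
    rw [h1, one_mul] at h
    exact (mul_eq_left.1 h)

lemma pr_shift_one {F : ℤ → G} {m : ℕ} (h : Periodic F (m : ℤ)) :
    pr (fun j => F (j + 1)) m = 1 ↔ pr F m = 1 := by
  have h1 := pr_succ F m
  rw [pr_succ'] at h1
  have h0 : F m = F 0 := by have := h 0; simpa using this
  rw [h0] at h1
  constructor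
  · intro h2
    rw [h2, mul_one] at h1
    exact (mul_eq_right.1 h1.symm)
  · intro h2
    rw [h2, one_mul] at h1
    exact (mul_eq_left.1 h1)

lemma pr_shift {F : ℤ → G} {m : ℕ} (h : Periodic F (m : ℤ)) (t : ℕ) :
    pr (fun j => F (j + t)) m = 1 ↔ pr F m = 1 := by
  induction t with
  | zero => simp
  | succ t ih =>
    rw [← ih]
    have h2 : Periodic (fun j : ℤ => F (j + t)) (m : ℤ) := by
      intro j
      show F (j + m + t) = F (j + t)
      rw [show j + (m : ℤ) + t = (j + t) + m by ring, h]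
    have := pr_shift_one h2
    rw [← this]
    have e : (fun j : ℤ => F (j + ((t + 1 : ℕ) : ℤ))) = fun j : ℤ => F (j + 1 + t) := by
      funext j; congr 1; push_cast; ring
    rw [e]

lemma pr_inv (F : ℤ → G) (m : ℕ) : (pr F m)⁻¹ = pr (fun j => (F (m - 1 - j))⁻¹) m := by
  induction m with
  | zero => simp
  | succ m ih =>
    rw [pr_succ, mul_inv_rev, ih, pr_succ']
    congr 1
    · congr 2; push_cast; ring
    · apply congrArg (fun f => pr f m)
      funext j
      congr 2; push_cast; ring

lemma pr_reflect {p : ℤ → G} {q : G} {m : ℕ} (hp : Periodic p (m : ℤ)) (hp2 : ∀ j, (p j)⁻¹ = p j)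
    (hq : q⁻¹ = q) :
    pr (fun j => q * p (-j)) m = 1 ↔ pr (fun j => q * p j) m = 1 := by
  have h1 := pr_inv (fun j => q * p j) m
  have h2 : (fun j : ℤ => (q * p (m - 1 - j))⁻¹) = fun j => p (-(j + 1)) * q := by
    funext j
    rw [mul_inv_rev, hp2, hq]
    congr 1
    rw [show (m : ℤ) - 1 - j = -(j + 1) + m by ring, hp]
  rw [h2] at h1
  have h3 : Periodic (fun j : ℤ => q * p (-j)) (m : ℤ) := by
    intro j
    show q * p (-(j + m)) = q * p (-j)
    congr 1
    rw [← hp (-(j + m))]
    congr 1; ring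
  rw [← pr_shift_one h3, ← pr_conj_one (fun j : ℤ => p (-(j + 1))) q m, ← h1, inv_eq_one]

lemma pr_pow {F : ℤ → G} {h : ℕ} (hF : Periodic F (h : ℤ)) (n : ℕ) :
    pr F (n * h) = (pr F h) ^ n := by
  induction n with
  | zero => simp
  | succ n ih =>
    rw [Nat.succ_mul, pr_add, ih, pow_succ]
    congr 1
    apply congrArg (fun f => pr f h)
    funext j
    have := (hF.nat_mul n) j
    push_cast
    exact this

lemma pr_double (F : ℤ → G) (m : ℕ) : pr F (2 * m) = pr (fun j => F (2 * j) * F (2 * j + 1)) m := by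
  induction m with
  | zero => rfl
  | succ m ih =>
    rw [show 2 * (m + 1) = 2 * m + 1 + 1 by ring, pr_succ, pr_succ, ih, pr_succ, mul_assoc]
    push_cast
    rfl

end prod

/-! ### Counting -/

lemma sum_dvd {X : Type*} [DecidableEq X] (f : X → X) (K : ℕ) (h1 : ∀ x, f^[2 ^ (K + 1)] x = x)
    (g : X → ℕ) (c : ℕ) (hg : ∀ x, g (f x) = g x) (hc : ∀ x, c ∣ g x) : ∀ (N : ℕ) (s : Finset X),
    s.card = N → (∀ x ∈ s, f^[2 ^ K] x ≠ x) → (∀ x ∈ s, f x ∈ s) →
    2 ^ (K + 1) * c ∣ ∑ x ∈ s, g x := by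
  intro N
  induction N using Nat.strong_induction_on with
  | _ N ih =>
    intro s hs h2 hcl
    rcases s.eq_empty_or_nonempty with rfl | ⟨x, hx⟩
    · simp
    have hmp : minimalPeriod f x = 2 ^ (K + 1) := by
      have hd : minimalPeriod f x ∣ 2 ^ (K + 1) := IsPeriodicPt.minimalPeriod_dvd (h1 x)
      obtain ⟨k, hk, hk2⟩ := (Nat.dvd_prime_pow Nat.prime_two).1 hd
      rcases Nat.lt_or_ge k (K + 1) with hlt | hge
      · exfalso
        apply h2 x hx
        have : minimalPeriod f x ∣ 2 ^ K := by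
          rw [hk2]; exact pow_dvd_pow 2 (by omega)
        exact (isPeriodicPt_iff_minimalPeriod_dvd.2 this)
      · rw [hk2]; congr 1; omega
    set O := (Finset.range (2 ^ (K + 1))).image (fun i => f^[i] x) with hO
    have hinj : Set.InjOn (fun i => f^[i] x) (Finset.range (2 ^ (K + 1)) : Set ℕ) := by
      have := iterate_injOn_Iio_minimalPeriod (f := f) (x := x)
      rw [hmp] at this
      intro i hi j hj hij
      apply this _ _ hij
      · simpa using hi
      · simpa using hj
    have hmem : ∀ m, f^[m] x ∈ O := by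
      intro m
      rw [← iterate_mod_minimalPeriod_eq, hmp]
      exact Finset.mem_image.2 ⟨m % 2 ^ (K + 1), Finset.mem_range.2 (Nat.mod_lt _ (by positivity)), rfl⟩
    have hall : ∀ i, f^[i] x ∈ s := by
      intro i
      induction i with
      | zero => exact hx
      | succ i ih2 =>
        rw [iterate_succ_apply']
        exact hcl _ ih2
    have hsub : O ⊆ s := by
      intro y hy
      obtain ⟨i, _, rfl⟩ := Finset.mem_image.1 hy
      exact hall i
    have hgi : ∀ i, g (f^[i] x) = g x := by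
      intro i
      induction i with
      | zero => rfl
      | succ i ih2 => rw [iterate_succ_apply', hg, ih2]
    have hsumO : ∑ y ∈ O, g y = 2 ^ (K + 1) * g x := by
      rw [hO, Finset.sum_image hinj]
      simp only [hgi, Finset.sum_const, Finset.card_range, smul_eq_mul]
    have hxO : x ∈ O := hmem 0
    have hcard : (s \ O).card < N := by
      rw [← hs]
      exact Finset.card_lt_card (Finset.sdiff_ssubset hsub ⟨x, hxO⟩)
    have hrest := ih _ hcard (s \ O) rfl (fun y hy => h2 y (Finset.mem_sdiff.1 hy).1) (by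
      intro y hy
      rw [Finset.mem_sdiff] at hy ⊢
      refine ⟨hcl y hy.1, fun hfy => hy.2 ?_⟩
      obtain ⟨i, _, hi⟩ := Finset.mem_image.1 hfy
      have hpow : (2 ^ (K + 1) - 1).succ = 2 ^ (K + 1) := by
        have : 0 < 2 ^ (K + 1) := by positivity
        omega
      have e : f^[2 ^ (K + 1) - 1 + i] x = y := by
        rw [iterate_add_apply, hi, ← iterate_succ_apply]
        rw [hpow]
        exact h1 y
      rw [← e]; exact hmem _)
    rw [← Finset.sum_sdiff hsub, hsumO]
    exact Dvd.dvd.add hrest (Nat.mul_dvd_mul_left _ (hc x))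

lemma card_dvd {X : Type*} [Finite X] (f : X → X) (K : ℕ) (h1 : ∀ x, f^[2 ^ (K + 1)] x = x)
    (h2 : ∀ x, f^[2 ^ K] x ≠ x) : 2 ^ (K + 1) ∣ Nat.card X := by
  classical
  have : Fintype X := Fintype.ofFinite X
  have := sum_dvd f K h1 (fun _ => 1) 1 (fun _ => rfl) (fun _ => dvd_rfl) _ Finset.univ rfl
    (fun x _ => h2 x) (fun x _ => Finset.mem_univ _)
  rw [Nat.card_eq_fintype_card]
  simpa using this

lemma card_split {X : Type*} [Finite X] (P : X → Prop) :
    Nat.card X = Nat.card {x // P x} + Nat.card {x // ¬ P x} := by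
  classical
  rw [← Nat.card_sum]
  exact Nat.card_congr (Equiv.sumCompl P).symm

lemma card_mod {X : Type*} [Finite X] (f : X → X) (K : ℕ) (h1 : ∀ x, f^[2 ^ (K + 1)] x = x) :
    Nat.card X ≡ Nat.card {x // f^[2 ^ K] x = x} [MOD 2 ^ (K + 1)] := by
  have hinj : Injective f := by
    intro a b hab
    rw [← h1 a, ← h1 b, show 2 ^ (K + 1) = (2 ^ (K + 1) - 1).succ from by
          have : 0 < 2 ^ (K + 1) := by positivity
          omega, iterate_succ_apply, iterate_succ_apply, hab]
  rw [card_split (fun x => f^[2 ^ K] x = x)]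
  let f' : {x // ¬ f^[2 ^ K] x = x} → {x // ¬ f^[2 ^ K] x = x} := fun x => ⟨f x.1, by
    intro h
    rw [← iterate_succ_apply, iterate_succ_apply'] at h
    exact x.2 (hinj h)⟩
  have hval : ∀ m (x : {x // ¬ f^[2 ^ K] x = x}), (f'^[m] x).1 = f^[m] x.1 := by
    intro m
    induction m with
    | zero => intro x; rfl
    | succ m ih => intro x; rw [iterate_succ_apply, ih, iterate_succ_apply]
  have hd := card_dvd f' K (fun x => Subtype.ext (by rw [hval, h1]))
    (fun x h => x.2 (by rw [← hval, h]))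
  obtain ⟨c, hc⟩ := hd
  rw [hc]
  unfold Nat.ModEq
  rw [Nat.add_mul_mod_self_left]

/-! ### Periodic sequences -/

section per
variable {α : Type*}

/-- the number of `h`-periodic sequences with the property `P` -/
noncomputable def nc (P : (ℤ → α) → Prop) (h : ℕ) : ℕ :=
  Nat.card {x : ℤ → α // Periodic x (h : ℤ) ∧ P x}

lemma per_emod {x : ℤ → α} {h : ℕ} (hx : Periodic x (h : ℤ)) (i : ℤ) : x i = x (i % h) := by
  have h1 := (hx.int_mul (i / h)) (i % h)
  simp only [Int.cast_id] at h1
  rw [← h1]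
  congr 1
  have := Int.emod_add_mul_ediv i h
  linarith [mul_comm (i / (h : ℤ)) (h : ℤ)]

lemma finite_per [Finite α] (P : (ℤ → α) → Prop) {h : ℕ} (hh : 0 < h) :
    Finite {x : ℤ → α // Periodic x (h : ℤ) ∧ P x} := by
  apply Finite.of_injective (fun x => fun i : Fin h => x.1 (i.val : ℤ))
  intro x y hxy
  apply Subtype.ext
  funext i
  rw [per_emod x.2.1 i, per_emod y.2.1 i]
  have h1 : 0 ≤ i % (h : ℤ) := Int.emod_nonneg _ (by omega)
  have h2 : i % (h : ℤ) < h := Int.emod_lt_of_pos _ (by omega)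
  have := congrFun hxy ⟨(i % (h : ℤ)).toNat, by omega⟩
  simp only at this
  rwa [Int.toNat_of_nonneg h1] at this

lemma nc_congr {P Q : (ℤ → α) → Prop} {h : ℕ}
    (hPQ : ∀ x, Periodic x (h : ℤ) → (P x ↔ Q x)) : nc P h = nc Q h := by
  unfold nc
  apply Nat.card_congr
  exact Equiv.subtypeEquivRight (fun x => ⟨fun hx => ⟨hx.1, (hPQ x hx.1).1 hx.2⟩,
    fun hx => ⟨hx.1, (hPQ x hx.1).2 hx.2⟩⟩)

lemma per_shift {x : ℤ → α} {h : ℤ} (hx : Periodic x h) (t : ℤ) : Periodic (fun i => x (i + t)) h := by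
  intro i
  show x (i + h + t) = x (i + t)
  rw [show i + h + t = (i + t) + h by ring, hx]

lemma nc_step [Finite α] (P : (ℤ → α) → Prop) (t K : ℕ) (ht : 0 < t)
    (hP : ∀ x, Periodic x ((t * 2 ^ (K + 1) : ℕ) : ℤ) → P x → P (fun i => x (i + t))) :
    nc P (t * 2 ^ (K + 1)) ≡ nc P (t * 2 ^ K) [MOD 2 ^ (K + 1)] := by
  have hf := finite_per P (h := t * 2 ^ (K + 1)) (by positivity)
  let f : {x : ℤ → α // Periodic x ((t * 2 ^ (K + 1) : ℕ) : ℤ) ∧ P x} →
      {x : ℤ → α // Periodic x ((t * 2 ^ (K + 1) : ℕ) : ℤ) ∧ P x} :=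
    fun x => ⟨fun i => x.1 (i + t), per_shift x.2.1 t, hP x.1 x.2.1 x.2.2⟩
  have hfi : ∀ m x, (f^[m] x).1 = fun i => x.1 (i + (t * m : ℕ)) := by
    intro m
    induction m with
    | zero =>
      intro x
      show x.1 = _
      funext i
      congr 1
      simp
    | succ m ih =>
      intro x
      rw [iterate_succ_apply, ih]
      funext i
      show x.1 (i + (t * m : ℕ) + t) = _
      congr 1
      push_cast; ring
  have h1 : ∀ x, f^[2 ^ (K + 1)] x = x := by
    intro x
    apply Subtype.ext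
    rw [hfi]
    funext i
    exact x.2.1 i
  have h2 := card_mod f K h1
  refine h2.trans ?_
  have e : Nat.card {x // f^[2 ^ K] x = x} = nc P (t * 2 ^ K) := by
    unfold nc
    apply Nat.card_congr
    refine ⟨fun x => ⟨x.1.1, ?_, x.1.2.2⟩, fun y => ⟨⟨y.1, ?_, y.2.2⟩, ?_⟩, ?_, ?_⟩
    · intro i
      have := congrArg Subtype.val x.2
      rw [hfi] at this
      exact congrFun this i
    · intro i
      have e1 : ((t * 2 ^ (K + 1) : ℕ) : ℤ) = ((t * 2 ^ K : ℕ) : ℤ) + ((t * 2 ^ K : ℕ) : ℤ) := by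
        push_cast; ring
      rw [e1, ← add_assoc, y.2.1, y.2.1]
    · apply Subtype.ext
      rw [hfi]
      funext i
      exact y.2.1 i
    · intro x; rfl
    · intro y; rfl
  rw [e]

/-- the even part -/
def ev (x : ℤ → α) : ℤ → α := fun i => x (2 * i)
/-- the odd part -/
def od (x : ℤ → α) : ℤ → α := fun i => x (2 * i + 1)
/-- interleaving -/
def il (u v : ℤ → α) : ℤ → α := fun i => if i % 2 = 0 then u (i / 2) else v (i / 2)

lemma ev_il (u v : ℤ → α) : ev (il u v) = u := by
  funext i
  unfold ev il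
  rw [if_pos (by omega)]
  congr 1; omega
lemma od_il (u v : ℤ → α) : od (il u v) = v := by
  funext i
  unfold od il
  rw [if_neg (by omega)]
  congr 1; omega
lemma il_ev_od (x : ℤ → α) : il (ev x) (od x) = x := by
  funext i
  unfold ev od il
  by_cases h : i % 2 = 0
  · rw [if_pos h]
    show x (2 * (i / 2)) = x i
    congr 1; omega
  · rw [if_neg h]
    show x (2 * (i / 2) + 1) = x i
    congr 1; omega

lemma per_ev_od (x : ℤ → α) (h : ℕ) : Periodic x ((2 * h : ℕ) : ℤ) ↔
    Periodic (ev x) (h : ℤ) ∧ Periodic (od x) (h : ℤ) := by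
  constructor
  · intro hx
    constructor
    · intro i
      show x (2 * (i + h)) = x (2 * i)
      rw [← hx (2 * i)]; congr 1; push_cast; ring
    · intro i
      show x (2 * (i + h) + 1) = x (2 * i + 1)
      rw [← hx (2 * i + 1)]; congr 1; push_cast; ring
  · rintro ⟨h1, h2⟩ i
    rcases Int.emod_two_eq_zero_or_one i with hi | hi
    · have e1 : i = 2 * (i / 2) := by omega
      have := h1 (i / 2)
      unfold ev at this
      rw [← e1] at this
      rw [← this]
      congr 1; push_cast; omega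
    · have e1 : i = 2 * (i / 2) + 1 := by omega
      have := h2 (i / 2)
      unfold od at this
      rw [← e1] at this
      rw [← this]
      congr 1; push_cast; omega

end per

end Pool.Agent.H44Sp
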