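import Mathlib
import Pool.Agent.H44Sp.B

/-! Critical words over two letters (helper file for MP_2e40ce_al) -/

namespace Pool.Agent.H44Sp

open Function

/-- the word `a y_0 a y_1 ... a y_{m-1}` is trivial -/
def TT (ω : ℕ → Fin 3) (y : ℤ → Fin 4) (m : ℕ) : Prop :=
  pr (fun j => gp ω 0 * gp ω (y j)) m = 1

/-- the two letters that are not special for the digit `0` -/
def lt (b : Bool) : Fin 4 := if b then 2 else 1

lemma lt_ne (b : Bool) : lt b ≠ 0 := by cases b <;> decide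

/-- triviality of a two-letter word -/
def TB (ω : ℕ → Fin 3) (x : ℤ → Bool) (m : ℕ) : Prop := TT ω (fun j => lt (x j)) m

/-- the list of blocks -/
def bl (B : ℤ → List (Fin 4)) (m : ℕ) : List (Fin 4) := (List.range m).flatMap (fun k : ℕ => B k)

lemma bl_succ (B : ℤ → List (Fin 4)) (m : ℕ) : bl B (m + 1) = bl B m ++ B m := by
  simp [bl, List.range_succ]

lemma pr_W (ω : ℕ → Fin 3) (B : ℤ → List (Fin 4)) (m : ℕ) :
    pr (fun j => W ω (B j)) m = W ω (bl B m) := by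
  induction m with
  | zero => rfl
  | succ m ih => rw [pr_succ, ih, bl_succ, W_append]

lemma length_bl_le (B : ℤ → List (Fin 4)) (hB : ∀ j, (B j).length ≤ 2) (m : ℕ) :
    (bl B m).length ≤ 2 * m := by
  induction m with
  | zero => rfl
  | succ m ih =>
    rw [bl_succ, List.length_append]
    have := hB m
    omega

lemma length_bl_lt (B : ℤ → List (Fin 4)) (hB : ∀ j, (B j).length ≤ 2) (m : ℕ)
    (h : ∃ k : ℕ, k < m ∧ (B k).length ≤ 1) : (bl B m).length < 2 * m := by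
  induction m with
  | zero => obtain ⟨k, hk, _⟩ := h; omega
  | succ m ih =>
    rw [bl_succ, List.length_append]
    obtain ⟨k, hk, hk2⟩ := h
    rcases Nat.lt_or_ge k m with h1 | h1
    · have := ih ⟨k, h1, hk2⟩
      have := hB m
      omega
    · have : k = m := by omega
      subst this
      have := length_bl_le B hB k
      omega

lemma short_pr {n : ℕ} {ω ω' : ℕ → Fin 3} (h : NC ω) (h' : NC ω') (hag : ∀ i < n, ω i = ω' i)
    (B : ℤ → List (Fin 4)) (hB : ∀ j, (B j).length ≤ 2) (m : ℕ)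
    (hs : ∃ k : ℕ, k < m ∧ (B k).length ≤ 1) (hm : 2 * m ≤ 2 ^ (n + 3)) :
    pr (fun j => W ω (B j)) m = 1 ↔ pr (fun j => W ω' (B j)) m = 1 := by
  rw [pr_W, pr_W]
  exact short_words n _ ω ω' h h' hag _ rfl (lt_of_lt_of_le (length_bl_lt B hB m hs) hm)

lemma c1_append (d : Fin 3) (x y : Fin 4) (m : ℕ) : ∀ xs : List (Fin 4), xs.length = 2 * m →
    c1 d (xs ++ [x, y]) = c1 d xs ++ (x :: ph d y) ∧
    c2 d (xs ++ [x, y]) = c2 d xs ++ (ph d x ++ [y]) := by
  induction m with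
  | zero =>
    intro xs h
    have : xs = [] := List.eq_nil_of_length_eq_zero (by omega)
    subst this
    simp [c1, c2]
  | succ m ih =>
    intro xs h
    match xs, h with
    | p :: q :: r, h =>
      have hr : r.length = 2 * m := by simp only [List.length_cons] at h; omega
      obtain ⟨i1, i2⟩ := ih r hr
      constructor
      · show c1 d (p :: q :: (r ++ [x, y])) = _
        rw [c1, i1, c1]; simp
      · show c2 d (p :: q :: (r ++ [x, y])) = _
        rw [c2, i2, c2]; simp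

lemma c_map (d : Fin 3) (y : ℤ → Fin 4) (m : ℕ) :
    c1 d ((List.range (2 * m)).map (fun k : ℕ => y k)) =
      bl (fun j => y (2 * j) :: ph d (y (2 * j + 1))) m ∧
    c2 d ((List.range (2 * m)).map (fun k : ℕ => y k)) =
      bl (fun j => ph d (y (2 * j)) ++ [y (2 * j + 1)]) m := by
  induction m with
  | zero => exact ⟨rfl, rfl⟩
  | succ m ih =>
    have e : (List.range (2 * (m + 1))).map (fun k : ℕ => y k) =
        (List.range (2 * m)).map (fun k : ℕ => y k) ++ [y (2 * m : ℕ), y (2 * m + 1 : ℕ)] := by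
      rw [show 2 * (m + 1) = 2 * m + 1 + 1 by ring, List.range_succ, List.range_succ]
      simp
    rw [e]
    obtain ⟨h1, h2⟩ := c1_append d (y (2 * m : ℕ)) (y (2 * m + 1 : ℕ)) m
      ((List.range (2 * m)).map (fun k : ℕ => y k)) (by simp)
    rw [h1, h2, ih.1, ih.2, bl_succ, bl_succ]
    push_cast
    exact ⟨rfl, rfl⟩

/-- the trace of a letter as a permutation -/
def pg (ω : ℕ → Fin 3) (d : Fin 3) (s : Fin 4) : Equiv.Perm (List Bool) := W ω (ph d s)

lemma TT_section {ω : ℕ → Fin 3} {y : ℤ → Fin 4} (hy : ∀ j, y j ≠ 0) (m : ℕ) :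
    TT ω y (2 * m) ↔
      pr (fun j => gp (sh ω) (y (2 * j)) * pg (sh ω) (ω 0) (y (2 * j + 1))) m = 1 ∧
      pr (fun j => pg (sh ω) (ω 0) (y (2 * j)) * gp (sh ω) (y (2 * j + 1))) m = 1 := by
  unfold TT
  have e1 : (fun j => gp ω 0 * gp ω (y j)) = fun j => W ω [0, y j] := by
    funext j; simp
  have e2 : bl (fun j => [0, y j]) (2 * m) = altL ((List.range (2 * m)).map (fun k : ℕ => y k)) := by
    unfold bl altL
    rw [List.flatMap_map]
  rw [e1, pr_W, e2, W_altL_iff ω _ (by simp) (by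
    intro x hx
    obtain ⟨k, _, rfl⟩ := List.mem_map.1 hx
    exact hy k), (c_map (ω 0) y m).1, (c_map (ω 0) y m).2, ← pr_W, ← pr_W]
  have e3 : (fun j => W (sh ω) (y (2 * j) :: ph (ω 0) (y (2 * j + 1)))) =
      fun j => gp (sh ω) (y (2 * j)) * pg (sh ω) (ω 0) (y (2 * j + 1)) := by
    funext j; rw [W_cons]; rfl
  have e4 : (fun j => W (sh ω) (ph (ω 0) (y (2 * j)) ++ [y (2 * j + 1)])) =
      fun j => pg (sh ω) (ω 0) (y (2 * j)) * gp (sh ω) (y (2 * j + 1)) := by
    funext j; rw [W_append, W_cons, W_nil, mul_one]; rfl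
  rw [e3, e4]

lemma pg_nil {ω : ℕ → Fin 3} {d : Fin 3} {s : Fin 4} (h : d.val = 3 - s.val) : pg ω d s = 1 := by
  unfold pg ph; rw [if_pos h]; rfl
lemma pg_cons {ω : ℕ → Fin 3} {d : Fin 3} {s : Fin 4} (h : d.val ≠ 3 - s.val) :
    pg ω d s = gp ω 0 := by
  unfold pg ph; rw [if_neg h]; simp

lemma gp0_inv (ω : ℕ → Fin 3) : (gp ω 0)⁻¹ = gp ω 0 := gp_inv ω 0

/-- length four words -/
lemma base4 {ω : ℕ → Fin 3} (h : NC ω) {y : ℤ → Fin 4} (hy : ∀ j, y j ≠ 0) (ht : TT ω y 4) :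
    ∀ k : ℕ, k < 4 → (ω 0).val = 3 - (y k).val := by
  rw [show 4 = 2 * 2 by norm_num, TT_section hy] at ht
  obtain ⟨h1, h2⟩ := ht
  have key : ∀ s t p q : Fin 4, s ≠ 0 → t ≠ 0 →
      gp (sh ω) s * pg (sh ω) (ω 0) p * (gp (sh ω) t * pg (sh ω) (ω 0) q) = 1 →
      (ω 0).val = 3 - p.val ∧ (ω 0).val = 3 - q.val := by
    intro s t p q hs ht h1
    by_cases hp : (ω 0).val = 3 - p.val
    · by_cases hq : (ω 0).val = 3 - q.val
      · exact ⟨hp, hq⟩
      · exfalso
        rw [pg_nil hp, pg_cons hq] at h1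
        apply W_ne_one_of_odd (sh ω) [s, t, 0]
        · rw [List.count_cons_of_ne (by simpa using hs), List.count_cons_of_ne (by simpa using ht)]
          simp
        · simp only [W_cons, W_nil, mul_one]
          rw [mul_one] at h1
          exact h1
    · exfalso
      by_cases hq : (ω 0).val = 3 - q.val
      · rw [pg_nil hq, pg_cons hp] at h1
        apply W_ne_one_of_odd (sh ω) [s, 0, t]
        · rw [List.count_cons_of_ne (by simpa using hs), List.count_cons_self,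
            List.count_cons_of_ne (by simpa using ht)]
          simp
        · simp only [W_cons, W_nil, mul_one]
          rw [mul_one, mul_assoc] at h1
          exact h1
      · rw [pg_cons hp, pg_cons hq] at h1
        apply alt_two_ne (NC_sh h) t s ht hs
        have e : altL [t, s] = [0, t, 0] ++ [s] := rfl
        rw [e, W_rot]
        simp only [List.cons_append, List.nil_append, W_cons, W_nil, mul_one]
        rw [mul_assoc] at h1
        exact h1
  rw [pr_succ, pr_succ, pr_zero, one_mul] at h1 h2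
  have k1 := key _ _ _ _ (hy _) (hy _) h1
  have h2' : gp (sh ω) (y 1) * pg (sh ω) (ω 0) (y 2) * (gp (sh ω) (y 3) * pg (sh ω) (ω 0) (y 0)) = 1 := by
    have h3 : pg (sh ω) (ω 0) (y 0) * (gp (sh ω) (y 1) * pg (sh ω) (ω 0) (y 2) * gp (sh ω) (y 3)) = 1 := by
      rw [← h2]
      push_cast
      norm_num
      group
    rw [mul_one_comm] at h3
    rw [← h3]
    group
  have k2 := key _ _ _ _ (hy _) (hy _) h2'
  norm_num at k1
  intro k hk
  interval_cases k
  · exact k2.2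
  · exact k1.1
  · exact k2.1
  · exact k1.2

/-- trace of a two-letter letter for the digit 1 -/
def qd (ω : ℕ → Fin 3) (b : Bool) : Equiv.Perm (List Bool) := if b then 1 else gp ω 0

lemma pg_zero_lt (ω : ℕ → Fin 3) (b : Bool) : pg ω 0 (lt b) = gp ω 0 := by
  apply pg_cons; cases b <;> decide
lemma pg_one_lt (ω : ℕ → Fin 3) (b : Bool) : pg ω 1 (lt b) = qd ω b := by
  cases b
  · rw [pg_cons (by decide)]; rfl
  · rw [pg_nil (by decide)]; rfl

lemma sect0 {ω : ℕ → Fin 3} (h0 : ω 0 = 0) (x : ℤ → Bool) (m : ℕ) :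
    TB ω x (2 * m) ↔ TB (sh ω) (ev x) m ∧ TB (sh ω) (od x) m := by
  unfold TB
  rw [TT_section (fun j => lt_ne _), h0]
  simp only [pg_zero_lt]
  rw [pr_conj_one]
  rfl

/-- first section, digit 1 -/
def P1 (ω : ℕ → Fin 3) (u v : ℤ → Bool) (m : ℕ) : Prop :=
  pr (fun j => gp ω (lt (u j)) * qd ω (v j)) m = 1
/-- second section, digit 1 -/
def P2 (ω : ℕ → Fin 3) (u v : ℤ → Bool) (m : ℕ) : Prop :=
  pr (fun j => qd ω (u j) * gp ω (lt (v j))) m = 1

lemma sect1 {ω : ℕ → Fin 3} (h0 : ω 0 = 1) (x : ℤ → Bool) (m : ℕ) :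
    TB ω x (2 * m) ↔ P1 (sh ω) (ev x) (od x) m ∧ P2 (sh ω) (ev x) (od x) m := by
  unfold TB
  rw [TT_section (fun j => lt_ne _), h0]
  simp only [pg_one_lt]
  rfl

lemma P1_iff {ω : ℕ → Fin 3} {u v : ℤ → Bool} {m : ℕ} (hv : ∀ k : ℕ, k < m → v k = false) :
    P1 ω u v m ↔ TB ω u m := by
  unfold P1 TB TT
  rw [← pr_conj_one]
  rw [pr_congr (F' := fun j => gp ω (lt (u j)) * gp ω 0)]
  intro k hk
  simp [hv k hk, qd]

lemma P2_iff {ω : ℕ → Fin 3} {u v : ℤ → Bool} {m : ℕ} (hu : ∀ k : ℕ, k < m → u k = false) :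
    P2 ω u v m ↔ TB ω v m := by
  unfold P2 TB TT
  rw [pr_congr (F' := fun j => gp ω 0 * gp ω (lt (v j)))]
  intro k hk
  simp [hu k hk, qd]

lemma P1_short {n : ℕ} {ω ω' : ℕ → Fin 3} (h : NC ω) (h' : NC ω') (hag : ∀ i < n, ω i = ω' i)
    (u v : ℤ → Bool) (m : ℕ) (hs : ∃ k : ℕ, k < m ∧ v k = true) (hm : 2 * m ≤ 2 ^ (n + 3)) :
    P1 ω u v m ↔ P1 ω' u v m := by
  have key : ∀ ω, P1 ω u v m ↔
      pr (fun j => W ω (lt (u j) :: (if v j then [] else [0]))) m = 1 := by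
    intro ω
    unfold P1
    have : (fun j => gp ω (lt (u j)) * qd ω (v j)) =
        fun j => W ω (lt (u j) :: (if v j then [] else [0])) := by
      funext j
      rw [W_cons]
      cases v j <;> simp [qd]
    rw [this]
  rw [key, key]
  apply short_pr h h' hag _ _ m _ hm
  · intro j
    cases v j <;> simp
  · obtain ⟨k, hk, hk2⟩ := hs
    exact ⟨k, hk, by simp [hk2]⟩

lemma P2_short {n : ℕ} {ω ω' : ℕ → Fin 3} (h : NC ω) (h' : NC ω') (hag : ∀ i < n, ω i = ω' i)
    (u v : ℤ → Bool) (m : ℕ) (hs : ∃ k : ℕ, k < m ∧ u k = true) (hm : 2 * m ≤ 2 ^ (n + 3)) :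
    P2 ω u v m ↔ P2 ω' u v m := by
  have key : ∀ ω, P2 ω u v m ↔
      pr (fun j => W ω ((if u j then [] else [0]) ++ [lt (v j)])) m = 1 := by
    intro ω
    unfold P2
    have : (fun j => qd ω (u j) * gp ω (lt (v j))) =
        fun j => W ω ((if u j then [] else [0]) ++ [lt (v j)]) := by
      funext j
      rw [W_append]
      cases u j <;> simp [qd]
    rw [this]
  rw [key, key]
  apply short_pr h h' hag _ _ m _ hm
  · intro j
    cases u j <;> simp
  · obtain ⟨k, hk, hk2⟩ := hs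
    exact ⟨k, hk, by simp [hk2]⟩

/-- pairs of sequences that differ for the first time at `n + k` -/
structure Good (k n : ℕ) (ω ω' : ℕ → Fin 3) : Prop where
  nc : NC ω
  nc' : NC ω'
  ag : ∀ i < n + k, ω i = ω' i
  h1 : ω (n + k) = 1
  h0 : ω' (n + k) = 0
  two : ∀ i, ω i ≠ 2
  two' : ∀ i, ω' i ≠ 2
  zz : ∀ i, n ≤ i → i < n + k → ω i = 0
  last : ∀ m, n = m + 1 → ω m = 1
  no00 : ∀ i < n, ω i = 0 → ω (i + 1) = 1

lemma Good.shift {k n : ℕ} {ω ω' : ℕ → Fin 3} (h : Good k (n + 1) ω ω') :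
    Good k n (sh ω) (sh ω') where
  nc := NC_sh h.nc
  nc' := NC_sh h.nc'
  ag := fun i hi => h.ag (i + 1) (by omega)
  h1 := by
    have := h.h1
    rw [show n + 1 + k = n + k + 1 by ring] at this
    exact this
  h0 := by
    have := h.h0
    rw [show n + 1 + k = n + k + 1 by ring] at this
    exact this
  two := fun i => h.two (i + 1)
  two' := fun i => h.two' (i + 1)
  zz := fun i h1 h2 => h.zz (i + 1) (by omega) (by omega)
  last := fun m hm => h.last (m + 1) (by omega)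
  no00 := fun i hi h0 => h.no00 (i + 1) (by omega) h0

lemma Good.shiftk {k : ℕ} {ω ω' : ℕ → Fin 3} (h : Good (k + 1) 0 ω ω') :
    Good k 0 (sh ω) (sh ω') where
  nc := NC_sh h.nc
  nc' := NC_sh h.nc'
  ag := fun i hi => h.ag (i + 1) (by omega)
  h1 := by
    have := h.h1
    rw [show 0 + (k + 1) = 0 + k + 1 by ring] at this
    exact this
  h0 := by
    have := h.h0
    rw [show 0 + (k + 1) = 0 + k + 1 by ring] at this
    exact this
  two := fun i => h.two (i + 1)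
  two' := fun i => h.two' (i + 1)
  zz := fun i h1 h2 => h.zz (i + 1) (by omega) (by omega)
  last := fun m hm => by omega
  no00 := fun i hi h0 => by omega

lemma Good.zero_or_one {k n : ℕ} {ω ω' : ℕ → Fin 3} (h : Good k n ω ω') : ω 0 = 0 ∨ ω 0 = 1 := by
  have := h.two 0
  generalize ω 0 = z at this
  revert z; decide

lemma TB_zero_true {ω : ℕ → Fin 3} (h : NC ω) (h1 : ω 0 = 1) (x : ℤ → Bool) (ht : TB ω x 4) :
    ∀ k : ℕ, k < 4 → x k = true := by
  intro k hk
  have := base4 h (fun j => lt_ne _) ht k hk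
  rw [h1] at this
  cases hx : x (k : ℤ)
  · rw [hx] at this; revert this; decide
  · rfl

lemma base_false (k : ℕ) : ∀ (ω ω' : ℕ → Fin 3), Good k 0 ω ω' → ∀ x : ℤ → Bool,
    ¬ TB ω' x (2 ^ (k + 2)) := by
  induction k with
  | zero =>
    intro ω ω' h x ht
    have := base4 h.nc' (fun j => lt_ne _) ht 0 (by norm_num)
    have h0 : ω' 0 = 0 := h.h0
    rw [h0] at this
    cases hx : x ((0 : ℕ) : ℤ) <;> rw [hx] at this <;> revert this <;> decide
  | succ k ih =>
    intro ω ω' h x ht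
    have h0 : ω' 0 = 0 := by rw [← h.ag 0 (by omega)]; exact h.zz 0 le_rfl (by omega)
    rw [show 2 ^ (k + 1 + 2) = 2 * 2 ^ (k + 2) by ring, sect0 h0] at ht
    exact ih _ _ h.shiftk _ ht.1

lemma base_true (k : ℕ) : ∀ (ω ω' : ℕ → Fin 3), Good k 0 ω ω' → ∀ x : ℤ → Bool,
    TB ω x (2 ^ (k + 2)) → x 0 = true := by
  induction k with
  | zero =>
    intro ω ω' h x ht
    have := TB_zero_true h.nc h.h1 x ht 0 (by norm_num)
    simpa using this
  | succ k ih =>
    intro ω ω' h x ht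
    have h0 : ω 0 = 0 := h.zz 0 le_rfl (by omega)
    rw [show 2 ^ (k + 1 + 2) = 2 * 2 ^ (k + 2) by ring, sect0 h0] at ht
    have := ih _ _ h.shiftk _ ht.1
    unfold ev at this
    simpa using this

/-- monotonicity -/
lemma TB_mono (k n : ℕ) : ∀ (ω ω' : ℕ → Fin 3), Good k n ω ω' → ∀ x : ℤ → Bool,
    TB ω' x (2 ^ (n + k + 2)) → TB ω x (2 ^ (n + k + 2)) := by
  induction n with
  | zero =>
    intro ω ω' h x hx
    rw [show 0 + k + 2 = k + 2 by ring] at hx
    exact absurd hx (base_false k ω ω' h x)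
  | succ n ih =>
    intro ω ω' h x hx
    have e : 2 ^ (n + 1 + k + 2) = 2 * 2 ^ (n + k + 2) := by ring
    have e' : 2 ^ (n + k + 3) = 2 * 2 ^ (n + k + 2) := by ring
    have hs := h.shift
    rw [e] at hx ⊢
    rcases h.zero_or_one with h0 | h0
    · have h0' : ω' 0 = 0 := by rw [← h.ag 0 (by omega)]; exact h0
      rw [sect0 h0'] at hx
      rw [sect0 h0]
      exact ⟨ih _ _ hs _ hx.1, ih _ _ hs _ hx.2⟩
    · have h0' : ω' 0 = 1 := by rw [← h.ag 0 (by omega)]; exact h0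
      rw [sect1 h0'] at hx
      rw [sect1 h0]
      constructor
      · by_cases hv : ∃ l : ℕ, l < 2 ^ (n + k + 2) ∧ od x l = true
        · exact (P1_short hs.nc hs.nc' hs.ag _ _ _ hv (by omega)).2 hx.1
        · push Not at hv
          have hv' : ∀ l : ℕ, l < 2 ^ (n + k + 2) → od x l = false := fun l hl => by
            have := hv l hl
            simpa using this
          rw [P1_iff hv'] at hx ⊢
          exact ih _ _ hs _ hx.1
      · by_cases hv : ∃ l : ℕ, l < 2 ^ (n + k + 2) ∧ ev x l = true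
        · exact (P2_short hs.nc hs.nc' hs.ag _ _ _ hv (by omega)).2 hx.2
        · push Not at hv
          have hv' : ∀ l : ℕ, l < 2 ^ (n + k + 2) → ev x l = false := fun l hl => by
            have := hv l hl
            simpa using this
          rw [P2_iff hv'] at hx ⊢
          exact ih _ _ hs _ hx.2

/-- critical words -/
def CR (k n : ℕ) (ω ω' : ℕ → Fin 3) (x : ℤ → Bool) : Prop :=
  TB ω x (2 ^ (n + k + 2)) ∧ ¬ TB ω' x (2 ^ (n + k + 2))

/-- the dihedral condition -/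
def DD (ω : ℕ → Fin 3) (u : ℤ → Bool) (m : ℕ) : Prop :=
  pr (fun j => qd ω (u j) * gp ω 1) m = 1

lemma crit0 {k n : ℕ} {ω ω' : ℕ → Fin 3} (h : Good k (n + 1) ω ω') (h0 : ω 0 = 0)
    (x : ℤ → Bool) :
    CR k (n + 1) ω ω' x ↔
      (TB (sh ω) (ev x) (2 ^ (n + k + 2)) ∧ TB (sh ω) (od x) (2 ^ (n + k + 2))) ∧
      ¬ (TB (sh ω') (ev x) (2 ^ (n + k + 2)) ∧ TB (sh ω') (od x) (2 ^ (n + k + 2))) := by
  have h0' : ω' 0 = 0 := by rw [← h.ag 0 (by omega)]; exact h0
  unfold CR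
  rw [show 2 ^ (n + 1 + k + 2) = 2 * 2 ^ (n + k + 2) by ring, sect0 h0, sect0 h0']

lemma crit0' {k n : ℕ} {ω ω' : ℕ → Fin 3} (h : Good k (n + 1) ω ω') (h0 : ω 0 = 0)
    (x : ℤ → Bool) (hx : CR k (n + 1) ω ω' x) :
    CR k n (sh ω) (sh ω') (ev x) ∨ CR k n (sh ω) (sh ω') (od x) := by
  rw [crit0 h h0] at hx
  unfold CR
  tauto

lemma P2_false (ω : ℕ → Fin 3) {u v : ℤ → Bool} {m : ℕ} (hv : ∀ k : ℕ, k < m → v k = false) :
    P2 ω u v m ↔ DD ω u m := by
  unfold P2 DD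
  rw [pr_congr (F' := fun j => qd ω (u j) * gp ω 1)]
  intro k hk
  simp [hv k hk, lt]

lemma P1_false (ω : ℕ → Fin 3) {u v : ℤ → Bool} {m : ℕ} (hu : ∀ k : ℕ, k < m → u k = false) :
    P1 ω u v m ↔ DD ω v m := by
  unfold P1 DD
  rw [pr_conj_one, pr_congr (F' := fun j => gp ω 1 * qd ω (v j))]
  intro k hk
  simp [hu k hk, lt]

lemma crit1 {k n : ℕ} {ω ω' : ℕ → Fin 3} (h : Good k (n + 1) ω ω') (h0 : ω 0 = 1)
    (x : ℤ → Bool) (hx : CR k (n + 1) ω ω' x) :
    ((∀ l : ℕ, l < 2 ^ (n + k + 2) → od x l = false) ∧ CR k n (sh ω) (sh ω') (ev x) ∧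
      DD (sh ω) (ev x) (2 ^ (n + k + 2))) ∨
    ((∀ l : ℕ, l < 2 ^ (n + k + 2) → ev x l = false) ∧ CR k n (sh ω) (sh ω') (od x) ∧
      DD (sh ω) (od x) (2 ^ (n + k + 2))) := by
  have h0' : ω' 0 = 1 := by rw [← h.ag 0 (by omega)]; exact h0
  have hs := h.shift
  have e' : 2 ^ (n + k + 3) = 2 * 2 ^ (n + k + 2) := by ring
  unfold CR at hx
  rw [show 2 ^ (n + 1 + k + 2) = 2 * 2 ^ (n + k + 2) by ring, sect1 h0, sect1 h0'] at hx
  obtain ⟨⟨a1, a2⟩, hn⟩ := hx
  by_cases hv : ∃ l : ℕ, l < 2 ^ (n + k + 2) ∧ od x l = true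
  · by_cases hu : ∃ l : ℕ, l < 2 ^ (n + k + 2) ∧ ev x l = true
    · exfalso
      exact hn ⟨(P1_short hs.nc hs.nc' hs.ag _ _ _ hv (by omega)).1 a1,
        (P2_short hs.nc hs.nc' hs.ag _ _ _ hu (by omega)).1 a2⟩
    · right
      push Not at hu
      have hu' : ∀ l : ℕ, l < 2 ^ (n + k + 2) → ev x l = false := fun l hl => by
        have := hu l hl
        simpa using this
      have b1 := (P1_short hs.nc hs.nc' hs.ag (ev x) _ _ hv (by omega)).1 a1
      refine ⟨hu', ⟨(P2_iff hu').1 a2, fun hc => hn ⟨b1, (P2_iff hu').2 hc⟩⟩, ?_⟩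
      exact (P1_false _ hu').1 a1
  · push Not at hv
    have hv' : ∀ l : ℕ, l < 2 ^ (n + k + 2) → od x l = false := fun l hl => by
      have := hv l hl
      simpa using this
    by_cases hu : ∃ l : ℕ, l < 2 ^ (n + k + 2) ∧ ev x l = true
    · left
      have b2 := (P2_short hs.nc hs.nc' hs.ag _ (od x) _ hu (by omega)).1 a2
      refine ⟨hv', ⟨(P1_iff hv').1 a1, fun hc => hn ⟨(P1_iff hv').2 hc, b2⟩⟩, ?_⟩
      exact (P2_false _ hv').1 a2
    · push Not at hu
      have hu' : ∀ l : ℕ, l < 2 ^ (n + k + 2) → ev x l = false := fun l hl => by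
        have := hu l hl
        simpa using this
      by_cases hc : TB (sh ω') (ev x) (2 ^ (n + k + 2))
      · right
        refine ⟨hu', ⟨(P2_iff hu').1 a2, fun hc2 => hn ⟨(P1_iff hv').2 hc, (P2_iff hu').2 hc2⟩⟩, ?_⟩
        exact (P1_false _ hu').1 a1
      · left
        exact ⟨hv', ⟨(P1_iff hv').1 a1, hc⟩, (P2_false _ hv').1 a2⟩

lemma crit1_conv {k n : ℕ} {ω ω' : ℕ → Fin 3} (h : Good k (n + 1) ω ω') (h0 : ω 0 = 1)
    (x : ℤ → Bool)
    (hv' : ∀ l : ℕ, l < 2 ^ (n + k + 2) → od x l = false) (hc : CR k n (sh ω) (sh ω') (ev x))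
    (hd : DD (sh ω) (ev x) (2 ^ (n + k + 2))) : CR k (n + 1) ω ω' x := by
  have h0' : ω' 0 = 1 := by rw [← h.ag 0 (by omega)]; exact h0
  unfold CR
  rw [show 2 ^ (n + 1 + k + 2) = 2 * 2 ^ (n + k + 2) by ring, sect1 h0, sect1 h0']
  refine ⟨⟨(P1_iff hv').2 hc.1, (P2_false _ hv').2 hd⟩, fun hh => hc.2 ((P1_iff hv').1 hh.1)⟩

end Pool.Agent.H44Sp
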