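import Mathlib
import Pool.Agent.H44Sp.C

/-! Dihedral words and parity of critical words (helper file for MP_2e40ce_al) -/

namespace Pool.Agent.H44Sp

open Function

/-- the number of `true` among the first `N` values -/
def tr (u : ℤ → Bool) (N : ℕ) : ℕ := ∑ k ∈ Finset.range N, if u (k : ℤ) then 1 else 0

@[simp] lemma tr_zero (u : ℤ → Bool) : tr u 0 = 0 := rfl
lemma tr_succ (u : ℤ → Bool) (N : ℕ) : tr u (N + 1) = tr u N + (if u (N : ℤ) then 1 else 0) := by
  unfold tr; rw [Finset.sum_range_succ]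

lemma tr_double (u : ℤ → Bool) (m : ℕ) : tr u (2 * m) = tr (ev u) m + tr (od u) m := by
  induction m with
  | zero => rfl
  | succ m ih =>
    rw [show 2 * (m + 1) = 2 * m + 1 + 1 by ring, tr_succ, tr_succ, ih, tr_succ, tr_succ]
    have e1 : ev u (m : ℤ) = u ((2 * m : ℕ) : ℤ) := by unfold ev; push_cast; rfl
    have e2 : od u (m : ℤ) = u ((2 * m + 1 : ℕ) : ℤ) := by unfold od; push_cast; rfl
    rw [e1, e2]; ring

lemma tr_eq_zero {u : ℤ → Bool} {m : ℕ} (h : ∀ k : ℕ, k < m → u k = false) : tr u m = 0 := by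
  unfold tr
  apply Finset.sum_eq_zero
  intro k hk
  rw [h k (Finset.mem_range.1 hk)]; rfl

section dih
variable {G : Type*} [Group G] {a b : G}

lemma b_zpow (hb : b * b = 1) (ha : a * a = 1) (k : ℤ) : b * (a * b) ^ k = (a * b) ^ (-k) * b := by
  have hb' : b⁻¹ = b := inv_eq_of_mul_eq_one_left hb
  have ha' : a⁻¹ = a := inv_eq_of_mul_eq_one_left ha
  have h1 : b * (a * b) ^ k * b⁻¹ = (b * (a * b) * b⁻¹) ^ k := by rw [conj_zpow]
  have h2 : b * (a * b) * b⁻¹ = (a * b)⁻¹ := by
    rw [mul_inv_rev, ha', hb']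
    rw [mul_assoc, mul_assoc, hb, mul_one]
  rw [h2, inv_zpow, ← zpow_neg] at h1
  rw [← h1, hb', mul_assoc, mul_assoc, hb, mul_one]

lemma dinf1 (ha : a * a = 1) (hb : b * b = 1) (u : ℤ → Bool) (N : ℕ) :
    ∃ k : ℤ, pr (fun j => (if u j then 1 else a) * b) N =
      (a * b) ^ k * (if tr u N % 2 = 0 then 1 else b) := by
  induction N with
  | zero => exact ⟨0, by simp⟩
  | succ N ih =>
    obtain ⟨k, hk⟩ := ih
    rw [pr_succ, hk, tr_succ]
    cases hu : u (N : ℤ)
    · simp only [Bool.false_eq_true, if_false, add_zero]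
      by_cases hp : tr u N % 2 = 0
      · rw [if_pos hp, mul_one]
        exact ⟨k + 1, by rw [zpow_add_one, mul_one]⟩
      · rw [if_neg hp]
        refine ⟨k - 1, ?_⟩
        have := b_zpow (k := 1) hb ha
        rw [zpow_one] at this
        rw [mul_assoc, this, ← mul_assoc, ← zpow_add]
        rfl
    · simp only [if_true, one_mul]
      by_cases hp : tr u N % 2 = 0
      · rw [if_pos hp, if_neg (by omega), mul_one]
        exact ⟨k, rfl⟩
      · rw [if_neg hp, if_pos (by omega), mul_assoc, hb]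
        exact ⟨k, rfl⟩

lemma dinf_odd (ha : a * a = 1) (hb : b * b = 1) (u : ℤ → Bool) (h : ℕ)
    (hu : Periodic u (h : ℤ)) (ho : tr u h % 2 = 1) (c : ℕ) :
    pr (fun j => (if u j then 1 else a) * b) (2 * c * h) = 1 := by
  have hF : Periodic (fun j => (if u j then 1 else a) * b) (h : ℤ) := by
    intro j
    show (if u (j + h) then 1 else a) * b = _
    rw [hu]
  rw [pr_pow hF]
  obtain ⟨k, hk⟩ := dinf1 ha hb u h
  rw [hk, if_neg (by omega)]
  have h2 : ((a * b) ^ k * b) * ((a * b) ^ k * b) = 1 := by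
    rw [mul_assoc, ← mul_assoc b, b_zpow hb ha, mul_assoc, hb, mul_one, ← zpow_add, add_neg_cancel,
      zpow_zero]
  rw [pow_mul, pow_two ((a * b) ^ k * b), h2, one_pow]

lemma dinf2 (ha : a * a = 1) (hb : b * b = 1) (u : ℤ → Bool) (m : ℕ) :
    ∃ k q : ℤ, pr (fun j => (if u j then 1 else a) * b) (2 * m) =
      (a * b) ^ k * (if (tr (ev u) m + tr (od u) m) % 2 = 0 then 1 else b) ∧
      k = 2 * m + 2 * (tr (ev u) m : ℤ) - (((tr (ev u) m + tr (od u) m) % 2 : ℕ) : ℤ) + 4 * q := by
  induction m with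
  | zero => exact ⟨0, 0, by simp⟩
  | succ m ih =>
    obtain ⟨k, q, hk, hq⟩ := ih
    rw [show 2 * (m + 1) = 2 * m + 1 + 1 by ring, pr_succ, pr_succ, hk, tr_succ, tr_succ]
    have e1 : ev u (m : ℤ) = u ((2 * m : ℕ) : ℤ) := by unfold ev; push_cast; rfl
    have e2 : od u (m : ℤ) = u ((2 * m + 1 : ℕ) : ℤ) := by unfold od; push_cast; rfl
    rw [e1, e2]
    have hbt := b_zpow (k := 1) hb ha
    rw [zpow_one] at hbt
    generalize tr (ev u) m = A at *
    generalize tr (od u) m = B at *
    cases hx : u ((2 * m : ℕ) : ℤ) <;> cases hy : u ((2 * m + 1 : ℕ) : ℤ) <;>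
      simp only [Bool.false_eq_true, if_false, if_true, add_zero, one_mul]
    · -- false false
      by_cases hp : (A + B) % 2 = 0
      · rw [if_pos hp, mul_one]
        refine ⟨k + 2, q, ?_, ?_⟩
        · rw [zpow_add, mul_one, mul_assoc]
          congr 1
          exact (zpow_two _).symm
        · push_cast; omega
      · rw [if_neg hp]
        refine ⟨k - 2, q - 1, ?_, ?_⟩
        · rw [mul_assoc, mul_assoc, ← mul_assoc b (a * b) (a * b), hbt, mul_assoc _ b, hbt,
            ← mul_assoc, ← mul_assoc, ← zpow_add, ← zpow_add]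
          congr 2; ring
        · push_cast; omega
    · -- false true
      by_cases hp : (A + B) % 2 = 0
      · rw [if_pos hp, if_neg (by omega), mul_one]
        refine ⟨k + 1, q, ?_, ?_⟩
        · rw [zpow_add, zpow_one]
        · push_cast; omega
      · rw [if_neg hp, if_pos (by omega)]
        refine ⟨k - 1, q - 1, ?_, ?_⟩
        · rw [mul_assoc, mul_assoc, ← mul_assoc b (a * b) b, hbt, mul_assoc _ b b, hb, mul_one,
            mul_one, ← zpow_add]
          rfl
        · push_cast; omega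
    · -- true false
      by_cases hp : (A + B) % 2 = 0
      · rw [if_pos hp, if_neg (by omega), mul_one]
        refine ⟨k - 1, q - 1, ?_, ?_⟩
        · rw [mul_assoc, hbt, ← mul_assoc, ← zpow_add]; rfl
        · push_cast; omega
      · rw [if_neg hp, if_pos (by omega)]
        refine ⟨k + 1, q - 1, ?_, ?_⟩
        · rw [mul_assoc ((a * b) ^ k) b b, hb, mul_one, mul_one, zpow_add, zpow_one]
        · push_cast; omega
    · -- true true
      by_cases hp : (A + B) % 2 = 0
      · rw [if_pos hp, if_pos (by omega), mul_one]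
        refine ⟨k, q - 1, ?_, ?_⟩
        · rw [mul_assoc, hb]
        · push_cast; omega
      · rw [if_neg hp, if_neg (by omega)]
        refine ⟨k, q - 1, ?_, ?_⟩
        · rw [mul_assoc ((a * b) ^ k) b b, hb, mul_one]
        · push_cast; omega

end dih

lemma pr_const {G : Type*} [Group G] (g : G) (N : ℕ) : pr (fun _ => g) N = g ^ N := by
  induction N with
  | zero => simp
  | succ N ih => rw [pr_succ, ih, pow_succ]

lemma tau_ne : ∀ (N : ℕ), 0 < N → ∀ ω : ℕ → Fin 3, (∀ i, ω i ≠ 2) →
    (gp ω 0 * gp ω 1) ^ N ≠ 1 := by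
  intro N
  induction N using Nat.strong_induction_on with
  | _ N ih =>
    intro hN ω h2 h1
    rw [← pr_const] at h1
    rcases Nat.even_or_odd' N with ⟨M, rfl | rfl⟩
    · have h3 : TT ω (fun _ => 1) (2 * M) := h1
      rw [TT_section (fun _ => by decide)] at h3
      have h4 := h3.2
      have h5 : pg (sh ω) (ω 0) 1 = gp (sh ω) 0 := by
        apply pg_cons
        have := h2 0
        intro h6
        exact this (Fin.ext h6)
      rw [h5, pr_const] at h4
      exact ih M (by omega) (by omega) (sh ω) (fun i => h2 (i + 1)) h4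
    · have h3 : pr (fun _ : ℤ => gp ω 0 * gp ω 1) (2 * M + 1) =
          W ω (bl (fun _ => [0, 1]) (2 * M + 1)) := by
        rw [← pr_W]
        simp
      rw [h3] at h1
      apply W_ne_one_of_odd ω _ _ h1
      have : ∀ m : ℕ, (bl (fun _ => ([0, 1] : List (Fin 4))) m).count 0 = m := by
        intro m
        induction m with
        | zero => rfl
        | succ m ih => rw [bl_succ, List.count_append, ih]; rfl
      rw [this]; omega

lemma DD_odd (ω : ℕ → Fin 3) (u : ℤ → Bool) (h : ℕ) (hu : Periodic u (h : ℤ))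
    (ho : tr u h % 2 = 1) (c : ℕ) : DD ω u (2 * c * h) :=
  dinf_odd (gp_sq ω 0) (gp_sq ω 1) u h hu ho c

lemma DD_even {ω : ℕ → Fin 3} (h2 : ∀ i, ω i ≠ 2) (u : ℤ → Bool) (m : ℕ)
    (hu : Periodic u ((2 * m : ℕ) : ℤ)) (hm : m % 2 = 0)
    (he : tr u (2 * m) % 2 = 0) (ho : tr (ev u) m % 2 = 1) (c : ℕ) (hc : 0 < c) :
    ¬ DD ω u (c * (2 * m)) := by
  intro hd
  unfold DD at hd
  have hF : Periodic (fun j => qd ω (u j) * gp ω 1) ((2 * m : ℕ) : ℤ) := by
    intro j
    show qd ω (u (j + _)) * gp ω 1 = _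
    rw [hu]
  rw [pr_pow hF] at hd
  obtain ⟨k, q, hk, hq⟩ := dinf2 (gp_sq ω 0) (gp_sq ω 1) u m
  rw [tr_double] at he
  rw [if_pos he, mul_one] at hk
  have hd' : ((gp ω 0 * gp ω 1) ^ k) ^ c = 1 := by rw [← hk]; exact hd
  rw [← zpow_natCast, ← zpow_mul] at hd'
  rw [he] at hq
  have hk0 : k ≠ 0 := by
    rw [hq]; push_cast; omega
  have hne : (k * ((c : ℕ) : ℤ)).natAbs ≠ 0 := by
    rw [Int.natAbs_ne_zero]
    exact mul_ne_zero hk0 (by omega)
  apply tau_ne _ (Nat.pos_of_ne_zero hne) ω h2
  rcases Int.natAbs_eq (k * ((c : ℕ) : ℤ)) with h | h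
  · rw [h, zpow_natCast] at hd'
    exact hd'
  · rw [h, zpow_neg, zpow_natCast, inv_eq_one] at hd'
    exact hd'

/-- critical words have full period -/
lemma min_period (k n : ℕ) : ∀ (ω ω' : ℕ → Fin 3), Good k (n + 1) ω ω' → ∀ x : ℤ → Bool,
    Periodic x ((2 ^ n : ℕ) : ℤ) → ¬ CR k (n + 1) ω ω' x := by
  induction n with
  | zero =>
    intro ω ω' h x hx hc
    have h1 : ω 0 = 1 := h.last 0 rfl
    have hx' : ∀ i j, x i = x j := by
      intro i j
      have key : ∀ i, x i = x 0 := by
        intro i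
        rw [per_emod hx i]
        simp
      rw [key i, key j]
    rcases crit1 h h1 x hc with ⟨a, b, -⟩ | ⟨a, b, -⟩
    · have hb := b.1
      rw [show 0 + k + 2 = k + 2 by ring] at hb
      have h3 := base_true k _ _ h.shift _ hb
      have h4 := a 0 (by positivity)
      unfold ev at h3
      unfold od at h4
      rw [hx' _ 0] at h3 h4
      rw [h3] at h4; exact absurd h4 (by decide)
    · have hb := b.1
      rw [show 0 + k + 2 = k + 2 by ring] at hb
      have h3 := base_true k _ _ h.shift _ hb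
      have h4 := a 0 (by positivity)
      unfold od at h3
      unfold ev at h4
      rw [hx' _ 0] at h3 h4
      rw [h3] at h4; exact absurd h4 (by decide)
  | succ n ih =>
    intro ω ω' h x hx hc
    rw [show 2 ^ (n + 1) = 2 * 2 ^ n by ring, per_ev_od] at hx
    rcases h.zero_or_one with h0 | h0
    · rcases crit0' h h0 x hc with a | a
      · exact ih _ _ h.shift _ hx.1 a
      · exact ih _ _ h.shift _ hx.2 a
    · rcases crit1 h h0 x hc with ⟨-, a, -⟩ | ⟨-, a, -⟩
      · exact ih _ _ h.shift _ hx.1 a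
      · exact ih _ _ h.shift _ hx.2 a

/-- parity of the number of `true` in critical words -/
lemma parity (k n : ℕ) : ∀ (ω ω' : ℕ → Fin 3), Good k n ω ω' → ∀ x : ℤ → Bool,
    Periodic x ((2 ^ n : ℕ) : ℤ) → CR k n ω ω' x →
    ((ω 0 = 1 ∨ n = 0) → tr x (2 ^ n) % 2 = 1) ∧
    (∀ m, n = m + 1 → ω 0 = 0 → tr x (2 ^ n) % 2 = 0 → tr (ev x) (2 ^ m) % 2 = 1) := by
  induction n with
  | zero =>
    intro ω ω' h x hx hc
    refine ⟨fun _ => ?_, fun m hm => by omega⟩
    have hb := hc.1
    rw [show 0 + k + 2 = k + 2 by ring] at hb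
    have h3 := base_true k _ _ h _ hb
    rw [pow_zero, show (1 : ℕ) = 0 + 1 by norm_num, tr_succ]
    simp [h3]
  | succ n ih =>
    intro ω ω' h x hx hc
    have hx0 := hx
    rw [show 2 ^ (n + 1) = 2 * 2 ^ n by ring, per_ev_od] at hx
    have hs := h.shift
    have e2 : 2 ^ (n + 1) = 2 * 2 ^ n := by ring
    have e4 : 2 ^ (n + k + 2) = 2 ^ (k + 2) * 2 ^ n := by ring
    have hlt : 2 ^ n ≤ 2 ^ (n + k + 2) := Nat.pow_le_pow_right (by norm_num) (by omega)
    constructor
    · intro h0
      have h0 : ω 0 = 1 := h0.resolve_right (by omega)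
      have key : ∀ u : ℤ → Bool, Periodic u ((2 ^ n : ℕ) : ℤ) → CR k n (sh ω) (sh ω') u →
          DD (sh ω) u (2 ^ (n + k + 2)) → tr u (2 ^ n) % 2 = 1 := by
        intro u hu hcu hd
        by_contra hodd
        have he : tr u (2 ^ n) % 2 = 0 := by omega
        obtain ⟨k1, k2⟩ := ih _ _ hs u hu hcu
        rcases n with _ | m
        · exact hodd (k1 (Or.inr rfl))
        · rcases hs.zero_or_one with z | z
          · -- the shifted sequence starts with 0
            have k3 := k2 m rfl z he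
            rcases m with _ | l
            · have := hs.last 0 rfl
              rw [z] at this; exact absurd this (by decide)
            · have e5 : 2 ^ (l + 1 + 1) = 2 * 2 ^ (l + 1) := by ring
              rw [e4, e5] at hd
              rw [e5] at hu he
              exact DD_even hs.two u (2 ^ (l + 1)) hu (by rw [pow_succ]; omega) he k3 _
                (by positivity) hd
          · have := k1 (Or.inl z); omega
      rw [e2, tr_double]
      rcases crit1 h h0 x hc with ⟨a, b, c⟩ | ⟨a, b, c⟩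
      · have := key _ hx.1 b c
        rw [tr_eq_zero (u := od x) (fun k hk => a k (by omega))]
        omega
      · have := key _ hx.2 b c
        rw [tr_eq_zero (u := ev x) (fun k hk => a k (by omega))]
        omega
    · intro m hm h0 he
      obtain rfl : n = m := by omega
      have h1 : sh ω 0 = 1 := h.no00 0 (by omega) h0
      rw [e2, tr_double] at he
      rcases crit0' h h0 x hc with a | a
      · exact (ih _ _ hs _ hx.1 a).1 (Or.inl h1)
      · have := (ih _ _ hs _ hx.2 a).1 (Or.inl h1)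
        omega

end Pool.Agent.H44Sp
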