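import Mathlib
import Pool.Agent.H44Sp.D

/-! Counting critical two-letter words (helper file for MP_2e40ce_al) -/

namespace Pool.Agent.H44Sp

open Function

lemma per_pow {α : Type*} {x : ℤ → α} {k n : ℕ} (hx : Periodic x ((2 ^ k : ℕ) : ℤ)) (h : k ≤ n) :
    Periodic x ((2 ^ n : ℕ) : ℤ) := by
  have := hx.nat_mul (2 ^ (n - k))
  have e : ((2 ^ (n - k) : ℕ) : ℤ) * ((2 ^ k : ℕ) : ℤ) = ((2 ^ n : ℕ) : ℤ) := by
    rw [← Nat.cast_mul, ← pow_add]
    congr 2; omega
  rwa [e] at this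

lemma TB_shift {ω : ℕ → Fin 3} {x : ℤ → Bool} {m : ℕ} (hx : Periodic x (m : ℤ)) (t : ℕ) :
    TB ω (fun i => x (i + t)) m ↔ TB ω x m := by
  unfold TB TT
  apply pr_shift (F := fun j => gp ω 0 * gp ω (lt (x j)))
  intro j
  show gp ω 0 * gp ω (lt (x (j + m))) = _
  rw [hx]

lemma TB_reflect {ω : ℕ → Fin 3} {x : ℤ → Bool} {m : ℕ} (hx : Periodic x (m : ℤ)) :
    TB ω (fun i => x (-i)) m ↔ TB ω x m := by
  unfold TB TT
  apply pr_reflect (p := fun j => gp ω (lt (x j)))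
  · intro j
    show gp ω (lt (x (j + m))) = _
    rw [hx]
  · intro j; exact gp_inv ω _
  · exact gp_inv ω 0

lemma CR_shift {k n : ℕ} {ω ω' : ℕ → Fin 3} {x : ℤ → Bool}
    (hx : Periodic x ((2 ^ (n + k + 2) : ℕ) : ℤ)) (t : ℕ) :
    CR k n ω ω' (fun i => x (i + t)) ↔ CR k n ω ω' x := by
  unfold CR
  rw [TB_shift hx, TB_shift hx]

lemma CR_reflect {k n : ℕ} {ω ω' : ℕ → Fin 3} {x : ℤ → Bool}
    (hx : Periodic x ((2 ^ (n + k + 2) : ℕ) : ℤ)) :
    CR k n ω ω' (fun i => x (-i)) ↔ CR k n ω ω' x := by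
  unfold CR
  rw [TB_reflect hx, TB_reflect hx]

lemma gp_pow_even (ω : ℕ → Fin 3) (s : Fin 4) (m : ℕ) : gp ω s ^ (2 * m) = 1 := by
  rw [pow_mul, pow_two, gp_sq, one_pow]

lemma ord_one (n : ℕ) : ∀ ω : ℕ → Fin 3, (∀ i, ω i ≠ 2) → (∃ i ≤ n, ω i = 1) →
    TB ω (fun _ => true) (2 ^ (n + 2)) := by
  induction n with
  | zero =>
    intro ω h2 ⟨i, hi, h1⟩
    obtain rfl : i = 0 := by omega
    rw [show 2 ^ (0 + 2) = 2 * (2 * 1) by norm_num, sect1 h1]
    constructor
    · unfold P1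
      show pr (fun _ => gp (sh ω) 2 * 1) (2 * 1) = 1
      rw [pr_const, mul_one, gp_pow_even]
    · unfold P2
      show pr (fun _ => 1 * gp (sh ω) 2) (2 * 1) = 1
      rw [pr_const, one_mul, gp_pow_even]
  | succ n ih =>
    intro ω h2 ⟨i, hi, h1⟩
    have e : 2 ^ (n + 1 + 2) = 2 * 2 ^ (n + 2) := by ring
    have e' : 2 ^ (n + 2) = 2 * 2 ^ (n + 1) := by ring
    have h0 : ω 0 = 0 ∨ ω 0 = 1 := by
      have := h2 0
      generalize ω 0 = z at this
      revert z; decide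
    rw [e]
    rcases h0 with h0 | h0
    · rw [sect0 h0]
      have hi0 : i ≠ 0 := by
        rintro rfl
        rw [h0] at h1; exact absurd h1 (by decide)
      obtain ⟨j, rfl⟩ : ∃ j, i = j + 1 := ⟨i - 1, by omega⟩
      have := ih (sh ω) (fun i => h2 (i + 1)) ⟨j, by omega, h1⟩
      exact ⟨this, this⟩
    · rw [sect1 h0, e']
      constructor
      · unfold P1
        show pr (fun _ => gp (sh ω) 2 * 1) _ = 1
        rw [pr_const, mul_one, gp_pow_even]
      · unfold P2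
        show pr (fun _ => 1 * gp (sh ω) 2) _ = 1
        rw [pr_const, one_mul, gp_pow_even]

lemma const_of_per_one {α : Type*} {x : ℤ → α} (hx : Periodic x ((2 ^ 0 : ℕ) : ℤ)) :
    x = fun _ => x 0 := by
  funext i
  have := per_emod hx i
  simpa using this

lemma TB_false {ω : ℕ → Fin 3} (h2 : ∀ i, ω i ≠ 2) (m : ℕ) (hm : 0 < m) :
    ¬ TB ω (fun _ => false) m := by
  intro h
  unfold TB TT at h
  have : pr (fun _ : ℤ => gp ω 0 * gp ω (lt false)) m = (gp ω 0 * gp ω 1) ^ m := pr_const _ _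
  rw [this] at h
  exact tau_ne m hm ω h2 h

/-- odd counts -/
lemma odd_count {k n : ℕ} {ω ω' : ℕ → Fin 3} (h : Good k (n + 1) ω ω') (S : (ℤ → Bool) → Prop)
    (hS : ∀ j x, Periodic x ((2 ^ (j + 1) : ℕ) : ℤ) → S x → S (fun i => x (i + (2 ^ j : ℕ))))
    (hS1 : S (fun _ => true)) : ∀ j, j ≤ n + 1 + k + 2 →
    nc (fun x => S x ∧ TB ω' x (2 ^ (n + 1 + k + 2))) (2 ^ j) % 2 = 1 := by
  intro j
  induction j with
  | zero =>
    intro _
    have : nc (fun x => S x ∧ TB ω' x (2 ^ (n + 1 + k + 2))) (2 ^ 0) = 1 := by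
      unfold nc
      rw [Nat.card_eq_one_iff_unique]
      have key : ∀ y : {x : ℤ → Bool // Periodic x ((2 ^ 0 : ℕ) : ℤ) ∧ S x ∧
          TB ω' x (2 ^ (n + 1 + k + 2))}, y.1 = fun _ => true := by
        rintro ⟨y, hy, _, ht⟩
        have hc := const_of_per_one hy
        show y = _
        cases h0 : y 0
        · exfalso
          rw [h0] at hc
          rw [hc] at ht
          exact TB_false h.two' _ (by positivity) ht
        · rw [h0] at hc; exact hc
      refine ⟨⟨fun a b => Subtype.ext (by rw [key a, key b])⟩, ⟨⟨fun _ => true, fun _ => rfl, hS1, ?_⟩⟩⟩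
      apply ord_one (n + 1 + k) ω' h.two'
      refine ⟨n, by omega, ?_⟩
      rw [← h.ag n (by omega)]
      exact h.last n rfl
    rw [this]
  | succ j ih =>
    intro hk
    have := nc_step (fun x => S x ∧ TB ω' x (2 ^ (n + 1 + k + 2))) (2 ^ j) 0 (by positivity) (by
      intro x hx ⟨h1, h2⟩
      have hx' : Periodic x ((2 ^ (j + 1) : ℕ) : ℤ) := by
        rw [show 2 ^ (j + 1) = 2 ^ j * 2 ^ (0 + 1) by ring]; exact hx
      exact ⟨hS j x hx' h1, (TB_shift (per_pow hx' (by omega)) _).2 h2⟩)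
    rw [show 2 ^ j * 2 ^ (0 + 1) = 2 ^ (j + 1) by ring, show 2 ^ j * 2 ^ 0 = 2 ^ j by ring] at this
    have h3 : nc (fun x => S x ∧ TB ω' x (2 ^ (n + 1 + k + 2))) (2 ^ (j + 1)) % 2 =
      nc (fun x => S x ∧ TB ω' x (2 ^ (n + 1 + k + 2))) (2 ^ j) % 2 := this
    rw [h3]
    exact ih (by omega)

/-- symmetric sequences, first kind -/
def SO (n : ℕ) (x : ℤ → Bool) : Prop :=
  x 0 = true ∧ x ((2 ^ n : ℕ) : ℤ) = false ∧ ∀ i, x (-i) = x i
/-- symmetric sequences, second kind -/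
def S2 (x : ℤ → Bool) : Prop := ∀ i, x (-1 - i) = x i

lemma S2_shift (k : ℕ) (x : ℤ → Bool) (hx : Periodic x ((2 ^ (k + 1) : ℕ) : ℤ)) (h : S2 x) :
    S2 (fun i => x (i + (2 ^ k : ℕ))) := by
  intro i
  show x (-1 - i + (2 ^ k : ℕ)) = x (i + (2 ^ k : ℕ))
  have e1 : x (-1 - i + (2 ^ k : ℕ)) = x (-1 - (i - (2 ^ k : ℕ))) := by congr 1; ring
  rw [e1, h, ← hx (i - (2 ^ k : ℕ))]
  congr 1; push_cast; ring

lemma SO_iff (n : ℕ) (x : ℤ → Bool) : SO (n + 1) x ↔ SO n (ev x) ∧ S2 (od x) := by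
  unfold SO S2 ev od
  have e : (2 : ℤ) * ((2 ^ n : ℕ) : ℤ) = ((2 ^ (n + 1) : ℕ) : ℤ) := by push_cast; ring
  rw [e, mul_zero]
  constructor
  · rintro ⟨h1, h2, h3⟩
    refine ⟨⟨h1, h2, fun i => ?_⟩, fun i => ?_⟩
    · rw [← h3 (2 * i)]; congr 1; ring
    · rw [← h3 (2 * i + 1)]; congr 1; ring
  · rintro ⟨⟨h1, h2, h3⟩, h4⟩
    refine ⟨h1, h2, fun i => ?_⟩
    rcases Int.emod_two_eq_zero_or_one i with hi | hi
    · have := h3 (i / 2)
      rw [show 2 * (i / 2) = i by omega, show 2 * -(i / 2) = -i by omega] at this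
      exact this
    · have := h4 (i / 2)
      rw [show 2 * (i / 2) + 1 = i by omega, show 2 * (-1 - i / 2) + 1 = -i by omega] at this
      exact this

lemma nc_prod {α : Type*} (Q A B : (ℤ → α) → Prop) (h : ℕ)
    (hQ : ∀ x, Q x ↔ A (ev x) ∧ B (od x)) : nc Q (2 * h) = nc A h * nc B h := by
  unfold nc
  rw [← Nat.card_prod]
  apply Nat.card_congr
  refine ⟨fun x => (⟨ev x.1, ((per_ev_od x.1 h).1 x.2.1).1, ((hQ x.1).1 x.2.2).1⟩,
      ⟨od x.1, ((per_ev_od x.1 h).1 x.2.1).2, ((hQ x.1).1 x.2.2).2⟩),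
    fun p => ⟨il p.1.1 p.2.1, ?_, ?_⟩, ?_, ?_⟩
  · rw [per_ev_od, ev_il, od_il]; exact ⟨p.1.2.1, p.2.2.1⟩
  · rw [hQ, ev_il, od_il]; exact ⟨p.1.2.2, p.2.2.2⟩
  · intro x
    apply Subtype.ext
    exact il_ev_od x.1
  · rintro ⟨u, v⟩
    apply Prod.ext
    · apply Subtype.ext; exact ev_il _ _
    · apply Subtype.ext; exact od_il _ _

lemma nc_split_CR {k n : ℕ} {ω ω' : ℕ → Fin 3} (h : Good k n ω ω') (S : (ℤ → Bool) → Prop)
    {t : ℕ} (ht : 0 < t) :
    nc (fun x => S x ∧ TB ω x (2 ^ (n + k + 2))) t =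
      nc (fun x => S x ∧ CR k n ω ω' x) t + nc (fun x => S x ∧ TB ω' x (2 ^ (n + k + 2))) t := by
  have hf := finite_per (fun x => S x ∧ TB ω x (2 ^ (n + k + 2))) ht
  unfold nc
  rw [card_split (X := {x : ℤ → Bool // Periodic x (t : ℤ) ∧ S x ∧ TB ω x (2 ^ (n + k + 2))})
    (fun x => ¬ TB ω' x.1 (2 ^ (n + k + 2)))]
  congr 1
  · apply Nat.card_congr
    refine ⟨fun x => ⟨x.1.1, x.1.2.1, x.1.2.2.1, x.1.2.2.2, x.2⟩,
      fun x => ⟨⟨x.1, x.2.1, x.2.2.1, x.2.2.2.1⟩, x.2.2.2.2⟩, fun x => rfl, fun x => rfl⟩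
  · apply Nat.card_congr
    refine ⟨fun x => ⟨x.1.1, x.1.2.1, x.1.2.2.1, not_not.1 x.2⟩,
      fun x => ⟨⟨x.1, x.2.1, x.2.2.1, TB_mono k n _ _ h _ x.2.2.2⟩, not_not.2 x.2.2.2⟩,
      fun x => rfl, fun x => rfl⟩

lemma nc_S2_CR_even {k n : ℕ} {ω ω' : ℕ → Fin 3} (h : Good k (n + 1) ω ω') :
    nc (fun x => S2 x ∧ CR k (n + 1) ω ω' x) (2 ^ (n + 1)) % 2 = 0 := by
  have := nc_step (fun x => S2 x ∧ CR k (n + 1) ω ω' x) (2 ^ n) 0 (by positivity) (by
    intro x hx ⟨h1, h2⟩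
    have hx' : Periodic x ((2 ^ (n + 1) : ℕ) : ℤ) := by
      rw [show 2 ^ (n + 1) = 2 ^ n * 2 ^ (0 + 1) by ring]; exact hx
    exact ⟨S2_shift n x hx' h1, (CR_shift (per_pow hx' (by omega)) _).2 h2⟩)
  rw [show 2 ^ n * 2 ^ (0 + 1) = 2 ^ (n + 1) by ring, show 2 ^ n * 2 ^ 0 = 2 ^ n by ring] at this
  have h0 : nc (fun x => S2 x ∧ CR k (n + 1) ω ω' x) (2 ^ n) = 0 := by
    unfold nc
    rw [Nat.card_eq_zero]
    left
    exact ⟨fun x => min_period k n ω ω' h x.1 x.2.1 x.2.2.2⟩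
  rw [h0] at this
  exact this

lemma tr_sym {u : ℤ → Bool} {m : ℕ} (hu : Periodic u ((2 * (m + 1) : ℕ) : ℤ))
    (hs : ∀ i, u (-i) = u i) (h0 : u 0 = true) (h1 : u ((m + 1 : ℕ) : ℤ) = false) :
    tr u (2 * (m + 1)) % 2 = 1 := by
  unfold tr
  rw [two_mul, Finset.sum_range_add, Finset.sum_range_succ', Finset.sum_range_succ']
  have e : ∑ k ∈ Finset.range m, (if u (((m + 1 + (k + 1) : ℕ)) : ℤ) then 1 else 0) =
      ∑ k ∈ Finset.range m, (if u ((k + 1 : ℕ) : ℤ) then 1 else 0) := by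
    rw [← Finset.sum_range_reflect]
    apply Finset.sum_congr rfl
    intro k hk
    have hk := Finset.mem_range.1 hk
    have : u (((m + 1 + (m - 1 - k + 1) : ℕ)) : ℤ) = u ((k + 1 : ℕ) : ℤ) := by
      rw [← hs ((k + 1 : ℕ) : ℤ), ← hu (-((k + 1 : ℕ) : ℤ))]
      congr 1
      omega
    rw [this]
  rw [e]
  have e0 : u ((0 : ℕ) : ℤ) = true := by simpa using h0
  have e1 : u ((m + 1 + 0 : ℕ) : ℤ) = false := by simpa using h1
  rw [e0, e1]
  simp only [if_true, Bool.false_eq_true, if_false]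
  omega

lemma SO_tr_odd (n : ℕ) (y : ℤ → Bool) (hy : Periodic y ((2 ^ (n + 1) : ℕ) : ℤ)) (hso : SO n y) :
    tr y (2 ^ (n + 1)) % 2 = 1 := by
  obtain ⟨m, hm⟩ : ∃ m, 2 ^ n = m + 1 := ⟨2 ^ n - 1, by
    have : 0 < 2 ^ n := by positivity
    omega⟩
  have g4 : 2 ^ (n + 1) = 2 * (m + 1) := by rw [← hm]; ring
  rw [g4] at hy ⊢
  unfold SO at hso
  rw [hm] at hso
  exact tr_sym hy hso.2.2 hso.1 hso.2.1

/-- the number of symmetric critical words is odd -/
lemma odd_sym (k n : ℕ) : ∀ (ω ω' : ℕ → Fin 3), Good k (n + 1) ω ω' →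
    nc (fun x => SO n x ∧ CR k (n + 1) ω ω' x) (2 ^ (n + 1)) % 2 = 1 := by
  induction n with
  | zero =>
    intro ω ω' h
    have hω0 : ω 0 = 1 := h.last 0 rfl
    have : nc (fun x => SO 0 x ∧ CR k (0 + 1) ω ω' x) (2 ^ (0 + 1)) = 1 := by
      unfold nc
      rw [Nat.card_eq_one_iff_unique]
      have key : ∀ y : {x : ℤ → Bool // Periodic x ((2 ^ (0 + 1) : ℕ) : ℤ) ∧ SO 0 x ∧
          CR k (0 + 1) ω ω' x}, y.1 = fun i => decide (i % 2 = 0) := by
        rintro ⟨y, hy, ⟨h1, h2, h3⟩, ht⟩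
        funext i
        show y i = _
        rw [per_emod hy i]
        rcases Int.emod_two_eq_zero_or_one i with hi | hi
        · rw [hi]; simp [hi, h1]
        · simp [hi]
          simpa using h2
      refine ⟨⟨fun a b => Subtype.ext (by rw [key a, key b])⟩,
        ⟨⟨fun i => decide (i % 2 = 0), ?_, ⟨by simp, by simp, ?_⟩, ?_⟩⟩⟩
      · intro i
        simp
      · intro i
        simp
      · apply crit1_conv h hω0
        · intro k _
          unfold od
          have : (2 * (k : ℤ) + 1) % 2 = 1 := by omega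
          simp [this]
        · have e : ev (fun i : ℤ => decide (i % 2 = 0)) = fun _ => true := by
            funext i
            unfold ev
            have : (2 * i) % 2 = 0 := by omega
            simp [this]
          rw [e]
          unfold CR
          rw [show 0 + k + 2 = k + 2 by ring]
          refine ⟨ord_one k _ h.shift.two ⟨k, le_rfl, ?_⟩, base_false k _ _ h.shift _⟩
          have := h.shift.h1
          rwa [zero_add] at this
        · have e : ev (fun i : ℤ => decide (i % 2 = 0)) = fun _ => true := by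
            funext i
            unfold ev
            have : (2 * i) % 2 = 0 := by omega
            simp [this]
          rw [e]
          have := DD_odd (sh ω) (fun _ => true) 1 (fun _ => rfl) (by simp [tr]) (2 ^ (k + 1))
          rw [show 2 ^ (0 + k + 2) = 2 * 2 ^ (k + 1) * 1 by ring]
          exact this
    rw [this]
  | succ n ih =>
    intro ω ω' h
    have hs := h.shift
    have e1 : 2 ^ (n + 1 + 1) = 2 * 2 ^ (n + 1) := by ring
    rcases h.zero_or_one with h0 | h0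
    · -- the sequences start with 0
      have h0' : ω' 0 = 0 := by rw [← h.ag 0 (by omega)]; exact h0
      have hp : ∀ ω : ℕ → Fin 3, ω 0 = 0 →
          nc (fun x => SO (n + 1) x ∧ TB ω x (2 ^ (n + 1 + 1 + k + 2))) (2 ^ (n + 1 + 1)) =
          nc (fun x => SO n x ∧ TB (sh ω) x (2 ^ (n + 1 + k + 2))) (2 ^ (n + 1)) *
          nc (fun x => S2 x ∧ TB (sh ω) x (2 ^ (n + 1 + k + 2))) (2 ^ (n + 1)) := by
        intro ω h0
        rw [e1]
        apply nc_prod
        intro x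
        rw [SO_iff, show 2 ^ (n + 1 + 1 + k + 2) = 2 * 2 ^ (n + 1 + k + 2) by ring, sect0 h0]
        tauto
      have a1 := nc_split_CR h (SO (n + 1)) (t := 2 ^ (n + 1 + 1)) (by positivity)
      rw [hp ω h0, hp ω' h0'] at a1
      have a2 := nc_split_CR hs (SO n) (t := 2 ^ (n + 1)) (by positivity)
      have a3 := nc_split_CR hs S2 (t := 2 ^ (n + 1)) (by positivity)
      have a4 := ih _ _ hs
      have a5 := nc_S2_CR_even hs
      have a6 := odd_count hs S2 S2_shift (fun _ => rfl) (n + 1) (by omega)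
      rw [a2, a3] at a1
      generalize nc (fun x => SO (n + 1) x ∧ CR k (n + 1 + 1) ω ω' x) (2 ^ (n + 1 + 1)) = O' at *
      generalize nc (fun x => SO n x ∧ CR k (n + 1) (sh ω) (sh ω') x) (2 ^ (n + 1)) = o at *
      generalize nc (fun x => SO n x ∧ TB (sh ω') x (2 ^ (n + 1 + k + 2))) (2 ^ (n + 1)) = a' at *
      generalize nc (fun x => S2 x ∧ CR k (n + 1) (sh ω) (sh ω') x) (2 ^ (n + 1)) = c at *
      generalize nc (fun x => S2 x ∧ TB (sh ω') x (2 ^ (n + 1 + k + 2))) (2 ^ (n + 1)) = b' at *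
      obtain ⟨o2, ho2⟩ : ∃ q, o = 2 * q + 1 := ⟨o / 2, by omega⟩
      obtain ⟨c2, hc2⟩ : ∃ q, c = 2 * q := ⟨c / 2, by omega⟩
      obtain ⟨b2, hb2⟩ : ∃ q, b' = 2 * q + 1 := ⟨b' / 2, by omega⟩
      have : O' = 2 * (o2 * (2 * c2) + c2 + o2 * (2 * b2 + 1) + b2 + a' * c2) + 1 := by
        have h5 : O' + a' * b' = (o + a') * (c + b') := a1.symm
        rw [ho2, hc2, hb2] at h5
        nlinarith [h5]
      omega
    · -- the sequences start with 1
      have hb : nc (fun x => SO (n + 1) x ∧ CR k (n + 1 + 1) ω ω' x) (2 ^ (n + 1 + 1)) =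
          nc (fun x => SO n x ∧ CR k (n + 1) (sh ω) (sh ω') x) (2 ^ (n + 1)) := by
        have hfw : ∀ x : ℤ → Bool, Periodic x ((2 ^ (n + 1 + 1) : ℕ) : ℤ) → SO (n + 1) x →
            CR k (n + 1 + 1) ω ω' x → od x = (fun _ => false) ∧
              CR k (n + 1) (sh ω) (sh ω') (ev x) := by
          intro x hx hso hc
          rcases crit1 h h0 x hc with ⟨a, b, -⟩ | ⟨a, -, -⟩
          · refine ⟨?_, b⟩
            rw [e1, per_ev_od] at hx
            funext i
            rw [per_emod hx.2 i]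
            have g1 : 0 ≤ i % ((2 ^ (n + 1) : ℕ) : ℤ) := Int.emod_nonneg _ (by positivity)
            have g2 : i % ((2 ^ (n + 1) : ℕ) : ℤ) < ((2 ^ (n + 1) : ℕ) : ℤ) :=
              Int.emod_lt_of_pos _ (by positivity)
            have g3 : 2 ^ (n + 1) ≤ 2 ^ (n + 1 + k + 2) :=
              Nat.pow_le_pow_right (by norm_num) (by omega)
            have := a (i % ((2 ^ (n + 1) : ℕ) : ℤ)).toNat (by omega)
            rwa [Int.toNat_of_nonneg g1] at this
          · exfalso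
            have := a 0 (by positivity)
            unfold ev at this
            rw [Nat.cast_zero, mul_zero, hso.1] at this
            exact absurd this (by decide)
        unfold nc
        apply Nat.card_congr
        refine ⟨fun x => ⟨ev x.1, ?_, ?_, ?_⟩, fun u => ⟨il u.1 (fun _ => false), ?_, ?_, ?_⟩, ?_, ?_⟩
        · exact ((per_ev_od x.1 (2 ^ (n + 1))).1 (by rw [← e1]; exact x.2.1)).1
        · exact ((SO_iff n x.1).1 x.2.2.1).1
        · exact (hfw x.1 x.2.1 x.2.2.1 x.2.2.2).2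
        · rw [e1, per_ev_od, ev_il, od_il]; exact ⟨u.2.1, fun _ => rfl⟩
        · rw [SO_iff, ev_il, od_il]; exact ⟨u.2.2.1, fun _ => rfl⟩
        · apply crit1_conv h h0
          · intro k _; rw [od_il]
          · rw [ev_il]; exact u.2.2.2
          · rw [ev_il]
            have g3 : 2 ^ (n + 1 + k + 2) = 2 * 2 ^ (k + 1) * 2 ^ (n + 1) := by ring
            rw [g3]
            exact DD_odd _ _ _ u.2.1 (SO_tr_odd n u.1 u.2.1 u.2.2.1) _
        · intro x
          apply Subtype.ext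
          show il (ev x.1) (fun _ => false) = x.1
          rw [← (hfw x.1 x.2.1 x.2.2.1 x.2.2.2).1, il_ev_od]
        · intro u
          apply Subtype.ext
          exact ev_il u.1 (fun _ => false)
      rw [hb]
      exact ih _ _ hs

lemma sum_shift {F : ℤ → ℕ} {N : ℕ} (h : Periodic F (N : ℤ)) :
    ∑ k ∈ Finset.range N, F ((k : ℤ) + 1) = ∑ k ∈ Finset.range N, F (k : ℤ) := by
  have h1 := Finset.sum_range_succ (fun k : ℕ => F (k : ℤ)) N
  have h2 := Finset.sum_range_succ' (fun k : ℕ => F (k : ℤ)) N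
  have h3 : F (N : ℤ) = F ((0 : ℕ) : ℤ) := by
    have := h 0
    simpa using this
  rw [h3] at h1
  push_cast at h1 h2
  omega

/-- the number of mixed positions -/
def mx (n : ℕ) (x : ℤ → Bool) : ℕ :=
  ∑ k ∈ Finset.range (2 ^ (n + 1)), if x (k : ℤ) = true ∧ x ((k : ℤ) + (2 ^ n : ℕ)) = false then 1 else 0

lemma mx_odd (n : ℕ) (x : ℤ → Bool) (hx : Periodic x ((2 ^ (n + 1) : ℕ) : ℤ))
    (ho : tr x (2 ^ (n + 1)) % 2 = 1) : mx n x % 2 = 1 := by
  unfold mx tr at *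
  have e : 2 ^ (n + 1) = 2 ^ n + 2 ^ n := by ring
  rw [e, Finset.sum_range_add] at ho ⊢
  rw [← Finset.sum_add_distrib] at ho ⊢
  have key : ∀ k ∈ Finset.range (2 ^ n),
      ((if x (k : ℤ) = true ∧ x ((k : ℤ) + (2 ^ n : ℕ)) = false then 1 else 0) +
      (if x ((2 ^ n + k : ℕ) : ℤ) = true ∧ x (((2 ^ n + k : ℕ) : ℤ) + (2 ^ n : ℕ)) = false then 1 else 0) : ℕ) %
        2 = ((if x (k : ℤ) = true then 1 else 0) +
          (if x ((2 ^ n + k : ℕ) : ℤ) = true then 1 else 0) : ℕ) % 2 := by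
    intro k _
    have e1 : x (((2 ^ n + k : ℕ) : ℤ) + (2 ^ n : ℕ)) = x (k : ℤ) := by
      rw [← hx (k : ℤ)]
      congr 1; push_cast; ring
    have e2 : x ((k : ℤ) + (2 ^ n : ℕ)) = x ((2 ^ n + k : ℕ) : ℤ) := by
      congr 1; push_cast; ring
    rw [e1, e2]
    cases x (k : ℤ) <;> cases x ((2 ^ n + k : ℕ) : ℤ) <;> simp
  rw [Finset.sum_nat_mod, Finset.sum_congr rfl key, ← Finset.sum_nat_mod]
  exact ho

/-- the number of critical words of full period -/
lemma count_CR {k n : ℕ} {ω ω' : ℕ → Fin 3} (h : Good k (n + 1) ω ω') (h0 : ω 0 = 1) :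
    nc (CR k (n + 1) ω ω') (2 ^ (n + 1)) % 2 ^ (n + 2) = 2 ^ (n + 1) := by
  classical
  set X := {x : ℤ → Bool // Periodic x ((2 ^ (n + 1) : ℕ) : ℤ) ∧ CR k (n + 1) ω ω' x} with hX
  have hfin : Finite X := finite_per _ (by positivity)
  have : Fintype X := Fintype.ofFinite X
  let f : X → X := fun x => ⟨fun i => x.1 (i + (1 : ℕ)), per_shift x.2.1 _,
    (CR_shift (per_pow x.2.1 (by omega)) 1).2 x.2.2⟩
  have hfi : ∀ m x, (f^[m] x).1 = fun i => x.1 (i + m) := by
    intro m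
    induction m with
    | zero =>
      intro x
      show x.1 = _
      funext i
      simp
    | succ m ih =>
      intro x
      rw [iterate_succ_apply, ih]
      funext i
      show x.1 (i + m + (1 : ℕ)) = _
      congr 1
      push_cast; ring
  have h1 : ∀ x, f^[2 ^ (n + 1)] x = x := by
    intro x
    apply Subtype.ext
    rw [hfi]
    funext i
    exact x.2.1 i
  have h2 : ∀ x, f^[2 ^ n] x ≠ x := by
    intro x hx
    apply min_period k n ω ω' h x.1 _ x.2.2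
    intro i
    have := congrArg Subtype.val hx
    rw [hfi] at this
    exact congrFun this i
  have hodd : ∀ x : X, mx n x.1 % 2 = 1 := fun x =>
    mx_odd n x.1 x.2.1 ((parity k (n + 1) ω ω' h x.1 x.2.1 x.2.2).1 (Or.inl h0))
  have hmx : ∀ x : X, mx n (f x).1 = mx n x.1 := by
    intro x
    unfold mx
    have hper : Periodic (fun i : ℤ => if x.1 i = true ∧ x.1 (i + (2 ^ n : ℕ)) = false then 1 else 0)
        ((2 ^ (n + 1) : ℕ) : ℤ) := by
      intro i
      show (if x.1 (i + _) = true ∧ x.1 (i + _ + _) = false then 1 else 0) = _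
      rw [x.2.1, show i + ((2 ^ (n + 1) : ℕ) : ℤ) + ((2 ^ n : ℕ) : ℤ) =
        i + ((2 ^ n : ℕ) : ℤ) + ((2 ^ (n + 1) : ℕ) : ℤ) by ring, x.2.1]
    have := sum_shift hper
    rw [← this]
    apply Finset.sum_congr rfl
    intro k _
    show (if x.1 ((k : ℤ) + (1 : ℕ)) = true ∧ x.1 ((k : ℤ) + (2 ^ n : ℕ) + (1 : ℕ)) = false then 1 else 0) = _
    rw [show (k : ℤ) + (2 ^ n : ℕ) + (1 : ℕ) = (k : ℤ) + 1 + (2 ^ n : ℕ) by push_cast; ring]
    rfl
  -- the sum of (mx - 1)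
  have hd := sum_dvd f n h1 (fun x => mx n x.1 - 1) 2 (fun x => by
      show mx n (f x).1 - 1 = _
      rw [hmx]) (fun x => by
      have := hodd x
      show 2 ∣ mx n x.1 - 1
      omega) _ Finset.univ rfl (fun x _ => h2 x) (fun x _ => Finset.mem_univ _)
  have hsum1 : ∑ x : X, mx n x.1 = ∑ x : X, (mx n x.1 - 1) + Fintype.card X := by
    rw [← Finset.card_univ, Finset.card_eq_sum_ones, ← Finset.sum_add_distrib]
    apply Finset.sum_congr rfl
    intro x _
    have := hodd x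
    omega
  -- the sum of mx
  set Y := {x : X // x.1 0 = true ∧ x.1 ((2 ^ n : ℕ) : ℤ) = false} with hY
  have hsum2 : ∑ x : X, mx n x.1 = 2 ^ (n + 1) * Fintype.card Y := by
    unfold mx
    rw [Finset.sum_comm]
    have key : ∀ k ∈ Finset.range (2 ^ (n + 1)),
        (∑ x : X, if x.1 (k : ℤ) = true ∧ x.1 ((k : ℤ) + (2 ^ n : ℕ)) = false then 1 else 0) =
          Fintype.card Y := by
      intro k hk
      have hk := Finset.mem_range.1 hk
      rw [← Finset.card_filter, Fintype.card_subtype]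
      apply Finset.card_bij' (i := fun x _ => f^[k] x) (j := fun x _ => f^[2 ^ (n + 1) - k] x)
      · intro x hx
        rw [Finset.mem_filter] at hx ⊢
        refine ⟨Finset.mem_univ _, ?_⟩
        rw [hfi]
        simp only [zero_add]
        rw [add_comm ((2 ^ n : ℕ) : ℤ)]
        exact hx.2
      · intro x hx
        rw [Finset.mem_filter] at hx ⊢
        refine ⟨Finset.mem_univ _, ?_⟩
        rw [hfi]
        have e1 : (k : ℤ) + ((2 ^ (n + 1) - k : ℕ) : ℤ) = 0 + ((2 ^ (n + 1) : ℕ) : ℤ) := by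
          rw [Nat.cast_sub hk.le]; ring
        have e2 : (k : ℤ) + ((2 ^ n : ℕ) : ℤ) + ((2 ^ (n + 1) - k : ℕ) : ℤ) =
            ((2 ^ n : ℕ) : ℤ) + ((2 ^ (n + 1) : ℕ) : ℤ) := by
          rw [Nat.cast_sub hk.le]; ring
        simp only
        rw [e1, e2, x.2.1, x.2.1]
        exact hx.2
      · intro x _
        rw [← iterate_add_apply, Nat.sub_add_cancel hk.le, h1]
      · intro x _
        rw [← iterate_add_apply, Nat.add_sub_cancel' hk.le, h1]
    rw [Finset.sum_congr rfl key, Finset.sum_const, Finset.card_range, smul_eq_mul]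
  -- the parity of Y
  have hYodd : Fintype.card Y % 2 = 1 := by
    let r : Y → Y := fun y => ⟨⟨fun i => y.1.1 (-i), by
        intro i
        show y.1.1 (-(i + _)) = y.1.1 (-i)
        rw [← y.1.2.1 (-(i + _))]
        congr 1; ring, (CR_reflect (per_pow y.1.2.1 (by omega))).2 y.1.2.2⟩, by
        refine ⟨?_, ?_⟩
        · show y.1.1 (-0) = true
          rw [neg_zero]; exact y.2.1
        · show y.1.1 (-((2 ^ n : ℕ) : ℤ)) = false
          rw [← y.1.2.1 (-((2 ^ n : ℕ) : ℤ))]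
          have : -((2 ^ n : ℕ) : ℤ) + ((2 ^ (n + 1) : ℕ) : ℤ) = ((2 ^ n : ℕ) : ℤ) := by
            push_cast; ring
          rw [this]; exact y.2.2⟩
    have hrr : ∀ y, r (r y) = y := by
      intro y
      apply Subtype.ext
      apply Subtype.ext
      funext i
      show y.1.1 (- -i) = y.1.1 i
      rw [neg_neg]
    have hm := card_mod r 0 (by intro y; exact hrr y)
    have hc : Nat.card {y // r^[2 ^ 0] y = y} = nc (fun x => SO n x ∧ CR k (n + 1) ω ω' x) (2 ^ (n + 1)) := by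
      unfold nc
      apply Nat.card_congr
      refine ⟨fun y => ⟨y.1.1.1, y.1.1.2.1, ⟨y.1.2.1, y.1.2.2, fun i => ?_⟩, y.1.1.2.2⟩,
        fun x => ⟨⟨⟨x.1, x.2.1, x.2.2.2⟩, x.2.2.1.1, x.2.2.1.2.1⟩, ?_⟩, ?_, ?_⟩
      · have := congrArg (fun z : Y => z.1.1 i) y.2
        exact this
      · apply Subtype.ext
        apply Subtype.ext
        funext i
        exact x.2.2.1.2.2 i
      · intro y; rfl
      · intro x; rfl
    rw [hc] at hm
    have := odd_sym k n ω ω' h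
    rw [Nat.card_eq_fintype_card] at hm
    have h3 : Fintype.card Y % 2 =
      nc (fun x => SO n x ∧ CR k (n + 1) ω ω' x) (2 ^ (n + 1)) % 2 := hm
    rw [h3]; exact this
  have hcard : nc (CR k (n + 1) ω ω') (2 ^ (n + 1)) = Fintype.card X := by
    unfold nc
    rw [Nat.card_eq_fintype_card]
  rw [hcard]
  obtain ⟨q, hq⟩ := hd
  obtain ⟨t, ht⟩ : ∃ t, Fintype.card Y = 2 * t + 1 := ⟨Fintype.card Y / 2, by omega⟩
  have e1 : 2 ^ (n + 2) = 2 * 2 ^ (n + 1) := by ring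
  have hfinal : Fintype.card X + 2 ^ (n + 2) * q = 2 ^ (n + 2) * t + 2 ^ (n + 1) := by
    have hq' : ∑ x : X, (mx n x.1 - 1) = 2 ^ (n + 1) * 2 * q := hq
    rw [hsum2, hq', ht] at hsum1
    rw [e1]
    nlinarith [hsum1]
  have hlt : 2 ^ (n + 1) < 2 ^ (n + 2) := by rw [e1]; have : 0 < 2 ^ (n + 1) := by positivity
                                             omega
  have h5 : (Fintype.card X + 2 ^ (n + 2) * q) % 2 ^ (n + 2) = Fintype.card X % 2 ^ (n + 2) :=
    Nat.add_mul_mod_self_left _ _ _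
  rw [← h5, hfinal, Nat.mul_add_mod, Nat.mod_eq_of_lt hlt]

end Pool.Agent.H44Sp
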