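import Mathlib
import Pool.Agent.H44Sp.F

/-! Words over the three letters: the part containing the special letter
(helper file for MP_2e40ce_al) -/

namespace Pool.Agent.H44Sp

open Function

/-- the special letter to the power `b` -/
def dd (ω : ℕ → Fin 3) (b : Bool) : Equiv.Perm (List Bool) := if b then gp ω 3 else 1

lemma dd_sq (ω : ℕ → Fin 3) (b : Bool) : dd ω b * dd ω b = 1 := by
  cases b <;> simp [dd]

lemma lt_xor (ω : ℕ → Fin 3) (w a b : Bool) :
    gp ω (lt (xor (xor w a) b)) = dd ω a * gp ω (lt w) * dd ω b := by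
  cases w <;> cases a <;> cases b <;>
    simp [dd, lt, gp_one_three, gp_three_one, gp_two_three, gp_three_two, mul_assoc]

/-- second section of a word whose odd letters are `1` or `2` (first digit `0`) -/
def Bc (τ : ℕ → Fin 3) (u : ℤ → Fin 4) (w : ℤ → Bool) (m : ℕ) : Equiv.Perm (List Bool) :=
  pr (fun j => pg τ 0 (u j) * gp τ (lt (w j))) m

lemma pg_three (τ : ℕ → Fin 3) : pg τ 0 3 = 1 := pg_nil (by decide)

lemma telescope (τ : ℕ → Fin 3) (u : ℤ → Fin 4) (w : ℤ → Bool) (ε : ℤ → Bool)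
    (hε : ∀ j, ε j = true → u j = 3) (m : ℕ) :
    Bc τ u (fun j => xor (xor (w j) (ε j)) (ε (j + 1))) m =
      dd τ (ε 0) * Bc τ u w m * dd τ (ε m) := by
  unfold Bc
  induction m with
  | zero => simp [dd_sq]
  | succ m ih =>
    rw [pr_succ, ih, pr_succ, lt_xor]
    have hc : pg τ 0 (u m) * dd τ (ε m) = dd τ (ε m) * pg τ 0 (u m) := by
      cases he : ε (m : ℤ)
      · simp [dd]
      · rw [hε _ he, pg_three]; simp
    have e : ((m + 1 : ℕ) : ℤ) = (m : ℤ) + 1 := by push_cast; ring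
    rw [e]
    calc dd τ (ε 0) * pr (fun j => pg τ 0 (u j) * gp τ (lt (w j))) m * dd τ (ε m) *
          (pg τ 0 (u m) * (dd τ (ε m) * gp τ (lt (w m)) * dd τ (ε (m + 1))))
        = dd τ (ε 0) * pr (fun j => pg τ 0 (u j) * gp τ (lt (w j))) m * dd τ (ε m) *
          ((pg τ 0 (u m) * dd τ (ε m)) * (gp τ (lt (w m)) * dd τ (ε (m + 1)))) := by
          simp only [mul_assoc]
      _ = dd τ (ε 0) * pr (fun j => pg τ 0 (u j) * gp τ (lt (w j))) m * (dd τ (ε m) *
          dd τ (ε m)) * (pg τ 0 (u m) * (gp τ (lt (w m)) * dd τ (ε (m + 1)))) := by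
          rw [hc]; simp only [mul_assoc]
      _ = _ := by rw [dd_sq]; simp only [mul_assoc, one_mul, mul_one]

/-- the twisting sequence -/
def eps (h : ℕ) (u : ℤ → Fin 4) (k : ℤ) : Bool := decide (u k = 3) && decide (k / (h : ℤ) % 2 = 1)

/-- twisting -/
def tog (h : ℕ) (u : ℤ → Fin 4) (w : ℤ → Bool) : ℤ → Bool :=
  fun j => xor (xor (w j) (eps h u j)) (eps h u (j + 1))

lemma tog_tog (h : ℕ) (u : ℤ → Fin 4) (w : ℤ → Bool) : tog h u (tog h u w) = w := by
  funext j
  unfold tog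
  cases w j <;> cases eps h u j <;> cases eps h u (j + 1) <;> rfl

lemma eps_add {h : ℕ} (hh : 0 < h) {u : ℤ → Fin 4} (hu : Periodic u (h : ℤ)) (k : ℤ) :
    eps h u (k + h) = xor (eps h u k) (decide (u k = 3)) := by
  unfold eps
  rw [hu, Int.add_ediv_of_dvd_right (dvd_refl _), Int.ediv_self (by omega)]
  by_cases h3 : u k = 3
  · simp only [h3, decide_true, Bool.true_and, Bool.xor_true]
    rcases Int.emod_two_eq_zero_or_one (k / (h : ℤ)) with h5 | h5
    · have : (k / (h : ℤ) + 1) % 2 = 1 := by omega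
      simp [h5, this]
    · have : (k / (h : ℤ) + 1) % 2 = 0 := by omega
      simp [h5, this]
  · simp [h3]

/-- twisted periodicity -/
def Tw (h : ℕ) (u : ℤ → Fin 4) (V : ℤ → Bool) : Prop :=
  ∀ k, V (k + h) = xor (xor (V k) (decide (u k = 3))) (decide (u (k + 1) = 3))

lemma Tw_tog {h : ℕ} (hh : 0 < h) {u : ℤ → Fin 4} (hu : Periodic u (h : ℤ)) {w : ℤ → Bool} :
    Periodic w (h : ℤ) ↔ Tw h u (tog h u w) := by
  unfold Tw
  have key : ∀ k, tog h u w (k + h) = xor (xor (xor (xor (w (k + h)) (eps h u k)) (eps h u (k + 1)))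
      (decide (u k = 3))) (decide (u (k + 1) = 3)) := by
    intro k
    unfold tog
    rw [eps_add hh hu, show k + (h : ℤ) + 1 = (k + 1) + h by ring, eps_add hh hu]
    cases w (k + h) <;> cases eps h u k <;> cases eps h u (k + 1) <;> cases decide (u k = 3) <;>
      cases decide (u (k + 1) = 3) <;> rfl
  constructor
  · intro hw k
    rw [key, hw]
    rfl
  · intro hw k
    have := hw k
    rw [key] at this
    unfold tog at this
    revert this
    cases w (k + h) <;> cases w k <;> cases eps h u k <;> cases eps h u (k + 1) <;>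
      cases decide (u k = 3) <;> cases decide (u (k + 1) = 3) <;> decide

lemma Bc_tog (τ : ℕ → Fin 3) {h : ℕ} (hh : 0 < h) (u : ℤ → Fin 4) (w : ℤ → Bool) (c : ℕ) :
    Bc τ u (tog h u w) (2 * c * h) = Bc τ u w (2 * c * h) := by
  have := telescope τ u w (eps h u) (by
    intro j hj
    unfold eps at hj
    simp only [Bool.and_eq_true, decide_eq_true_eq] at hj
    exact hj.1) (2 * c * h)
  have e0 : eps h u 0 = false := by unfold eps; simp
  have e4 : eps h u ((2 * c * h : ℕ) : ℤ) = false := by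
    unfold eps
    have : ((2 * c * h : ℕ) : ℤ) / (h : ℤ) = 2 * c := by
      push_cast
      rw [Int.mul_ediv_cancel _ (by omega)]
    rw [this]
    have h2 : (2 * (c : ℤ)) % 2 ≠ 1 := by omega
    simp [h2]
  unfold tog
  rw [this, e0, e4]
  simp [dd]

lemma Tw_two {h : ℕ} {u : ℤ → Fin 4} (hu : Periodic u (h : ℤ)) {V : ℤ → Bool} (hV : Tw h u V)
    (k : ℤ) : V (k + h + h) = V k := by
  rw [hV (k + h), hV k, hu, show k + (h : ℤ) + 1 = (k + 1) + h by ring, hu]
  cases V k <;> cases decide (u k = 3) <;> cases decide (u (k + 1) = 3) <;> rfl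

/-- pairs of sequences with the special letter in the first one -/
def PA (τ : ℕ → Fin 3) (c h : ℕ) (u : ℤ → Fin 4) : Prop :=
  Periodic u (h : ℤ) ∧ (∀ j, u j ≠ 0) ∧ (∃ j, u j = 3) ∧
    pr (fun j => gp τ (u j) * gp τ 0) (2 * c * h) = 1

lemma PA_shift {τ : ℕ → Fin 3} {c h : ℕ} {u : ℤ → Fin 4} (hu : PA τ c h u) :
    PA τ c h (fun i => u (i + 1)) := by
  obtain ⟨h1, h2, ⟨j, hj⟩, h4⟩ := hu
  refine ⟨per_shift h1 1, fun j => h2 _, ⟨j - 1, by show u (j - 1 + 1) = 3; rw [sub_add_cancel, hj]⟩, ?_⟩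
  have hper : Periodic (fun j => gp τ (u j) * gp τ 0) ((2 * c * h : ℕ) : ℤ) := by
    intro j
    show gp τ (u (j + _)) * gp τ 0 = _
    have := (h1.nat_mul (2 * c)) j
    push_cast at this ⊢
    rw [this]
  exact (pr_shift_one hper).2 h4

lemma card_twisted (τ : ℕ → Fin 3) (c n : ℕ) :
    2 ^ (n + 2) ∣ Nat.card {p : (ℤ → Fin 4) × (ℤ → Bool) // (PA τ c (2 ^ (n + 1)) p.1 ∧
      Tw (2 ^ (n + 1)) p.1 p.2 ∧ Bc τ p.1 p.2 (2 * c * 2 ^ (n + 1)) = 1) ∧ ∃ j, p.1 j ≠ 3} := by
  set h := 2 ^ (n + 1) with hh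
  have hpos : 0 < h := by positivity
  set Z := {p : (ℤ → Fin 4) × (ℤ → Bool) // (PA τ c h p.1 ∧
      Tw h p.1 p.2 ∧ Bc τ p.1 p.2 (2 * c * h) = 1) ∧ ∃ j, p.1 j ≠ 3} with hZ
  have hfin : Finite Z := by
    have f1 := finite_per (α := Fin 4) (fun _ => True) (h := h) hpos
    have f2 := finite_per (α := Bool) (fun _ => True) (h := 2 * h) (by omega)
    apply Finite.of_injective (β := {x : ℤ → Fin 4 // Periodic x (h : ℤ) ∧ True} ×
      {x : ℤ → Bool // Periodic x ((2 * h : ℕ) : ℤ) ∧ True})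
      (fun z => (⟨z.1.1, z.2.1.1.1, trivial⟩, ⟨z.1.2, by
        intro k
        have := Tw_two z.2.1.1.1 z.2.1.2.1 k
        rw [← this]; congr 1; push_cast; ring, trivial⟩))
    intro a b hab
    apply Subtype.ext
    apply Prod.ext
    · exact congrArg (fun q => q.1.1) hab
    · exact congrArg (fun q => q.2.1) hab
  let f : Z → Z := fun z => ⟨(fun i => z.1.1 (i + 1), fun i => z.1.2 (i + 1)), ⟨PA_shift z.2.1.1, by
      intro k
      show z.1.2 (k + h + 1) = _
      rw [show k + (h : ℤ) + 1 = (k + 1) + h by ring]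
      exact z.2.1.2.1 (k + 1), by
      have hper : Periodic (fun j => pg τ 0 (z.1.1 j) * gp τ (lt (z.1.2 j)))
          ((2 * c * h : ℕ) : ℤ) := by
        intro j
        show pg τ 0 (z.1.1 (j + _)) * gp τ (lt (z.1.2 (j + _))) = _
        have a1 : z.1.1 (j + ((2 * c * h : ℕ) : ℤ)) = z.1.1 j := by
          have := (z.2.1.1.1.nat_mul (2 * c)) j
          push_cast at this ⊢
          exact this
        have a2 : z.1.2 (j + ((2 * c * h : ℕ) : ℤ)) = z.1.2 j := by
          have hp2 : Periodic z.1.2 ((h : ℤ) + h) := by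
            intro k
            rw [← add_assoc]
            exact Tw_two z.2.1.1.1 z.2.1.2.1 k
          have := (hp2.nat_mul c) j
          rw [← this]
          congr 1; push_cast; ring
        rw [a1, a2]
      exact (pr_shift_one hper).2 z.2.1.2.2⟩, by
      obtain ⟨j, hj⟩ := z.2.2
      exact ⟨j - 1, by show z.1.1 (j - 1 + 1) ≠ 3; rw [sub_add_cancel]; exact hj⟩⟩
  have hfi : ∀ m z, (f^[m] z).1.1 = (fun i => z.1.1 (i + m)) ∧
      (f^[m] z).1.2 = (fun i => z.1.2 (i + m)) := by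
    intro m
    induction m with
    | zero =>
      intro z
      constructor
      · show z.1.1 = _; funext i; simp
      · show z.1.2 = _; funext i; simp
    | succ m ih =>
      intro z
      rw [iterate_succ_apply]
      obtain ⟨i1, i2⟩ := ih (f z)
      constructor
      · rw [i1]; funext i
        show z.1.1 (i + m + 1) = _
        congr 1; push_cast; ring
      · rw [i2]; funext i
        show z.1.2 (i + m + 1) = _
        congr 1; push_cast; ring
  apply card_dvd f (n + 1)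
  · intro z
    apply Subtype.ext
    obtain ⟨i1, i2⟩ := hfi (2 ^ (n + 1 + 1)) z
    have e : (((2 ^ (n + 1 + 1) : ℕ)) : ℤ) = (h : ℤ) + h := by rw [hh]; push_cast; ring
    apply Prod.ext
    · rw [i1]; funext i
      rw [e, ← add_assoc, z.2.1.1.1, z.2.1.1.1]
    · rw [i2]; funext i
      rw [e, ← add_assoc]
      exact Tw_two z.2.1.1.1 z.2.1.2.1 i
  · intro z hz
    obtain ⟨i1, i2⟩ := hfi (2 ^ (n + 1)) z
    rw [hz] at i2
    have key : ∀ k, (z.1.1 k = 3) ↔ (z.1.1 (k + 1) = 3) := by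
      intro k
      have h1 := congrFun i2 k
      have h2 : z.1.2 (k + ((2 ^ (n + 1) : ℕ) : ℤ)) =
        xor (xor (z.1.2 k) (decide (z.1.1 k = 3))) (decide (z.1.1 (k + 1) = 3)) := z.2.1.2.1 k
      rw [h2] at h1
      by_cases c1 : z.1.1 k = 3 <;> by_cases c2 : z.1.1 (k + 1) = 3 <;>
        simp [c1, c2] at h1 ⊢
    obtain ⟨j, hj⟩ := z.2.1.1.2.2.1
    obtain ⟨l, hl⟩ := z.2.2
    apply hl
    have hup : ∀ m : ℕ, z.1.1 (j + m) = 3 := by
      intro m
      induction m with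
      | zero => simpa using hj
      | succ m ih =>
        have e3 : j + ((m + 1 : ℕ) : ℤ) = j + m + 1 := by push_cast; ring
        rw [e3]
        exact (key (j + m)).1 ih
    -- use periodicity to reach l
    have := (z.2.1.1.1.int_mul (j.natAbs + l.natAbs + 1 : ℕ)) l
    have e2 : l + ((j.natAbs + l.natAbs + 1 : ℕ) : ℤ) * (h : ℤ) =
        j + ((l + ((j.natAbs + l.natAbs + 1 : ℕ) : ℤ) * (h : ℤ) - j).toNat : ℤ) := by
      have : 0 ≤ l + ((j.natAbs + l.natAbs + 1 : ℕ) : ℤ) * (h : ℤ) - j := by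
        have hh1 : (1 : ℤ) ≤ (h : ℤ) := by exact_mod_cast hpos
        have hq : ((j.natAbs + l.natAbs + 1 : ℕ) : ℤ) ≤ ((j.natAbs + l.natAbs + 1 : ℕ) : ℤ) * (h : ℤ) := by
          nlinarith
        omega
      rw [Int.toNat_of_nonneg this]; ring
    rw [← this]
    simp only [Int.cast_id]
    rw [e2]
    exact hup _

lemma nc_true (k : ℕ) : nc (fun _ : ℤ → Bool => True) (2 ^ k) = 2 ^ (2 ^ k) := by
  induction k with
  | zero =>
    unfold nc
    have e : {x : ℤ → Bool // Periodic x ((2 ^ 0 : ℕ) : ℤ) ∧ True} ≃ Bool :=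
      { toFun := fun x => x.1 0
        invFun := fun b => ⟨fun _ => b, fun _ => rfl, trivial⟩
        left_inv := fun x => Subtype.ext (const_of_per_one x.2.1).symm
        right_inv := fun b => rfl }
    rw [Nat.card_congr e]
    simp
  | succ k ih =>
    rw [show 2 ^ (k + 1) = 2 * 2 ^ k by ring,
      nc_prod (fun _ => True) (fun _ => True) (fun _ => True) _ (fun _ => by simp), ih]
    rw [← pow_add]; congr 1; ring

lemma comm_sq (τ : ℕ → Fin 3) (w : ℤ → Bool) (m : ℕ) :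
    (∀ b, Commute (gp τ (lt b)) (pr (fun j => gp τ (lt (w j))) m)) ∧
    pr (fun j => gp τ (lt (w j))) m * pr (fun j => gp τ (lt (w j))) m = 1 := by
  induction m with
  | zero => exact ⟨fun b => Commute.one_right _, by simp⟩
  | succ m ih =>
    obtain ⟨i1, i2⟩ := ih
    constructor
    · intro b
      rw [pr_succ]
      exact (i1 b).mul_right (gp_comm τ (lt_ne _) (lt_ne _))
    · rw [pr_succ]
      have hc : gp τ (lt (w m)) * pr (fun j => gp τ (lt (w j))) m =
        pr (fun j => gp τ (lt (w j))) m * gp τ (lt (w m)) := i1 (w m)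
      calc _ = pr (fun j => gp τ (lt (w j))) m * (gp τ (lt (w m)) *
            pr (fun j => gp τ (lt (w j))) m) * gp τ (lt (w m)) := by simp only [mul_assoc]
        _ = (pr (fun j => gp τ (lt (w j))) m * pr (fun j => gp τ (lt (w j))) m) *
            (gp τ (lt (w m)) * gp τ (lt (w m))) := by rw [hc]; simp only [mul_assoc]
        _ = 1 := by rw [i2, gp_sq, one_mul]

lemma Bc_three (τ : ℕ → Fin 3) (w : ℤ → Bool) (c h : ℕ) (hw : Periodic w (h : ℤ)) :
    Bc τ (fun _ => 3) w (2 * c * h) = 1 := by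
  unfold Bc
  simp only [pg_three, one_mul]
  have hF : Periodic (fun j => gp τ (lt (w j))) (h : ℤ) := by
    intro j
    show gp τ (lt (w (j + h))) = _
    rw [hw]
  rw [pr_pow hF, pow_mul, pow_two (pr _ _), (comm_sq τ w h).2, one_pow]

lemma card_const (τ : ℕ → Fin 3) (c n : ℕ) :
    2 ^ (n + 2) ∣ Nat.card {p : (ℤ → Fin 4) × (ℤ → Bool) // (PA τ c (2 ^ (n + 1)) p.1 ∧
      Periodic p.2 ((2 ^ (n + 1) : ℕ) : ℤ) ∧ Bc τ p.1 p.2 (2 * c * 2 ^ (n + 1)) = 1) ∧
        ¬ ∃ j, p.1 j ≠ 3} := by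
  by_cases hA : PA τ c (2 ^ (n + 1)) (fun _ => 3)
  · have e : {p : (ℤ → Fin 4) × (ℤ → Bool) // (PA τ c (2 ^ (n + 1)) p.1 ∧
      Periodic p.2 ((2 ^ (n + 1) : ℕ) : ℤ) ∧ Bc τ p.1 p.2 (2 * c * 2 ^ (n + 1)) = 1) ∧
        ¬ ∃ j, p.1 j ≠ 3} ≃ {x : ℤ → Bool // Periodic x ((2 ^ (n + 1) : ℕ) : ℤ) ∧ True} :=
      { toFun := fun p => ⟨p.1.2, p.2.1.2.1, trivial⟩
        invFun := fun x => ⟨(fun _ => 3, x.1), ⟨hA, x.2.1, Bc_three τ x.1 _ _ x.2.1⟩, by simp⟩
        left_inv := by
          intro p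
          apply Subtype.ext
          apply Prod.ext
          · funext j
            have := p.2.2
            push Not at this
            exact (this j).symm
          · rfl
        right_inv := fun x => rfl }
    rw [Nat.card_congr e]
    have := nc_true (n + 1)
    unfold nc at this
    rw [this]
    apply pow_dvd_pow
    have : n + 1 < 2 ^ (n + 1) := Nat.lt_two_pow_self
    omega
  · have : IsEmpty {p : (ℤ → Fin 4) × (ℤ → Bool) // (PA τ c (2 ^ (n + 1)) p.1 ∧
      Periodic p.2 ((2 ^ (n + 1) : ℕ) : ℤ) ∧ Bc τ p.1 p.2 (2 * c * 2 ^ (n + 1)) = 1) ∧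
        ¬ ∃ j, p.1 j ≠ 3} := by
      refine ⟨fun p => hA ?_⟩
      have h2 := p.2.2
      push Not at h2
      have h3 : p.1.1 = fun _ => 3 := funext h2
      rw [← h3]
      exact p.2.1.1
    rw [Nat.card_of_isEmpty]
    exact dvd_zero _

/-- the number of words with the special letter on one side only -/
lemma card_special (τ : ℕ → Fin 3) (c n : ℕ) :
    2 ^ (n + 2) ∣ Nat.card {p : (ℤ → Fin 4) × (ℤ → Bool) // PA τ c (2 ^ (n + 1)) p.1 ∧
      Periodic p.2 ((2 ^ (n + 1) : ℕ) : ℤ) ∧ Bc τ p.1 p.2 (2 * c * 2 ^ (n + 1)) = 1} := by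
  set h := 2 ^ (n + 1) with hh
  have hpos : 0 < h := by positivity
  have hfin : Finite {p : (ℤ → Fin 4) × (ℤ → Bool) // PA τ c h p.1 ∧
      Periodic p.2 (h : ℤ) ∧ Bc τ p.1 p.2 (2 * c * h) = 1} := by
    have f1 := finite_per (α := Fin 4) (fun _ => True) (h := h) hpos
    have f2 := finite_per (α := Bool) (fun _ => True) (h := h) hpos
    apply Finite.of_injective (β := {x : ℤ → Fin 4 // Periodic x (h : ℤ) ∧ True} ×
      {x : ℤ → Bool // Periodic x (h : ℤ) ∧ True})
      (fun z => (⟨z.1.1, z.2.1.1, trivial⟩, ⟨z.1.2, z.2.2.1, trivial⟩))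
    intro a b hab
    apply Subtype.ext
    apply Prod.ext
    · exact congrArg (fun q => q.1.1) hab
    · exact congrArg (fun q => q.2.1) hab
  rw [card_split (X := {p : (ℤ → Fin 4) × (ℤ → Bool) // PA τ c h p.1 ∧
      Periodic p.2 (h : ℤ) ∧ Bc τ p.1 p.2 (2 * c * h) = 1}) (fun p => ∃ j, p.1.1 j ≠ 3)]
  apply Dvd.dvd.add
  · have e := card_twisted τ c n
    rw [← hh] at e
    refine (Nat.card_congr ?_) ▸ e
    refine ⟨fun p => ⟨⟨(p.1.1, tog h p.1.1 p.1.2), p.2.1.1, ?_, ?_⟩, p.2.2⟩,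
      fun p => ⟨(p.1.1.1, tog h p.1.1.1 p.1.1.2), ⟨p.1.2.1, ?_, ?_⟩, p.2⟩, ?_, ?_⟩
    · show Periodic (tog h p.1.1 p.1.2) (h : ℤ)
      rw [Tw_tog hpos p.2.1.1.1, tog_tog]
      exact p.2.1.2.1
    · show Bc τ p.1.1 (tog h p.1.1 p.1.2) (2 * c * h) = 1
      rw [Bc_tog τ hpos]; exact p.2.1.2.2
    · show Tw h p.1.1.1 (tog h p.1.1.1 p.1.1.2)
      rw [← Tw_tog hpos p.1.2.1.1]
      exact p.1.2.2.1
    · show Bc τ p.1.1.1 (tog h p.1.1.1 p.1.1.2) (2 * c * h) = 1
      rw [Bc_tog τ hpos]; exact p.1.2.2.2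
    · intro p
      apply Subtype.ext
      apply Prod.ext
      · rfl
      · exact tog_tog _ _ _
    · intro p
      apply Subtype.ext
      apply Subtype.ext
      apply Prod.ext
      · rfl
      · exact tog_tog _ _ _
  · have e := card_const τ c n
    rw [← hh] at e
    refine (Nat.card_congr ?_) ▸ e
    exact ⟨fun p => ⟨⟨p.1, p.2.1⟩, p.2.2⟩, fun p => ⟨p.1.1, p.1.2, p.2⟩, fun p => rfl, fun p => rfl⟩

end Pool.Agent.H44Sp
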