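import Mathlib
import Pool.Agent.H44Sp.H

/-! From closed words to critical words (helper file for MP_2e40ce_al) -/

namespace Pool.Agent.H44Sp

open Function

lemma nc_add {α : Type*} [Finite α] (P Q : (ℤ → α) → Prop) {h : ℕ} (hh : 0 < h) :
    nc P h = nc (fun x => Q x ∧ P x) h + nc (fun x => ¬ Q x ∧ P x) h := by
  have hf := finite_per P hh
  unfold nc
  rw [card_split (X := {x : ℤ → α // Periodic x (h : ℤ) ∧ P x}) (fun x => Q x.1)]
  congr 1
  · apply Nat.card_congr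
    exact ⟨fun x => ⟨x.1.1, x.1.2.1, x.2, x.1.2.2⟩, fun x => ⟨⟨x.1, x.2.1, x.2.2.2⟩, x.2.2.1⟩,
      fun x => rfl, fun x => rfl⟩
  · apply Nat.card_congr
    exact ⟨fun x => ⟨x.1.1, x.1.2.1, x.2, x.1.2.2⟩, fun x => ⟨⟨x.1, x.2.1, x.2.2.2⟩, x.2.2.1⟩,
      fun x => rfl, fun x => rfl⟩

lemma nc_shift {α : Type*} (Q : (ℤ → α) → Prop) (h : ℕ) :
    nc (fun x => Q (fun i => x (i + 1))) h = nc Q h := by
  unfold nc
  apply Nat.card_congr
  refine ⟨fun x => ⟨fun i => x.1 (i + 1), per_shift x.2.1 1, x.2.2⟩,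
    fun x => ⟨fun i => x.1 (i - 1), ?_, ?_⟩, ?_, ?_⟩
  · have := per_shift x.2.1 (-1)
    exact this
  · show Q (fun i => x.1 (i + 1 - 1))
    simp only [add_sub_cancel_right]
    exact x.2.2
  · intro x
    apply Subtype.ext
    funext i
    show x.1 (i - 1 + 1) = x.1 i
    rw [sub_add_cancel]
  · intro x
    apply Subtype.ext
    funext i
    show x.1 (i + 1 - 1) = x.1 i
    rw [add_sub_cancel_right]

/-- triviality of a word of length `L` given by a sequence -/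
def PZ (ω : ℕ → Fin 3) (L : ℕ) (z : ℤ → Fin 4) : Prop := pr (fun j => gp ω (z j)) L = 1

lemma closed_eq (ω : ℕ → Fin 3) {L : ℕ} (hL : 0 < L) : closedWords ω L = nc (PZ ω L) L := by
  unfold closedWords nc
  apply Nat.card_congr
  have hW : ∀ z : ℤ → Fin 4, pr (fun j => gp ω (z j)) L =
      W ω ((List.range L).map (fun k : ℕ => z k)) := by
    intro z
    unfold pr W
    rw [List.map_map]; rfl
  refine ⟨fun u => ⟨fun i => u.1.getD (i % (L : ℤ)).toNat 0, ?_, ?_⟩,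
    fun z => ⟨(List.range L).map (fun k : ℕ => z.1 k), by simp, ?_⟩, ?_, ?_⟩
  · intro i
    simp
  · unfold PZ
    rw [hW, ← E_eq_id]
    have : (List.range L).map (fun k : ℕ => u.1.getD (((k : ℕ) : ℤ) % (L : ℤ)).toNat 0) = u.1 := by
      apply List.ext_getElem
      · simp [u.2.1]
      · intro i h1 h2
        simp only [List.getElem_map, List.getElem_range]
        have hi : i < L := by simpa using h1
        have : ((i : ℤ) % (L : ℤ)).toNat = i := by
          rw [Int.emod_eq_of_lt (by omega) (by omega)]; simp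
        rw [this, List.getD_eq_getElem]
    rw [this]
    exact u.2.2
  · rw [E_eq_id, ← hW]
    exact z.2.2
  · intro u
    apply Subtype.ext
    show (List.range L).map (fun k : ℕ => u.1.getD (((k : ℕ) : ℤ) % (L : ℤ)).toNat 0) = u.1
    apply List.ext_getElem
    · simp [u.2.1]
    · intro i h1 h2
      simp only [List.getElem_map, List.getElem_range]
      have hi : i < L := by simpa using h1
      have : ((i : ℤ) % (L : ℤ)).toNat = i := by
        rw [Int.emod_eq_of_lt (by omega) (by omega)]; simp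
      rw [this, List.getD_eq_getElem]
  · intro z
    apply Subtype.ext
    funext i
    show ((List.range L).map (fun k : ℕ => z.1 k)).getD (i % (L : ℤ)).toNat 0 = z.1 i
    have h1 : 0 ≤ i % (L : ℤ) := Int.emod_nonneg _ (by omega)
    have h2 : i % (L : ℤ) < L := Int.emod_lt_of_pos _ (by omega)
    rw [List.getD_eq_getElem _ _ (by simp; omega)]
    simp only [List.getElem_map, List.getElem_range]
    rw [Int.toNat_of_nonneg h1, ← per_emod z.2.1]

lemma PZ_per {ω : ℕ → Fin 3} {z : ℤ → Fin 4} {L : ℕ} (hz : Periodic z (L : ℤ)) :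
    Periodic (fun j => gp ω (z j)) (L : ℤ) := by
  intro j
  show gp ω (z (j + L)) = _
  rw [hz]

lemma PZ_shift {ω : ℕ → Fin 3} {z : ℤ → Fin 4} {L : ℕ} (hz : Periodic z (L : ℤ)) (t : ℕ) :
    PZ ω L (fun i => z (i + t)) ↔ PZ ω L z := pr_shift (PZ_per hz) t

lemma nc_chain (ω : ℕ → Fin 3) (n j : ℕ) (N : ℕ) (hj : n + 3 + j ≤ N) :
    nc (PZ ω (2 ^ N)) (2 ^ (n + 3 + j)) ≡ nc (PZ ω (2 ^ N)) (2 ^ (n + 3)) [MOD 2 ^ (n + 4)] := by
  induction j with
  | zero => exact Nat.ModEq.refl _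
  | succ j ih =>
    have h1 := nc_step (PZ ω (2 ^ N)) 1 (n + 3 + j) one_pos (by
      intro x hx hp
      have hx' : Periodic x ((2 ^ N : ℕ) : ℤ) := by
        rw [one_mul] at hx
        exact per_pow hx (by omega)
      exact (PZ_shift hx' 1).2 hp)
    rw [one_mul, one_mul] at h1
    have h2 := Nat.ModEq.of_dvd (pow_dvd_pow 2 (show n + 4 ≤ n + 3 + j + 1 by omega)) h1
    exact h2.trans (ih (by omega))

/-- words with two equal types in a row are short -/
lemma nonalt {m : ℕ} {ω ω' : ℕ → Fin 3} (h : NC ω) (h' : NC ω') (hag : ∀ i < m, ω i = ω' i)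
    {z : ℤ → Fin 4} {P : ℕ} (hP : 0 < P) (hz : Periodic z (P : ℤ))
    (hL : Periodic z ((2 ^ (m + 3) : ℕ) : ℤ))
    (hi : ∃ i, (z i = 0 ↔ z (i + 1) = 0)) : PZ ω (2 ^ (m + 3)) z ↔ PZ ω' (2 ^ (m + 3)) z := by
  obtain ⟨i, hi⟩ := hi
  have g1 : 0 ≤ i % (P : ℤ) := Int.emod_nonneg _ (by omega)
  set t := (i % (P : ℤ)).toNat with ht
  have ht' : (t : ℤ) = i % (P : ℤ) := Int.toNat_of_nonneg g1
  have e1 : z i = z (0 + t) := by rw [per_emod hz i, zero_add, ht']
  have e2 : z (i + 1) = z (1 + t) := by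
    have h3 : z (i + 1) = z (i % (P : ℤ) + 1) := per_emod (per_shift hz 1) i
    rw [h3, ht']; congr 1; ring
  rw [← PZ_shift hL t, ← PZ_shift (ω := ω') hL t]
  set y : ℤ → Fin 4 := fun i => z (i + t) with hy
  have hty : (y 0 = 0 ↔ y 1 = 0) := by
    show (z (0 + t) = 0 ↔ z (1 + t) = 0)
    rw [← e1, ← e2]; exact hi
  obtain ⟨l, hl⟩ : ∃ l, 2 ^ (m + 3) = l + 1 + 1 := ⟨2 ^ (m + 3) - 2, by
    have : 2 ^ (m + 3) = 8 * 2 ^ m := by ring
    have h2 : 0 < 2 ^ m := by positivity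
    omega⟩
  obtain ⟨u', h1, h2⟩ := shorter [] (bl (fun j => [y (j + 2)]) l) (y 0) (y 1) hty
  have key : ∀ ω, PZ ω (2 ^ (m + 3)) y ↔ W ω u' = 1 := by
    intro ω
    unfold PZ
    rw [hl, pr_succ', pr_succ', ← h2]
    have e3 : (fun j : ℤ => gp ω (y (j + 1 + 1))) = fun j => W ω [y (j + 2)] := by
      funext j
      rw [W_cons, W_nil, mul_one]
      congr 2; ring
    rw [e3, pr_W]
    simp
  rw [key, key]
  apply short_words m _ ω ω' h h' hag u' rfl
  refine lt_of_lt_of_le h1 ?_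
  have : ∀ l, (bl (fun j => [y (j + 2)]) l).length = l := by
    intro l
    induction l with
    | zero => rfl
    | succ l ih => rw [bl_succ, List.length_append, ih]; rfl
  simp only [List.nil_append, List.length_cons, this]
  omega

/-- alternating, first generator at even places -/
def Al (z : ℤ → Fin 4) : Prop := (∀ j, ev z j = 0) ∧ (∀ j, od z j ≠ 0)
/-- alternating, first generator at odd places -/
def Ar (z : ℤ → Fin 4) : Prop := (∀ j, ev z j ≠ 0) ∧ (∀ j, od z j = 0)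

lemma al_or_ar {z : ℤ → Fin 4} (h : ¬ ∃ i, (z i = 0 ↔ z (i + 1) = 0)) : Al z ∨ Ar z := by
  push Not at h
  have h1 : ∀ i, z i = 0 ↔ ¬ z (i + 1) = 0 := by
    intro i
    have := h i
    tauto
  have h2 : ∀ j : ℤ, z (2 * j) = 0 ↔ z 0 = 0 := by
    intro j
    induction j using Int.induction_on with
    | zero => simp
    | succ j ih =>
      rw [← ih, h1 (2 * (j : ℤ)), h1 (2 * (j : ℤ) + 1)]
      rw [show 2 * ((j : ℤ) + 1) = 2 * (j : ℤ) + 1 + 1 by ring]
      tauto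
    | pred j ih =>
      rw [← ih, h1 (2 * (-(j : ℤ) - 1)), h1 (2 * (-(j : ℤ) - 1) + 1)]
      rw [show 2 * (-(j : ℤ) - 1) + 1 + 1 = 2 * (-(j : ℤ)) by ring]
      tauto
  by_cases h0 : z 0 = 0
  · left
    refine ⟨fun j => (h2 j).2 h0, fun j => ?_⟩
    have := (h1 (2 * j)).1 ((h2 j).2 h0)
    exact this
  · right
    refine ⟨fun j => fun hh => h0 ((h2 j).1 hh), fun j => ?_⟩
    have h3 := h1 (2 * j)
    have h4 : ¬ z (2 * j) = 0 := fun hh => h0 ((h2 j).1 hh)
    show z (2 * j + 1) = 0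
    tauto

/-- the number of alternating words -/
noncomputable def YY (ω : ℕ → Fin 3) (M h : ℕ) : ℕ :=
  nc (fun y : ℤ → Fin 4 => (∀ j, y j ≠ 0) ∧ TT ω y M) h

lemma nc_al (ω : ℕ → Fin 3) (M h : ℕ) :
    nc (fun z => Al z ∧ PZ ω (2 * M) z) (2 * h) = YY ω M h := by
  have h1 : nc (fun u : ℤ → Fin 4 => ∀ j, u j = 0) h = 1 := by
    unfold nc
    rw [Nat.card_eq_one_iff_unique]
    refine ⟨⟨fun a b => Subtype.ext (funext fun j => by rw [a.2.2 j, b.2.2 j])⟩,
      ⟨⟨fun _ => 0, fun _ => rfl, fun _ => rfl⟩⟩⟩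
  have h2 := nc_prod (fun z => Al z ∧ PZ ω (2 * M) z) (fun u : ℤ → Fin 4 => ∀ j, u j = 0)
    (fun y : ℤ → Fin 4 => (∀ j, y j ≠ 0) ∧ TT ω y M) h (by
      intro z
      unfold Al
      constructor
      · rintro ⟨⟨a, b⟩, c⟩
        refine ⟨a, b, ?_⟩
        unfold PZ at c
        rw [pr_double] at c
        unfold TT
        rw [← c]
        apply pr_congr
        intro k _
        have : z (2 * (k : ℤ)) = 0 := a k
        rw [this]; rfl
      · rintro ⟨a, b, c⟩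
        refine ⟨⟨a, b⟩, ?_⟩
        unfold PZ
        rw [pr_double]
        unfold TT at c
        rw [← c]
        apply pr_congr
        intro k _
        have : z (2 * (k : ℤ)) = 0 := a k
        rw [this]; rfl)
  rw [h2, h1, one_mul]; rfl

/-- reduction to alternating words -/
lemma nc_PZ {m : ℕ} {ω ω' : ℕ → Fin 3} (h : NC ω) (h' : NC ω') (hag : ∀ i < m, ω i = ω' i)
    (l : ℕ) (hl : l + 1 ≤ m + 3) :
    ∃ R, nc (PZ ω (2 ^ (m + 3))) (2 ^ (l + 1)) = 2 * YY ω (2 ^ (m + 2)) (2 ^ l) + R ∧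
      nc (PZ ω' (2 ^ (m + 3))) (2 ^ (l + 1)) = 2 * YY ω' (2 ^ (m + 2)) (2 ^ l) + R := by
  refine ⟨nc (fun z => ¬ Ar z ∧ ¬ Al z ∧ PZ ω (2 ^ (m + 3)) z) (2 ^ (l + 1)), ?_⟩
  have hpos : 0 < 2 ^ (l + 1) := by positivity
  have e1 : 2 ^ (m + 3) = 2 * 2 ^ (m + 2) := by ring
  have e2 : 2 ^ (l + 1) = 2 * 2 ^ l := by ring
  have main : ∀ ω : ℕ → Fin 3, nc (PZ ω (2 ^ (m + 3))) (2 ^ (l + 1)) =
      2 * YY ω (2 ^ (m + 2)) (2 ^ l) +
        nc (fun z => ¬ Ar z ∧ ¬ Al z ∧ PZ ω (2 ^ (m + 3)) z) (2 ^ (l + 1)) := by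
    intro ω
    have a1 := nc_add (PZ ω (2 ^ (m + 3))) Al hpos
    have a2 := nc_add (fun z => ¬ Al z ∧ PZ ω (2 ^ (m + 3)) z) Ar hpos
    have a3 : nc (fun z => Al z ∧ PZ ω (2 ^ (m + 3)) z) (2 ^ (l + 1)) =
        YY ω (2 ^ (m + 2)) (2 ^ l) := by rw [e1, e2]; exact nc_al ω _ _
    have a4 : nc (fun z => Ar z ∧ ¬ Al z ∧ PZ ω (2 ^ (m + 3)) z) (2 ^ (l + 1)) =
        YY ω (2 ^ (m + 2)) (2 ^ l) := by
      rw [← a3, ← nc_shift (fun z => Al z ∧ PZ ω (2 ^ (m + 3)) z)]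
      apply nc_congr
      intro x hx
      have hx' : Periodic x ((2 ^ (m + 3) : ℕ) : ℤ) := per_pow hx (by omega)
      have hs := PZ_shift (ω := ω) hx' 1
      rw [show (fun i : ℤ => x (i + (1 : ℕ))) = fun i => x (i + 1) from rfl] at hs
      rw [hs]
      constructor
      · rintro ⟨⟨a, b⟩, c, d⟩
        refine ⟨⟨fun j => b j, fun j => ?_⟩, d⟩
        have := a (j + 1)
        unfold ev at this
        show x (2 * j + 1 + 1) ≠ 0
        rw [show 2 * j + 1 + 1 = 2 * (j + 1) by ring]; exact this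
      · rintro ⟨⟨a, b⟩, d⟩
        have hA : Ar x := by
          refine ⟨fun j => ?_, fun j => a j⟩
          have h7 : x (2 * (j - 1) + 1 + 1) ≠ 0 := b (j - 1)
          rw [show 2 * (j - 1) + 1 + 1 = 2 * j by ring] at h7
          exact h7
        exact ⟨hA, fun hAl => hA.1 0 (hAl.1 0), d⟩
    rw [a1, a2, a3, a4]; ring
  refine ⟨main ω, ?_⟩
  rw [main ω']
  congr 1
  apply nc_congr
  intro x hx
  constructor
  · rintro ⟨a, b, c⟩
    refine ⟨a, b, ?_⟩
    rw [nonalt h h' hag hpos hx (per_pow hx (by omega)) (by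
      by_contra hcon
      rcases al_or_ar hcon with hh | hh
      · exact b hh
      · exact a hh)]
    exact c
  · rintro ⟨a, b, c⟩
    refine ⟨a, b, ?_⟩
    rw [← nonalt h h' hag hpos hx (per_pow hx (by omega)) (by
      by_contra hcon
      rcases al_or_ar hcon with hh | hh
      · exact b hh
      · exact a hh)]
    exact c

end Pool.Agent.H44Sp
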