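import Mathlib
import Pool.Agent.H44Sp.J

/-! The decomposition of alternating words (helper file for MP_2e40ce_al) -/

namespace Pool.Agent.H44Sp

open Function

/-- no special letter -/
def ND (u : ℤ → Fin 4) : Prop := ∀ j, u j ≠ 3

lemma lt_dec {s : Fin 4} (h0 : s ≠ 0) (h3 : s ≠ 3) : lt (decide (s = 2)) = s := by
  revert s; decide

lemma dec_lt (b : Bool) : decide (lt b = 2) = b := by
  cases b <;> decide

lemma lt_ne3 (b : Bool) : lt b ≠ 3 := by cases b <;> decide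

/-- words without the special letter -/
lemma card_I (ω : ℕ → Fin 3) (M h : ℕ) :
    nc (fun y => ND (od y) ∧ ND (ev y) ∧ (∀ j, y j ≠ 0) ∧ TT ω y M) h =
      nc (fun x => TB ω x M) h := by
  unfold nc
  apply Nat.card_congr
  have h3 : ∀ y : ℤ → Fin 4, ND (od y) → ND (ev y) → ∀ j, y j ≠ 3 := by
    intro y h1 h2 j
    rcases Int.emod_two_eq_zero_or_one j with hj | hj
    · have := h2 (j / 2)
      unfold ev at this
      rwa [show 2 * (j / 2) = j by omega] at this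
    · have := h1 (j / 2)
      unfold od at this
      rwa [show 2 * (j / 2) + 1 = j by omega] at this
  have hl : ∀ y : ℤ → Fin 4, ND (od y) → ND (ev y) → (∀ j, y j ≠ 0) →
      (fun j => lt (decide (y j = 2))) = y := by
    intro y h1 h2 h0
    funext j
    exact lt_dec (h0 j) (h3 y h1 h2 j)
  refine ⟨fun y => ⟨fun j => decide (y.1 j = 2), ?_, ?_⟩, fun x => ⟨fun j => lt (x.1 j), ?_, ?_⟩,
    ?_, ?_⟩
  · intro j
    show decide (y.1 (j + h) = 2) = _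
    rw [y.2.1]
  · show TT ω (fun j => lt (decide (y.1 j = 2))) M
    rw [hl y.1 y.2.2.1 y.2.2.2.1 y.2.2.2.2.1]
    exact y.2.2.2.2.2
  · intro j
    show lt (x.1 (j + h)) = _
    rw [x.2.1]
  · exact ⟨fun j => lt_ne3 _, fun j => lt_ne3 _, fun j => lt_ne _, x.2.2⟩
  · intro y
    apply Subtype.ext
    exact hl y.1 y.2.2.1 y.2.2.2.1 y.2.2.2.2.1
  · intro x
    apply Subtype.ext
    funext j
    exact dec_lt _

lemma TT_il {ω : ℕ → Fin 3} (h0 : ω 0 = 0) {y : ℤ → Fin 4} (hy : ∀ j, y j ≠ 0)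
    (hod : ND (od y)) (M : ℕ) :
    TT ω y (2 * M) ↔ pr (fun j => gp (sh ω) (ev y j) * gp (sh ω) 0) M = 1 ∧
      Bc (sh ω) (ev y) (fun j => decide (od y j = 2)) M = 1 := by
  rw [TT_section hy, h0]
  unfold Bc
  have e1 : (fun j => gp (sh ω) (y (2 * j)) * pg (sh ω) 0 (y (2 * j + 1))) =
      fun j => gp (sh ω) (ev y j) * gp (sh ω) 0 := by
    funext j
    have h1 : y (2 * j + 1) = lt (decide (od y j = 2)) := (lt_dec (hy _) (hod j)).symm
    rw [h1, pg_zero_lt]; rfl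
  have e2 : (fun j => pg (sh ω) 0 (y (2 * j)) * gp (sh ω) (y (2 * j + 1))) =
      fun j => pg (sh ω) 0 (ev y j) * gp (sh ω) (lt (decide (od y j = 2))) := by
    funext j
    have h1 : y (2 * j + 1) = lt (decide (od y j = 2)) := (lt_dec (hy _) (hod j)).symm
    rw [h1]; rfl
  rw [e1, e2]

/-- words with the special letter on one side -/
lemma card_II {ω : ℕ → Fin 3} (h0 : ω 0 = 0) (c n : ℕ) :
    2 ^ (n + 2) ∣ nc (fun y => ND (od y) ∧ ¬ ND (ev y) ∧ (∀ j, y j ≠ 0) ∧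
      TT ω y (2 * (2 * c * 2 ^ (n + 1)))) (2 * 2 ^ (n + 1)) := by
  have h1 := card_special (sh ω) c n
  suffices hc : nc (fun y => ND (od y) ∧ ¬ ND (ev y) ∧ (∀ j, y j ≠ 0) ∧
      TT ω y (2 * (2 * c * 2 ^ (n + 1)))) (2 * 2 ^ (n + 1)) =
      Nat.card {p : (ℤ → Fin 4) × (ℤ → Bool) // PA (sh ω) c (2 ^ (n + 1)) p.1 ∧
      Periodic p.2 ((2 ^ (n + 1) : ℕ) : ℤ) ∧ Bc (sh ω) p.1 p.2 (2 * c * 2 ^ (n + 1)) = 1} by
    rw [hc]; exact h1
  unfold nc
  symm
  apply Nat.card_congr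
  set h := 2 ^ (n + 1) with hh
  have hil : ∀ (u : ℤ → Fin 4) (w : ℤ → Bool), (∀ j, u j ≠ 0) → ∀ j, il u (fun j => lt (w j)) j ≠ 0 := by
    intro u w hu j
    unfold il
    split_ifs
    · exact hu _
    · exact lt_ne _
  refine ⟨fun p => ⟨il p.1.1 (fun j => lt (p.1.2 j)), ?_, ?_, ?_, ?_, ?_⟩,
    fun y => ⟨(ev y.1, fun j => decide (od y.1 j = 2)), ?_, ?_, ?_⟩, ?_, ?_⟩
  · rw [per_ev_od, ev_il, od_il]
    refine ⟨p.2.1.1, fun j => ?_⟩
    show lt (p.1.2 (j + h)) = _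
    rw [p.2.2.1]
  · rw [od_il]; exact fun j => lt_ne3 _
  · rw [ev_il]
    obtain ⟨j, hj⟩ := p.2.1.2.2.1
    exact fun hh => hh j hj
  · exact hil _ _ p.2.1.2.1
  · rw [TT_il h0 (hil _ _ p.2.1.2.1) (by rw [od_il]; exact fun j => lt_ne3 _), ev_il, od_il]
    refine ⟨p.2.1.2.2.2, ?_⟩
    simp only [dec_lt]
    exact p.2.2.2
  · refine ⟨((per_ev_od y.1 h).1 y.2.1).1, fun j => y.2.2.2.2.1 _, ?_, ?_⟩
    · have := y.2.2.2.1
      unfold ND at this
      push Not at this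
      exact this
    · exact ((TT_il h0 y.2.2.2.2.1 y.2.2.1 _).1 y.2.2.2.2.2).1
  · intro j
    show decide (od y.1 (j + h) = 2) = _
    rw [((per_ev_od y.1 h).1 y.2.1).2]
  · exact ((TT_il h0 y.2.2.2.2.1 y.2.2.1 _).1 y.2.2.2.2.2).2
  · intro p
    apply Subtype.ext
    apply Prod.ext
    · exact ev_il p.1.1 (fun j => lt (p.1.2 j))
    · show (fun j => decide (od (il p.1.1 (fun j => lt (p.1.2 j))) j = 2)) = p.1.2
      rw [od_il]
      funext j
      exact dec_lt _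
  · intro y
    apply Subtype.ext
    show il (ev y.1) (fun j => lt (decide (od y.1 j = 2))) = y.1
    have : (fun j => lt (decide (od y.1 j = 2))) = od y.1 := by
      funext j
      exact lt_dec (y.2.2.2.2.1 _) (y.2.2.1 j)
    rw [this, il_ev_od]

lemma TT_shift1 {ω : ℕ → Fin 3} {y : ℤ → Fin 4} {M : ℕ} (hy : Periodic y (M : ℤ)) :
    TT ω (fun i => y (i + 1)) M ↔ TT ω y M := by
  unfold TT
  apply pr_shift_one (F := fun j => gp ω 0 * gp ω (y j))
  intro j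
  show gp ω 0 * gp ω (y (j + M)) = _
  rw [hy]

/-- the decomposition -/
lemma YY_decomp {N : ℕ} {ω ω' : ℕ → Fin 3} (h : NC ω) (h' : NC ω') (h0 : ω 0 = 0) (h0' : ω' 0 = 0)
    (hag : ∀ i < N + 1, ω i = ω' i) (c n : ℕ) (hN : 2 * c * 2 ^ (n + 1) = 2 ^ (N + 2))
    (hnN : n ≤ N) :
    ∃ q q' R : ℕ, YY ω (2 ^ (N + 3)) (2 ^ (n + 2)) =
        nc (fun x => TB (sh ω) x (2 ^ (N + 2))) (2 ^ (n + 1)) ^ 2 + 2 ^ (n + 3) * q + R ∧
      YY ω' (2 ^ (N + 3)) (2 ^ (n + 2)) =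
        nc (fun x => TB (sh ω') x (2 ^ (N + 2))) (2 ^ (n + 1)) ^ 2 + 2 ^ (n + 3) * q' + R := by
  have e1 : 2 ^ (N + 3) = 2 * 2 ^ (N + 2) := by ring
  have e2 : 2 ^ (n + 2) = 2 * 2 ^ (n + 1) := by ring
  have e3 : 2 ^ (n + 3) = 2 * 2 ^ (n + 2) := by ring
  have hpos : 0 < 2 * 2 ^ (n + 1) := by positivity
  have main : ∀ ω : ℕ → Fin 3, ω 0 = 0 → ∃ q : ℕ, YY ω (2 ^ (N + 3)) (2 ^ (n + 2)) =
      nc (fun x => TB (sh ω) x (2 ^ (N + 2))) (2 ^ (n + 1)) ^ 2 + 2 ^ (n + 3) * q +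
      nc (fun y => ¬ ND (od y) ∧ ¬ ND (ev y) ∧ (∀ j, y j ≠ 0) ∧ TT ω y (2 * 2 ^ (N + 2)))
        (2 * 2 ^ (n + 1)) := by
    intro ω h0
    obtain ⟨q, hq⟩ := card_II h0 c n
    rw [hN] at hq
    refine ⟨q, ?_⟩
    unfold YY
    rw [e1, e2]
    have a1 := nc_add (fun y : ℤ → Fin 4 => (∀ j, y j ≠ 0) ∧ TT ω y (2 * 2 ^ (N + 2)))
      (fun y => ND (ev y)) hpos
    have a2 := nc_add (fun y : ℤ → Fin 4 => ND (ev y) ∧ (∀ j, y j ≠ 0) ∧ TT ω y (2 * 2 ^ (N + 2)))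
      (fun y => ND (od y)) hpos
    have a3 := nc_add (fun y : ℤ → Fin 4 => ¬ ND (ev y) ∧ (∀ j, y j ≠ 0) ∧
      TT ω y (2 * 2 ^ (N + 2))) (fun y => ND (od y)) hpos
    have a4 := card_I ω (2 * 2 ^ (N + 2)) (2 * 2 ^ (n + 1))
    have a5 : nc (fun x => TB ω x (2 * 2 ^ (N + 2))) (2 * 2 ^ (n + 1)) =
        nc (fun x => TB (sh ω) x (2 ^ (N + 2))) (2 ^ (n + 1)) *
        nc (fun x => TB (sh ω) x (2 ^ (N + 2))) (2 ^ (n + 1)) := by
      apply nc_prod
      intro x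
      exact sect0 h0 x _
    have a6 : nc (fun y : ℤ → Fin 4 => ¬ ND (od y) ∧ ND (ev y) ∧ (∀ j, y j ≠ 0) ∧
        TT ω y (2 * 2 ^ (N + 2))) (2 * 2 ^ (n + 1)) =
        nc (fun y : ℤ → Fin 4 => ND (od y) ∧ ¬ ND (ev y) ∧ (∀ j, y j ≠ 0) ∧
        TT ω y (2 * 2 ^ (N + 2))) (2 * 2 ^ (n + 1)) := by
      rw [← nc_shift (fun y : ℤ → Fin 4 => ND (od y) ∧ ¬ ND (ev y) ∧ (∀ j, y j ≠ 0) ∧
        TT ω y (2 * 2 ^ (N + 2)))]
      apply nc_congr
      intro y hy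
      have hy' : Periodic y ((2 * 2 ^ (N + 2) : ℕ) : ℤ) := by
        rw [← e2] at hy
        rw [← e1]
        exact per_pow hy (by omega)
      rw [TT_shift1 hy']
      have b1 : ND (od (fun i => y (i + 1))) ↔ ND (ev y) := by
        constructor
        · intro hh j
          have : y (2 * (j - 1) + 1 + 1) ≠ 3 := hh (j - 1)
          rwa [show 2 * (j - 1) + 1 + 1 = 2 * j by ring] at this
        · intro hh j
          have : y (2 * (j + 1)) ≠ 3 := hh (j + 1)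
          show y (2 * j + 1 + 1) ≠ 3
          rwa [show 2 * j + 1 + 1 = 2 * (j + 1) by ring]
      have b2 : ND (ev (fun i => y (i + 1))) ↔ ND (od y) := Iff.rfl
      have b3 : (∀ j, y j ≠ 0) ↔ (∀ j, y (j + 1) ≠ 0) := by
        constructor
        · intro hh j; exact hh _
        · intro hh j
          have := hh (j - 1)
          rwa [sub_add_cancel] at this
      rw [b1, b2, ← b3]
      tauto
    rw [a1, a2, a3, a4, a5, a6, hq, e3, ← e2]; ring
  obtain ⟨q, hq⟩ := main ω h0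
  obtain ⟨q', hq'⟩ := main ω' h0'
  refine ⟨q, q', _, hq, ?_⟩
  rw [hq']
  congr 1
  apply nc_congr
  intro y hy
  have key : ¬ ND (od y) → ¬ ND (ev y) → (∀ j, y j ≠ 0) →
      (TT ω y (2 * 2 ^ (N + 2)) ↔ TT ω' y (2 * 2 ^ (N + 2))) := by
    intro h1 h2 h3
    rw [TT_section h3, TT_section h3, h0, h0']
    have hs := NC_sh h
    have hs' := NC_sh h'
    have hags : ∀ i < N, sh ω i = sh ω' i := fun i hi => hag (i + 1) (by omega)
    have hex : ∀ u : ℤ → Fin 4, Periodic u ((2 ^ (n + 1) : ℕ) : ℤ) → ¬ ND u →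
        ∃ k : ℕ, k < 2 ^ (N + 2) ∧ u k = 3 := by
      intro u hu hnd
      unfold ND at hnd
      push Not at hnd
      obtain ⟨j, hj⟩ := hnd
      have g1 : 0 ≤ j % ((2 ^ (n + 1) : ℕ) : ℤ) := Int.emod_nonneg _ (by positivity)
      have g2 : j % ((2 ^ (n + 1) : ℕ) : ℤ) < ((2 ^ (n + 1) : ℕ) : ℤ) :=
        Int.emod_lt_of_pos _ (by positivity)
      have g3 : 2 ^ (n + 1) ≤ 2 ^ (N + 2) := Nat.pow_le_pow_right (by norm_num) (by omega)
      refine ⟨(j % ((2 ^ (n + 1) : ℕ) : ℤ)).toNat, by omega, ?_⟩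
      rw [Int.toNat_of_nonneg g1, ← per_emod hu]
      exact hj
    have hp := (per_ev_od y (2 ^ (n + 1))).1 hy
    have f1 : pr (fun j => gp (sh ω) (y (2 * j)) * pg (sh ω) 0 (y (2 * j + 1))) (2 ^ (N + 2)) = 1 ↔
        pr (fun j => gp (sh ω') (y (2 * j)) * pg (sh ω') 0 (y (2 * j + 1))) (2 ^ (N + 2)) = 1 := by
      have e : ∀ ω : ℕ → Fin 3, (fun j => gp ω (y (2 * j)) * pg ω 0 (y (2 * j + 1))) =
          fun j => W ω (y (2 * j) :: ph 0 (y (2 * j + 1))) := by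
        intro ω; funext j; rw [W_cons]; rfl
      rw [e, e]
      apply short_pr hs hs' hags
      · intro j
        have := length_ph 0 (y (2 * j + 1))
        simp only [List.length_cons]; omega
      · obtain ⟨k, hk, hk2⟩ := hex _ hp.2 h1
        refine ⟨k, hk, ?_⟩
        have : y (2 * (k : ℤ) + 1) = 3 := hk2
        have e3 : ph 0 3 = [] := by decide
        simp only [this, e3]
        simp
      · rw [← e1]
    have f2 : pr (fun j => pg (sh ω) 0 (y (2 * j)) * gp (sh ω) (y (2 * j + 1))) (2 ^ (N + 2)) = 1 ↔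
        pr (fun j => pg (sh ω') 0 (y (2 * j)) * gp (sh ω') (y (2 * j + 1))) (2 ^ (N + 2)) = 1 := by
      have e : ∀ ω : ℕ → Fin 3, (fun j => pg ω 0 (y (2 * j)) * gp ω (y (2 * j + 1))) =
          fun j => W ω (ph 0 (y (2 * j)) ++ [y (2 * j + 1)]) := by
        intro ω; funext j; rw [W_append, W_cons, W_nil, mul_one]; rfl
      rw [e, e]
      apply short_pr hs hs' hags
      · intro j
        have := length_ph 0 (y (2 * j))
        simp only [List.length_append, List.length_cons, List.length_nil]; omega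
      · obtain ⟨k, hk, hk2⟩ := hex _ hp.1 h2
        refine ⟨k, hk, ?_⟩
        have : y (2 * (k : ℤ)) = 3 := hk2
        have e3 : ph 0 3 = [] := by decide
        simp only [this, e3]
        simp
      · rw [← e1]
    rw [f1, f2]
  constructor
  · rintro ⟨a, b, c, d⟩
    exact ⟨a, b, c, (key a b c).2 d⟩
  · rintro ⟨a, b, c, d⟩
    exact ⟨a, b, c, (key a b c).1 d⟩

end Pool.Agent.H44Sp
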