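import Mathlib

/-!
# Spectral measures of the groups `G_ω`: the profile of distinct symbols is determined

`gen ω s` is the generator `a, b_ω, c_ω, d_ω` for `s = 0, 1, 2, 3`, acting on the finite words over
`{0, 1}` (`true` stands for the letter `1`); `E ω u` is the product of the generators named by the
word `u`, and `closedWords ω k` is the number of words of length `k` whose product is the identity,
so that `closedWords ω k / 4 ^ k` is the `k`-th moment of the spectral measure `μ_ω`.
-/

namespace Pool.Agent.H44Sp.Sym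

open Function

/-- The generator `a, b_ω, c_ω, d_ω` (for `s = 0, 1, 2, 3`) acting on finite words. -/
def gen (ω : ℕ → Fin 3) (s : Fin 4) (v : List Bool) : List Bool :=
  if s = 0 then v.set 0 (!(v.getD 0 false))
  else if (List.takeWhile id v).length + 1 < v.length ∧
      (ω (List.takeWhile id v).length).val ≠ 3 - s.val
    then v.set ((List.takeWhile id v).length + 1)
      (!(v.getD ((List.takeWhile id v).length + 1) false))
    else v

/-- The product of the generators named by the word `u`. -/
def E (ω : ℕ → Fin 3) (u : List (Fin 4)) : List Bool → List Bool :=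
  (u.map (gen ω)).foldr (fun f g => f ∘ g) id

/-- The number of words of length `k` in the four generators that equal the identity. -/
noncomputable def closedWords (ω : ℕ → Fin 3) (k : ℕ) : ℕ :=
  Nat.card {u : List (Fin 4) // u.length = k ∧ E ω u = id}

/-- The number of distinct symbols among the first `n` symbols of `ω`. -/
def symbols (ω : ℕ → Fin 3) (n : ℕ) : ℕ := ((Finset.range n).image ω).card

/-! ### The generators -/

/-- the shifted sequence -/
def sh (ω : ℕ → Fin 3) : ℕ → Fin 3 := fun n => ω (n + 1)

/-- the first generator -/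
def fl : List Bool → List Bool := fun v => v.set 0 (!(v.getD 0 false))

lemma gen_zero (ω : ℕ → Fin 3) : gen ω 0 = fl := by
  funext v; simp [gen, fl]

@[simp] lemma fl_nil : fl [] = [] := rfl
@[simp] lemma fl_cons (b : Bool) (w : List Bool) : fl (b :: w) = (!b) :: w := rfl

lemma fl_fl (v : List Bool) : fl (fl v) = v := by
  cases v <;> simp

lemma gen_nil (ω : ℕ → Fin 3) {s : Fin 4} (hs : s ≠ 0) : gen ω s [] = [] := by
  simp [gen, hs]

lemma gen_false (ω : ℕ → Fin 3) {s : Fin 4} (hs : s ≠ 0) (w : List Bool) :
    gen ω s (false :: w) = false :: (if (ω 0).val = 3 - s.val then w else fl w) := by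
  by_cases h : (ω 0).val = 3 - s.val
  · simp [gen, hs, h]
  · cases w with
    | nil => simp [gen, hs, h]
    | cons b w => simp [gen, hs, h]

lemma gen_true (ω : ℕ → Fin 3) {s : Fin 4} (hs : s ≠ 0) (w : List Bool) :
    gen ω s (true :: w) = true :: gen (sh ω) s w := by
  have ht : (List.takeWhile id (true :: w)).length = (List.takeWhile id w).length + 1 := by
    simp
  unfold gen
  rw [if_neg hs, if_neg hs, ht]
  generalize (List.takeWhile id w).length = t
  have e : sh ω t = ω (t + 1) := rfl
  rw [e]
  by_cases h : t + 1 < w.length ∧ (ω (t + 1)).val ≠ 3 - s.val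
  · have h' : t + 1 + 1 < (true :: w).length ∧ (ω (t + 1)).val ≠ 3 - s.val :=
      ⟨by simp only [List.length_cons]; omega, h.2⟩
    rw [if_pos h', if_pos h]
    simp
  · have h' : ¬ (t + 1 + 1 < (true :: w).length ∧ (ω (t + 1)).val ≠ 3 - s.val) := by
      intro hh
      apply h
      refine ⟨?_, hh.2⟩
      have := hh.1
      simp only [List.length_cons] at this
      omega
    rw [if_neg h', if_neg h]

/-- a generator other than the first one is an involution -/
lemma gen_gen (s : Fin 4) (v : List Bool) (ω : ℕ → Fin 3) : gen ω s (gen ω s v) = v := by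
  by_cases hs : s = 0
  · subst hs; rw [gen_zero]; exact fl_fl v
  · induction v generalizing ω with
    | nil => rw [gen_nil ω hs, gen_nil ω hs]
    | cons b w ih =>
      cases b
      · rw [gen_false ω hs, gen_false ω hs]
        split_ifs <;> simp [fl_fl]
      · rw [gen_true ω hs, gen_true ω hs, ih]

lemma gen_comm {s t : Fin 4} (hs : s ≠ 0) (ht : t ≠ 0) (v : List Bool) (ω : ℕ → Fin 3) :
    gen ω s (gen ω t v) = gen ω t (gen ω s v) := by
  induction v generalizing ω with
  | nil => rw [gen_nil ω hs, gen_nil ω ht, gen_nil ω hs]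
  | cons b w ih =>
    cases b
    · rw [gen_false ω hs, gen_false ω ht, gen_false ω hs, gen_false ω ht]
      split_ifs <;> rfl
    · rw [gen_true ω hs, gen_true ω ht, gen_true ω hs, gen_true ω ht, ih]

/-! ### The order of the product of the first and another generator -/

/-- `a x` -/
def ax (ω : ℕ → Fin 3) (s : Fin 4) : List Bool → List Bool := fun v => fl (gen ω s v)
/-- `x a` -/
def xa (ω : ℕ → Fin 3) (s : Fin 4) : List Bool → List Bool := fun v => gen ω s (fl v)

lemma ax_ax_false {ω : ℕ → Fin 3} {s : Fin 4} (hs : s ≠ 0) (w : List Bool) :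
    ax ω s (ax ω s (false :: w)) =
      false :: gen (sh ω) s (if (ω 0).val = 3 - s.val then w else fl w) := by
  simp only [ax, gen_false ω hs, fl_cons, Bool.not_false, gen_true ω hs, Bool.not_true]

lemma ax_ax_true {ω : ℕ → Fin 3} {s : Fin 4} (hs : s ≠ 0) (w : List Bool) :
    ax ω s (ax ω s (true :: w)) =
      true :: (if (ω 0).val = 3 - s.val then gen (sh ω) s w else fl (gen (sh ω) s w)) := by
  simp only [ax, gen_true ω hs, fl_cons, Bool.not_true, gen_false ω hs, Bool.not_false]

lemma iter_two_mul {α : Type*} (f : α → α) (m : ℕ) (x : α) :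
    f^[2 * m] x = (fun y => f (f y))^[m] x := by
  rw [Function.iterate_mul]
  congr 1

lemma iter_map {f : List Bool → List Bool} {b : Bool} {g : List Bool → List Bool}
    (h : ∀ w, f (b :: w) = b :: g w) (m : ℕ) (w : List Bool) :
    f^[m] (b :: w) = b :: g^[m] w := by
  induction m generalizing w with
  | zero => rfl
  | succ m ih => rw [iterate_succ_apply, iterate_succ_apply, h, ih]

lemma xa_iter (ω : ℕ → Fin 3) (s : Fin 4) (m : ℕ) (v : List Bool) :
    (xa ω s)^[m] v = fl ((ax ω s)^[m] (fl v)) := by
  induction m generalizing v with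
  | zero => simp [fl_fl]
  | succ m ih =>
    rw [iterate_succ_apply, iterate_succ_apply, ih]
    congr 2

lemma gen_eq_id_iff {s : Fin 4} (hs : s ≠ 0) (ω : ℕ → Fin 3) :
    (∀ v, gen ω s v = v) ↔ ∀ m, (ω m).val = 3 - s.val := by
  constructor
  · intro h m
    induction m generalizing ω with
    | zero =>
      have := h [false, false]
      rw [gen_false ω hs] at this
      by_contra hne
      rw [if_neg hne] at this
      simp at this
    | succ m ih =>
      have := ih (sh ω) (fun v => by
        have := h (true :: v)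
        rw [gen_true ω hs] at this
        exact List.tail_eq_of_cons_eq this)
      exact this
  · intro h v
    induction v generalizing ω with
    | nil => exact gen_nil ω hs
    | cons b w ih =>
      cases b
      · rw [gen_false ω hs, if_pos (h 0)]
      · rw [gen_true ω hs, ih (sh ω) (fun m => h (m + 1))]

/-- `(a x)^(2^(n+1)) = 1` -/
lemma order_ax {s : Fin 4} (hs : s ≠ 0) (n : ℕ) : ∀ ω : ℕ → Fin 3,
    (∀ v, (ax ω s)^[2 ^ (n + 1)] v = v) ↔
      (∃ i < n, (ω i).val = 3 - s.val) ∨ ∀ i ≥ n, (ω i).val = 3 - s.val := by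
  induction n with
  | zero =>
    intro ω
    simp only [zero_add, pow_one, not_lt_zero, false_and, exists_false, false_or, ge_iff_le,
      zero_le, forall_const]
    constructor
    · intro h
      by_cases h0 : (ω 0).val = 3 - s.val
      · have h1 : ∀ v, gen (sh ω) s v = v := by
          intro v
          have := h (false :: v)
          rw [iterate_succ_apply, iterate_one, ax_ax_false hs, if_pos h0] at this
          exact List.tail_eq_of_cons_eq this
        have h2 := (gen_eq_id_iff hs (sh ω)).1 h1
        intro m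
        cases m with
        | zero => exact h0
        | succ m => exact h2 m
      · exfalso
        have := h [false, false]
        rw [iterate_succ_apply, iterate_one, ax_ax_false hs, if_neg h0] at this
        simp only [fl_cons, Bool.not_false] at this
        rw [gen_true _ hs, gen_nil _ hs] at this
        simp at this
    · intro h v
      have hg := (gen_eq_id_iff hs ω).2 h
      rw [iterate_succ_apply, iterate_one]
      simp only [ax, hg, fl_fl]
  | succ n ih =>
    intro ω
    have e : 2 ^ (n + 1 + 1) = 2 * 2 ^ (n + 1) := by ring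
    by_cases h0 : (ω 0).val = 3 - s.val
    · have hR : (∃ i < n + 1, (ω i).val = 3 - s.val) := ⟨0, by omega, h0⟩
      refine ⟨fun _ => Or.inl hR, fun _ => ?_⟩
      intro v
      rw [e, iter_two_mul]
      cases v with
      | nil =>
        have : ∀ m, (fun y => ax ω s (ax ω s y))^[m] [] = [] := by
          intro m
          induction m with
          | zero => rfl
          | succ m ih => rw [iterate_succ_apply]; simp only [ax, gen_nil ω hs, fl_nil]; exact ih
        exact this _
      | cons b w =>
        cases b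
        · rw [iter_map (f := fun y => ax ω s (ax ω s y)) (b := false) (g := gen (sh ω) s)
            (fun w => by simp only [ax_ax_false hs, if_pos h0])]
          have e2 : 2 ^ (n + 1) = 2 * 2 ^ n := by ring
          rw [e2, iter_two_mul]
          congr 1
          have : (fun y => gen (sh ω) s (gen (sh ω) s y)) = id := by
            funext y; exact gen_gen s y (sh ω)
          rw [this, iterate_id]; rfl
        · rw [iter_map (f := fun y => ax ω s (ax ω s y)) (b := true) (g := gen (sh ω) s)
            (fun w => by simp only [ax_ax_true hs, if_pos h0])]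
          have e2 : 2 ^ (n + 1) = 2 * 2 ^ n := by ring
          rw [e2, iter_two_mul]
          congr 1
          have : (fun y => gen (sh ω) s (gen (sh ω) s y)) = id := by
            funext y; exact gen_gen s y (sh ω)
          rw [this, iterate_id]; rfl
    · have key : (∀ v, (ax ω s)^[2 ^ (n + 1 + 1)] v = v) ↔
          ∀ v, (ax (sh ω) s)^[2 ^ (n + 1)] v = v := by
        have hf : ∀ m w, (fun y => ax ω s (ax ω s y))^[m] (false :: w)
            = false :: (xa (sh ω) s)^[m] w := fun m w =>
          iter_map (f := fun y => ax ω s (ax ω s y)) (b := false) (g := xa (sh ω) s)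
            (fun w => by simp only [ax_ax_false hs, if_neg h0, xa]) m w
        have ht : ∀ m w, (fun y => ax ω s (ax ω s y))^[m] (true :: w)
            = true :: (ax (sh ω) s)^[m] w := fun m w =>
          iter_map (f := fun y => ax ω s (ax ω s y)) (b := true) (g := ax (sh ω) s)
            (fun w => by
              show ax ω s (ax ω s (true :: w)) = true :: ax (sh ω) s w
              rw [ax_ax_true hs, if_neg h0]; rfl) m w
        rw [e]
        constructor
        · intro h v
          have := h (true :: v)
          rw [iter_two_mul, ht] at this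
          exact List.tail_eq_of_cons_eq this
        · intro h v
          rw [iter_two_mul]
          cases v with
          | nil =>
            have : ∀ m, (fun y => ax ω s (ax ω s y))^[m] [] = [] := by
              intro m
              induction m with
              | zero => rfl
              | succ m ih =>
                rw [iterate_succ_apply]; simp only [ax, gen_nil ω hs, fl_nil]; exact ih
            exact this _
          | cons b w =>
            cases b
            · rw [hf, xa_iter, h, fl_fl]
            · rw [ht, h]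
      rw [key, ih (sh ω)]
      constructor
      · rintro (⟨i, hi, h⟩ | h)
        · exact Or.inl ⟨i + 1, by omega, h⟩
        · right
          intro i hi
          obtain ⟨j, rfl⟩ : ∃ j, i = j + 1 := ⟨i - 1, by omega⟩
          exact h j (by omega)
      · rintro (⟨i, hi, h⟩ | h)
        · cases i with
          | zero => exact absurd h h0
          | succ i => exact Or.inl ⟨i, by omega, h⟩
        · right
          intro i hi
          exact h (i + 1) (by omega)

/-! ### Counting modulo four -/

lemma four_dvd {Y : Type*} [Fintype Y] (σ : Equiv.Perm Y) (h4 : σ ^ 4 = 1)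
    (h2 : ∀ y, (σ ^ 2) y ≠ y) : 4 ∣ Fintype.card Y := by
  classical
  rcases isEmpty_or_nonempty Y with hY | ⟨⟨y0⟩⟩
  · simp
  have hord : orderOf σ = 4 := by
    have h1 : orderOf σ ∣ 2 ^ 2 := orderOf_dvd_of_pow_eq_one (by simpa using h4)
    have h3 : ¬ orderOf σ ∣ 2 ^ 1 := by
      intro h
      have := orderOf_dvd_iff_pow_eq_one.1 h
      apply h2 y0
      rw [show σ ^ 2 = σ ^ (2 ^ 1) by norm_num, this]
      rfl
    obtain ⟨k, hk, hk2⟩ := (Nat.dvd_prime_pow Nat.prime_two).1 h1
    interval_cases k
    · exact absurd (by rw [hk2]; norm_num) h3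
    · exact absurd (by rw [hk2]) h3
    · rw [hk2]; norm_num
  have hfree : ∀ y : Y, MulAction.stabilizer (Subgroup.zpowers σ) y = ⊥ := by
    intro y
    rw [eq_bot_iff]
    rintro ⟨g, hg⟩ hgy
    rw [MulAction.mem_stabilizer_iff] at hgy
    have hgy' : g y = y := hgy
    obtain ⟨k, hk⟩ := (mem_powers_iff_mem_zpowers (x := σ)).2 hg
    simp only at hk
    have hk4 : σ ^ (k % 4) = g := by
      rw [← hk]
      conv_rhs => rw [← Nat.div_add_mod k 4, pow_add, pow_mul, h4, one_pow, one_mul]
    have hlt : k % 4 < 4 := Nat.mod_lt _ (by norm_num)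
    have hcase : k % 4 = 0 := by
      interval_cases hr : k % 4
      · rfl
      · exfalso
        have e1 : σ y = y := by rw [← hk4, pow_one] at hgy'; exact hgy'
        apply h2 y
        rw [pow_two, Equiv.Perm.mul_apply, e1, e1]
      · exfalso
        exact h2 y (by rw [hk4]; exact hgy')
      · exfalso
        have e1 : (σ ^ 3) y = y := by rw [hk4]; exact hgy'
        apply h2 y
        have e2 : (σ ^ 6) y = y := by
          rw [show (6 : ℕ) = 3 + 3 by norm_num, pow_add, Equiv.Perm.mul_apply, e1, e1]
        rw [show (6 : ℕ) = 4 + 2 by norm_num, pow_add, h4, one_mul] at e2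
        exact e2
    rw [hcase, pow_zero] at hk4
    rw [Subgroup.mem_bot]
    exact Subtype.ext hk4.symm
  have e := MulAction.selfEquivOrbitsQuotientProd (G := Subgroup.zpowers σ) hfree
  have hc := Nat.card_congr e
  rw [Nat.card_prod, Nat.card_zpowers, hord, Nat.card_eq_fintype_card] at hc
  exact ⟨_, by rw [hc, mul_comm]⟩

/-- the number of words of length `k` with the property `P` -/
noncomputable def cnt (P : List (Fin 4) → Prop) (k : ℕ) : ℕ :=
  Nat.card {u : List (Fin 4) // u.length = k ∧ P u}

lemma finite_words (P : List (Fin 4) → Prop) (k : ℕ) :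
    Finite {u : List (Fin 4) // u.length = k ∧ P u} := by
  have h : Set.Finite {u : List (Fin 4) | u.length = k} := List.finite_length_eq (Fin 4) k
  exact (h.subset (fun u hu => hu.1)).to_subtype

lemma rotate_prop {P : List (Fin 4) → Prop} (hP : ∀ u v, P (u ++ v) → P (v ++ u)) (u : List (Fin 4))
    (hu : P u) (n : ℕ) (hn : n ≤ u.length) : P (u.rotate n) := by
  rw [List.rotate_eq_drop_append_take hn]
  apply hP
  rw [List.take_append_drop]
  exact hu

lemma cnt_step {P : List (Fin 4) → Prop} (hP : ∀ u v, P (u ++ v) → P (v ++ u)) (l : ℕ) :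
    cnt P (4 * l) ≡ cnt (fun w => P (w ++ w)) (2 * l) [MOD 4] := by
  classical
  set Y := {u : List (Fin 4) // (u.length = 4 * l ∧ P u) ∧ u.rotate (2 * l) ≠ u} with hY
  set Z := {u : List (Fin 4) // (u.length = 4 * l ∧ P u) ∧ u.rotate (2 * l) = u} with hZ
  have hfin := finite_words P (4 * l)
  have hYf : Finite Y :=
    Finite.of_injective (fun y : Y => (⟨y.1, y.2.1⟩ : {u : List (Fin 4) // u.length = 4 * l ∧ P u}))
      (fun a b h => Subtype.ext (Subtype.mk.inj h))
  have hZf : Finite Z :=
    Finite.of_injective (fun y : Z => (⟨y.1, y.2.1⟩ : {u : List (Fin 4) // u.length = 4 * l ∧ P u}))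
      (fun a b h => Subtype.ext (Subtype.mk.inj h))
  have hsplit : cnt P (4 * l) = Nat.card Y + Nat.card Z := by
    unfold cnt
    rw [← Nat.card_sum]
    apply Nat.card_congr
    refine ⟨fun u => if h : u.1.rotate (2 * l) = u.1 then Sum.inr ⟨u.1, u.2, h⟩
      else Sum.inl ⟨u.1, u.2, h⟩, fun z => z.elim (fun y => ⟨y.1, y.2.1⟩) (fun y => ⟨y.1, y.2.1⟩),
      ?_, ?_⟩
    · intro u
      by_cases h : u.1.rotate (2 * l) = u.1
      · simp [h]
      · simp [h]
    · rintro (y | y)
      · simp [y.2.2]
      · simp [y.2.2]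
  -- the free part
  have hY4 : 4 ∣ Nat.card Y := by
    have : Fintype Y := Fintype.ofFinite Y
    rw [Nat.card_eq_fintype_card]
    have hrot : ∀ u : List (Fin 4), u.length = 4 * l → ∀ a b, (u.rotate a).rotate b = u.rotate (a + b) :=
      fun u _ a b => List.rotate_rotate u a b
    have hmem : ∀ (u : List (Fin 4)) (n : ℕ), n ≤ 4 * l →
        ((u.length = 4 * l ∧ P u) ∧ u.rotate (2 * l) ≠ u) →
        (((u.rotate n).length = 4 * l ∧ P (u.rotate n)) ∧ (u.rotate n).rotate (2 * l) ≠ u.rotate n) := by
      intro u n hn h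
      refine ⟨⟨by rw [List.length_rotate]; exact h.1.1,
        rotate_prop hP u h.1.2 n (by rw [h.1.1]; exact hn)⟩, ?_⟩
      intro hh
      apply h.2
      rw [List.rotate_rotate, Nat.add_comm, ← List.rotate_rotate] at hh
      exact List.rotate_injective n hh
    let σ : Equiv.Perm Y :=
      { toFun := fun y => ⟨y.1.rotate l, hmem y.1 l (by omega) y.2⟩
        invFun := fun y => ⟨y.1.rotate (3 * l), hmem y.1 (3 * l) (by omega) y.2⟩
        left_inv := by
          intro y
          apply Subtype.ext
          show (y.1.rotate l).rotate (3 * l) = y.1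
          rw [List.rotate_rotate, show l + 3 * l = y.1.length by rw [y.2.1.1]; ring,
            List.rotate_length]
        right_inv := by
          intro y
          apply Subtype.ext
          show (y.1.rotate (3 * l)).rotate l = y.1
          rw [List.rotate_rotate, show 3 * l + l = y.1.length by rw [y.2.1.1]; ring,
            List.rotate_length] }
    have hσ : ∀ y : Y, (σ y).1 = y.1.rotate l := fun y => rfl
    apply four_dvd σ
    · ext1 y
      apply Subtype.ext
      have : (σ ^ 4) y = σ (σ (σ (σ y))) := rfl
      rw [this, hσ, hσ, hσ, hσ, List.rotate_rotate, List.rotate_rotate, List.rotate_rotate,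
        show l + (l + (l + l)) = y.1.length by rw [y.2.1.1]; ring, List.rotate_length]
      rfl
    · intro y hy
      have e : (σ ^ 2) y = σ (σ y) := rfl
      rw [e] at hy
      have := congrArg Subtype.val hy
      rw [hσ, hσ, List.rotate_rotate, show l + l = 2 * l by ring] at this
      exact y.2.2 this
  have hZe : Nat.card Z = cnt (fun w => P (w ++ w)) (2 * l) := by
    unfold cnt
    apply Nat.card_congr
    have hdec : ∀ u : List (Fin 4), u.length = 4 * l → u.rotate (2 * l) = u →
        u = u.take (2 * l) ++ u.take (2 * l) := by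
      intro u hu h
      rw [List.rotate_eq_drop_append_take (by omega)] at h
      have h2 : u.drop (2 * l) ++ u.take (2 * l) = u.take (2 * l) ++ u.drop (2 * l) := by
        rw [h, List.take_append_drop]
      have h3 := List.append_inj_left h2 (by rw [List.length_drop, List.length_take]; omega)
      conv_lhs => rw [← List.take_append_drop (2 * l) u, h3]
    refine ⟨fun z => ⟨z.1.take (2 * l), by rw [List.length_take, z.2.1.1]; omega, ?_⟩,
      fun w => ⟨w.1 ++ w.1, ⟨by rw [List.length_append, w.2.1]; ring, w.2.2⟩, ?_⟩, ?_, ?_⟩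
    · show P (List.take (2 * l) z.1 ++ List.take (2 * l) z.1)
      rw [← hdec z.1 z.2.1.1 z.2.2]; exact z.2.1.2
    · rw [List.rotate_eq_drop_append_take (by rw [List.length_append, w.2.1]; omega),
        List.drop_left' w.2.1, List.take_left' w.2.1]
    · intro z
      apply Subtype.ext
      exact (hdec z.1 z.2.1.1 z.2.2).symm
    · intro w
      apply Subtype.ext
      exact List.take_left' w.2.1
  rw [hsplit, hZe]
  obtain ⟨c, hc⟩ := hY4
  rw [hc]
  unfold Nat.ModEq
  omega

/-! ### Powers of products -/

lemma E_append (ω : ℕ → Fin 3) (u v : List (Fin 4)) : E ω (u ++ v) = E ω u ∘ E ω v := by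
  induction u with
  | nil => rfl
  | cons s u ih =>
    show gen ω s ∘ E ω (u ++ v) = (gen ω s ∘ E ω u) ∘ E ω v
    rw [ih]; rfl

lemma E_bij (ω : ℕ → Fin 3) (u : List (Fin 4)) : Function.Bijective (E ω u) := by
  induction u with
  | nil => exact Function.bijective_id
  | cons s u ih =>
    show Function.Bijective (gen ω s ∘ E ω u)
    refine Function.Bijective.comp ?_ ih
    exact Function.Involutive.bijective (fun v => gen_gen s v ω)

/-- `E(u)^(2^j) = 1` -/
def Pj (ω : ℕ → Fin 3) (j : ℕ) (u : List (Fin 4)) : Prop := (E ω u)^[2 ^ j] = id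

lemma comp_iter_swap {α : Type*} {f g : α → α} (hg : Function.Bijective g) (m : ℕ)
    (h : (f ∘ g)^[m] = id) : (g ∘ f)^[m] = id := by
  have h1 : ∀ x, g ((f ∘ g)^[m] x) = (g ∘ f)^[m] (g x) := by
    intro x
    have : Function.Semiconj g (f ∘ g) (g ∘ f) := fun x => rfl
    exact (this.iterate_right m) x
  funext y
  obtain ⟨x, rfl⟩ := hg.2 y
  rw [← h1 x, h]; rfl

lemma Pj_rot (ω : ℕ → Fin 3) (j : ℕ) (u v : List (Fin 4)) (h : Pj ω j (u ++ v)) :
    Pj ω j (v ++ u) := by
  unfold Pj at *
  rw [E_append] at *
  exact comp_iter_swap (E_bij ω v) _ h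

lemma Pj_double (ω : ℕ → Fin 3) (j : ℕ) (w : List (Fin 4)) :
    Pj ω j (w ++ w) ↔ Pj ω (j + 1) w := by
  unfold Pj
  rw [E_append, show 2 ^ (j + 1) = 2 * 2 ^ j by ring, Function.iterate_mul]
  rfl

lemma cnt_chain (ω : ℕ → Fin 3) (m : ℕ) : ∀ j,
    cnt (Pj ω j) (2 ^ (m + 1)) ≡ cnt (Pj ω (j + m)) 2 [MOD 4] := by
  induction m with
  | zero => intro j; exact Nat.ModEq.refl _
  | succ m ih =>
    intro j
    have h1 := cnt_step (P := Pj ω j) (fun u v => Pj_rot ω j u v) (2 ^ m)
    have h2 : (fun w => Pj ω j (w ++ w)) = Pj ω (j + 1) := by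
      funext w; exact propext (Pj_double ω j w)
    rw [h2] at h1
    have e1 : 2 ^ (m + 1 + 1) = 4 * 2 ^ m := by ring
    have e2 : 2 ^ (m + 1) = 2 * 2 ^ m := by ring
    rw [e1]
    have h3 := ih (j + 1)
    rw [e2] at h3
    rw [show j + (m + 1) = j + 1 + m by ring]
    exact h1.trans h3

/-! ### Words of length two -/

open Classical in
lemma cnt_two (P : List (Fin 4) → Prop) :
    cnt P 2 = ∑ s : Fin 4, ∑ t : Fin 4, if P [s, t] then 1 else 0 := by
  have e : {u : List (Fin 4) // u.length = 2 ∧ P u} ≃ {p : Fin 4 × Fin 4 // P [p.1, p.2]} :=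
    { toFun := fun u => ⟨(u.1[0]'(by rw [u.2.1]; norm_num), u.1[1]'(by rw [u.2.1]; norm_num)), by
        obtain ⟨u, hu, hP⟩ := u
        obtain ⟨a, b, rfl⟩ := List.length_eq_two.1 hu
        exact hP⟩
      invFun := fun p => ⟨[p.1.1, p.1.2], rfl, p.2⟩
      left_inv := by
        rintro ⟨u, hu, hP⟩
        obtain ⟨a, b, rfl⟩ := List.length_eq_two.1 hu
        rfl
      right_inv := by
        rintro ⟨⟨a, b⟩, h⟩
        rfl }
  unfold cnt
  rw [Nat.card_congr e, Nat.card_eq_fintype_card, Fintype.card_subtype, Finset.card_filter,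
    Fintype.sum_prod_type]

/-- the special digit of the generator `s ≠ 0` occurs among the first `n` symbols -/
def Occ (ω : ℕ → Fin 3) (n : ℕ) (x : Fin 3) : Prop := ∃ i < n, ω i = x

open Classical in
lemma symbols_eq (ω : ℕ → Fin 3) (n : ℕ) :
    symbols ω n = ∑ x : Fin 3, if Occ ω n x then 1 else 0 := by
  unfold symbols
  rw [← Finset.card_filter]
  congr 1
  ext x
  rw [Finset.mem_image, Finset.mem_filter]
  constructor
  · rintro ⟨i, hi, rfl⟩
    exact ⟨Finset.mem_univ _, i, Finset.mem_range.1 hi, rfl⟩
  · rintro ⟨_, i, hi, rfl⟩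
    exact ⟨i, Finset.mem_range.2 hi, rfl⟩

/-- no symbol occurs for the first time at the beginning of a constant tail -/
def Generic (ω : ℕ → Fin 3) : Prop :=
  ∀ n, (∀ m ≥ n, ω m = ω n) → ∃ i < n, ω i = ω n

lemma Pj_zero_left {ω : ℕ → Fin 3} (hω : Generic ω) (n : ℕ) (s : Fin 4) (x : Fin 3) (hs : s ≠ 0)
    (hx : x.val = 3 - s.val) : Pj ω (n + 1) [0, s] ↔ Occ ω n x := by
  have e : E ω [0, s] = ax ω s := by
    funext v
    show gen ω 0 (gen ω s v) = fl (gen ω s v)
    rw [gen_zero]
  have h1 : Pj ω (n + 1) [0, s] ↔ ∀ v, (ax ω s)^[2 ^ (n + 1)] v = v := by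
    unfold Pj
    rw [e]
    exact ⟨fun h v => by rw [h]; rfl, fun h => funext h⟩
  have h2 : ∀ i, (ω i).val = 3 - s.val ↔ ω i = x := by
    intro i
    rw [← hx]
    exact ⟨fun h => Fin.ext h, fun h => by rw [h]⟩
  rw [h1, order_ax hs n ω]
  simp only [h2]
  constructor
  · rintro (h | h)
    · exact h
    · obtain ⟨i, hi, hi2⟩ := hω n (fun m hm => by rw [h m hm, h n le_rfl])
      exact ⟨i, hi, by rw [hi2, h n le_rfl]⟩
  · intro h
    exact Or.inl h

lemma Pj_zero_right (ω : ℕ → Fin 3) (n : ℕ) (s : Fin 4) :
    Pj ω n [s, 0] ↔ Pj ω n [0, s] :=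
  ⟨fun h => Pj_rot ω n [s] [0] h, fun h => Pj_rot ω n [0] [s] h⟩

lemma Pj_self (ω : ℕ → Fin 3) (n : ℕ) (s : Fin 4) : Pj ω n [s, s] := by
  have e : E ω [s, s] = id := by
    funext v
    exact gen_gen s v ω
  unfold Pj
  rw [e, iterate_id]

lemma Pj_comm (ω : ℕ → Fin 3) (n : ℕ) (s t : Fin 4) (hs : s ≠ 0) (ht : t ≠ 0) :
    Pj ω (n + 1) [s, t] := by
  unfold Pj
  have e : E ω [s, t] ∘ E ω [s, t] = id := by
    funext v
    show gen ω s (gen ω t (gen ω s (gen ω t v))) = v
    rw [gen_comm ht hs (gen ω t v) ω, gen_gen, gen_gen]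
  rw [show 2 ^ (n + 1) = 2 * 2 ^ n by ring, Function.iterate_mul]
  have : (E ω [s, t])^[2] = id := e
  rw [this, iterate_id]

lemma cnt_pairs {ω : ℕ → Fin 3} (hω : Generic ω) (n : ℕ) :
    cnt (Pj ω (n + 1)) 2 = 10 + 2 * symbols ω n := by
  classical
  have h01 := Pj_zero_left hω n 1 2 (by decide) (by decide)
  have h02 := Pj_zero_left hω n 2 1 (by decide) (by decide)
  have h03 := Pj_zero_left hω n 3 0 (by decide) (by decide)
  have h10 := (Pj_zero_right ω (n + 1) 1).trans h01
  have h20 := (Pj_zero_right ω (n + 1) 2).trans h02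
  have h30 := (Pj_zero_right ω (n + 1) 3).trans h03
  rw [cnt_two, symbols_eq]
  simp only [Fin.sum_univ_four, Fin.sum_univ_three, h01, h02, h03, h10, h20, h30,
    Pj_self, Pj_comm ω n 1 2 (by decide) (by decide), Pj_comm ω n 1 3 (by decide) (by decide),
    Pj_comm ω n 2 1 (by decide) (by decide), Pj_comm ω n 2 3 (by decide) (by decide),
    Pj_comm ω n 3 1 (by decide) (by decide), Pj_comm ω n 3 2 (by decide) (by decide), if_true]
  ring

/-- The number of closed words of length `2 ^ (n + 2)` modulo four. -/
lemma closedWords_mod {ω : ℕ → Fin 3} (hω : Generic ω) (n : ℕ) :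
    closedWords ω (2 ^ (n + 2)) ≡ 10 + 2 * symbols ω n [MOD 4] := by
  have h1 := cnt_chain ω (n + 1) 0
  have h2 : closedWords ω (2 ^ (n + 2)) = cnt (Pj ω 0) (2 ^ (n + 1 + 1)) := by
    unfold closedWords cnt Pj
    simp only [pow_zero, iterate_one]
  rw [h2]
  have h3 := cnt_pairs hω n
  rw [← h3]
  simpa using h1

lemma symbols_le (ω : ℕ → Fin 3) (n : ℕ) : symbols ω n ≤ 3 := by
  have := Finset.card_le_univ ((Finset.range n).image ω)
  simpa [symbols] using this

lemma symbols_pos (ω : ℕ → Fin 3) (n : ℕ) (hn : 0 < n) : 0 < symbols ω n := by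
  unfold symbols
  rw [Finset.card_pos]
  exact ⟨ω 0, Finset.mem_image_of_mem ω (Finset.mem_range.2 hn)⟩

lemma symbols_succ_le (ω : ℕ → Fin 3) (n : ℕ) : symbols ω (n + 1) ≤ symbols ω n + 1 := by
  unfold symbols
  rw [Finset.range_add_one, Finset.image_insert]
  exact Finset.card_insert_le _ _

lemma symbols_le_succ (ω : ℕ → Fin 3) (n : ℕ) : symbols ω n ≤ symbols ω (n + 1) := by
  unfold symbols
  apply Finset.card_le_card
  exact Finset.image_subset_image (Finset.range_mono (Nat.le_succ n))

/-- Sequences whose prefix counts have equal parities have equal prefix counts. -/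
lemma symbols_of_parity (ω ω' : ℕ → Fin 3)
    (h : ∀ n, symbols ω n % 2 = symbols ω' n % 2) : ∀ n, symbols ω n = symbols ω' n := by
  intro n
  induction n with
  | zero => simp [symbols]
  | succ n ih =>
    have a1 := symbols_succ_le ω n
    have a2 := symbols_le_succ ω n
    have b1 := symbols_succ_le ω' n
    have b2 := symbols_le_succ ω' n
    have := h (n + 1)
    omega

/-- **Main theorem.** Let `ω, ω' ∈ {0,1,2}^ℕ` be sequences in which no symbol occurs for the first
time at the beginning of a constant tail (for instance sequences that are not eventually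
constant).

(1) The number of closed words of length `2 ^ (n + 2)` in `G_ω` is `10 + 2 s` modulo `4`, where
`s` is the number of distinct symbols among the first `n` symbols of `ω`.

(2) If `G_ω` and `G_ω'` have the same spectral measure (the same numbers of closed words of every
length), then for every `n` the prefixes of length `n` of `ω` and `ω'` contain the same number of
distinct symbols. -/
theorem profile (ω ω' : ℕ → Fin 3) (hω : Generic ω) (hω' : Generic ω') :
    (∀ n, closedWords ω (2 ^ (n + 2)) % 4 = (10 + 2 * symbols ω n) % 4) ∧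
    ((∀ k, closedWords ω k = closedWords ω' k) → ∀ n, symbols ω n = symbols ω' n) := by
  refine ⟨fun n => closedWords_mod hω n, fun h => symbols_of_parity ω ω' ?_⟩
  intro n
  have h1 := closedWords_mod hω n
  have h2 := closedWords_mod hω' n
  rw [← h (2 ^ (n + 2))] at h2
  have h3 := h1.symm.trans h2
  unfold Nat.ModEq at h3
  omega

end Pool.Agent.H44Sp.Sym
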