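import Mathlib
import Pool.Agent.H44Sp.K
import Pool.Agent.H44Sp.S

/-! Spectral measures: the main comparison (helper file for MP_2e40ce_al) -/

namespace Pool.Agent.H44Sp

open Function

/-- the counting condition that propagates through leading zeros -/
def LS (N j : ℕ) (τ τ' : ℕ → Fin 3) : Prop :=
  ∃ e a b : ℕ, nc (fun x => TB τ x (2 ^ (N + 2))) (2 ^ j) = e + (2 * b + 1) ∧
    nc (fun x => TB τ' x (2 ^ (N + 2))) (2 ^ j) = 2 * b + 1 ∧
    e * (e + 2 * (2 * b + 1)) = 2 ^ (j + 2) * a + 2 ^ (j + 1)

lemma LS_zero {N j : ℕ} {τ τ' : ℕ → Fin 3} (h0 : τ 0 = 0) (h0' : τ' 0 = 0) (hj : 1 ≤ j)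
    (h : LS N j (sh τ) (sh τ')) : LS (N + 1) (j + 1) τ τ' := by
  obtain ⟨e, a, b, h1, h2, h3⟩ := h
  have e1 : 2 ^ (N + 1 + 2) = 2 * 2 ^ (N + 2) := by ring
  have e2 : 2 ^ (j + 1) = 2 * 2 ^ j := by ring
  have p1 : nc (fun x => TB τ x (2 ^ (N + 1 + 2))) (2 ^ (j + 1)) =
      (e + (2 * b + 1)) * (e + (2 * b + 1)) := by
    rw [e2, ← h1]
    apply nc_prod
    intro x
    rw [e1]
    exact sect0 h0 x _
  have p2 : nc (fun x => TB τ' x (2 ^ (N + 1 + 2))) (2 ^ (j + 1)) =
      (2 * b + 1) * (2 * b + 1) := by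
    rw [e2, ← h2]
    apply nc_prod
    intro x
    rw [e1]
    exact sect0 h0' x _
  obtain ⟨i, rfl⟩ : ∃ i, j = i + 1 := ⟨j - 1, by omega⟩
  refine ⟨e * (e + 2 * (2 * b + 1)), 2 ^ (i + 1) * (2 * a + 1) ^ 2 / 2 +
      (2 * a + 1) * (2 * (b * b) + 2 * b) + a, 2 * (b * b) + 2 * b, ?_, ?_, ?_⟩
  · rw [p1]; ring
  · rw [p2]; ring
  · rw [h3]
    have h4 : 2 ^ (i + 1) * (2 * a + 1) ^ 2 / 2 = 2 ^ i * (2 * a + 1) ^ 2 := by
      rw [show 2 ^ (i + 1) * (2 * a + 1) ^ 2 = 2 * (2 ^ i * (2 * a + 1) ^ 2) by ring]
      omega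
    rw [h4]
    ring

lemma LS_iter {N j : ℕ} (hj : 1 ≤ j) (a : ℕ) : ∀ τ τ' : ℕ → Fin 3,
    (∀ i < a, τ i = 0 ∧ τ' i = 0) → LS N j (sh^[a] τ) (sh^[a] τ') → LS (N + a) (j + a) τ τ' := by
  induction a with
  | zero => intro τ τ' _ h; exact h
  | succ a ih =>
    intro τ τ' h0 h
    rw [iterate_succ_apply, iterate_succ_apply] at h
    have := ih (sh τ) (sh τ') (fun i hi => h0 (i + 1) (by omega)) h
    exact LS_zero (N := N + a) (j := j + a) (h0 0 (by omega)).1 (h0 0 (by omega)).2 (by omega) this

/-- the comparison of the numbers of closed words -/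
lemma top_ne {N n : ℕ} {ω ω' : ℕ → Fin 3} (h : NC ω) (h' : NC ω')
    (hag : ∀ i < N + 1, ω i = ω' i) (h0 : ω 0 = 0) (hnN : n ≤ N)
    (hLS : LS N (n + 1) (sh ω) (sh ω')) :
    closedWords ω (2 ^ (N + 1 + 3)) ≠ closedWords ω' (2 ^ (N + 1 + 3)) := by
  intro heq
  have h0' : ω' 0 = 0 := by rw [← hag 0 (by omega)]; exact h0
  rw [closed_eq ω (by positivity), closed_eq ω' (by positivity)] at heq
  have c1 := nc_chain ω n (N + 1 - n) (N + 1 + 3) (by omega)
  have c2 := nc_chain ω' n (N + 1 - n) (N + 1 + 3) (by omega)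
  rw [show n + 3 + (N + 1 - n) = N + 1 + 3 by omega] at c1 c2
  rw [heq] at c1
  have c3 := c1.symm.trans c2
  obtain ⟨R0, r1, r2⟩ := nc_PZ h h' hag (n + 2) (by omega)
  rw [show n + 2 + 1 = n + 3 by ring] at r1 r2
  rw [r1, r2] at c3
  have hc : 2 * 2 ^ (N - n) * 2 ^ (n + 1) = 2 ^ (N + 2) := by
    rw [show N + 2 = 1 + (N - n) + (n + 1) by omega, pow_add, pow_add]; ring
  obtain ⟨q, q', R, y1, y2⟩ := YY_decomp (N := N) h h' h0 h0' hag (2 ^ (N - n)) n hc hnN
  rw [show N + 1 + 2 = N + 3 by ring, y1, y2] at c3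
  obtain ⟨e, a, b, s1, s2, s3⟩ := hLS
  rw [s1, s2] at c3
  have c4 := (Nat.modEq_iff_dvd.1 c3)
  obtain ⟨z, hz⟩ := c4
  have s3' : (e : ℤ) * (e + 2 * (2 * b + 1)) = 2 ^ (n + 1 + 2) * a + 2 ^ (n + 1 + 1) := by
    exact_mod_cast s3
  push_cast at hz
  have e4 : (2 : ℤ) ^ (n + 4) = 4 * 2 ^ (n + 2) := by ring
  have e5 : (2 : ℤ) ^ (n + 3) = 2 * 2 ^ (n + 2) := by ring
  have e6 : (2 : ℤ) ^ (n + 1 + 2) = 2 * 2 ^ (n + 2) := by ring
  have e7 : (2 : ℤ) ^ (n + 1 + 1) = 2 ^ (n + 2) := by ring
  rw [e4, e5] at hz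
  rw [e6, e7] at s3'
  have hs : (0 : ℤ) < 2 ^ (n + 2) := by positivity
  set s := (2 : ℤ) ^ (n + 2) with hsdef
  have h5 : 2 * s * (2 * (a : ℤ) + 1) = 2 * s * (2 * (q' - q - z)) := by
    linear_combination (-2) * s3' - hz
  have h6 := mul_left_cancel₀ (by positivity) h5
  omega

/-- the counting condition, at least two occurrences of `1` -/
lemma LS_A {k n : ℕ} {τ τ' : ℕ → Fin 3} (hs : Good k (n + 1) τ τ') (h1 : τ 0 = 1) (hn : 1 ≤ n) :
    LS (n + 1 + k) (n + 1) τ τ' := by
  have s1 := nc_split_CR hs (fun _ => True) (t := 2 ^ (n + 1)) (by positivity)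
  have s2 := count_CR hs h1
  have s3 := odd_count hs (fun _ => True) (fun _ _ _ _ => trivial) trivial (n + 1) (by omega)
  simp only [true_and] at s1 s3
  set t' := nc (fun x => TB τ' x (2 ^ (n + 1 + k + 2))) (2 ^ (n + 1)) with ht'
  have s1' : nc (fun x => TB τ x (2 ^ (n + 1 + k + 2))) (2 ^ (n + 1)) =
    nc (CR k (n + 1) τ τ') (2 ^ (n + 1)) + t' := s1
  set e := nc (CR k (n + 1) τ τ') (2 ^ (n + 1)) with hedef
  obtain ⟨m, rfl⟩ : ∃ m, n = m + 1 := ⟨n - 1, by omega⟩
  obtain ⟨b, hb⟩ : ∃ b, t' = 2 * b + 1 := ⟨t' / 2, by omega⟩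
  obtain ⟨c, hc⟩ : ∃ c, e = 2 ^ (m + 1 + 2) * c + 2 ^ (m + 1 + 1) := by
    refine ⟨e / 2 ^ (m + 1 + 2), ?_⟩
    have := Nat.div_add_mod e (2 ^ (m + 1 + 2))
    rw [s2] at this
    exact this.symm
  refine ⟨e, 2 ^ m * (2 * c + 1) ^ 2 + b * (2 * c + 1) + c, b, ?_, ?_, ?_⟩
  · rw [s1', hb]
  · exact hb
  · rw [hc]; ring

lemma base_true_all (k : ℕ) : ∀ (ω ω' : ℕ → Fin 3), Good k 0 ω ω' → ∀ x : ℤ → Bool,
    TB ω x (2 ^ (k + 2)) → ∀ i : ℕ, i < 2 ^ (k + 2) → x i = true := by
  induction k with
  | zero =>
    intro ω ω' h x ht i hi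
    exact TB_zero_true h.nc h.h1 x ht i hi
  | succ k ih =>
    intro ω ω' h x ht i hi
    have h0 : ω 0 = 0 := h.zz 0 le_rfl (by omega)
    rw [show 2 ^ (k + 1 + 2) = 2 * 2 ^ (k + 2) by ring, sect0 h0] at ht
    rw [show 2 ^ (k + 1 + 2) = 2 * 2 ^ (k + 2) by ring] at hi
    rcases Nat.even_or_odd' i with ⟨m, rfl | rfl⟩
    · have := ih _ _ h.shiftk _ ht.1 m (by omega)
      unfold ev at this
      push_cast
      exact this
    · have := ih _ _ h.shiftk _ ht.2 m (by omega)
      unfold od at this
      push_cast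
      exact this

/-- the alternating sequence -/
def alt (b : Bool) : ℤ → Bool := fun i => xor (decide (i % 2 = 0)) (!b)

lemma alt_per (b : Bool) : Periodic (alt b) (2 : ℤ) := by
  intro i
  unfold alt
  simp

lemma crit_alt {k : ℕ} {τ τ' : ℕ → Fin 3} (hs : Good k (0 + 1) τ τ') (b : Bool) :
    CR k (0 + 1) τ τ' (alt b) := by
  have hω0 : τ 0 = 1 := hs.last 0 rfl
  have h1 : CR k (0 + 1) τ τ' (alt true) := by
    apply crit1_conv hs hω0
    · intro l _
      unfold od alt
      have : (2 * (l : ℤ) + 1) % 2 = 1 := by omega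
      simp [this]
    · have e : ev (alt true) = fun _ => true := by
        funext i
        unfold ev alt
        have : (2 * i) % 2 = 0 := by omega
        simp [this]
      rw [e]
      unfold CR
      rw [show 0 + k + 2 = k + 2 by ring]
      refine ⟨ord_one k _ hs.shift.two ⟨k, le_rfl, ?_⟩, base_false k _ _ hs.shift _⟩
      have := hs.shift.h1
      rwa [zero_add] at this
    · have e : ev (alt true) = fun _ => true := by
        funext i
        unfold ev alt
        have : (2 * i) % 2 = 0 := by omega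
        simp [this]
      rw [e]
      have := DD_odd (sh τ) (fun _ => true) 1 (fun _ => rfl) (by simp [tr]) (2 ^ (k + 1))
      rw [show 2 ^ (0 + k + 2) = 2 * 2 ^ (k + 1) * 1 by ring]
      exact this
  cases b
  · have hp : Periodic (alt true) ((2 ^ (0 + 1 + k + 2) : ℕ) : ℤ) := by
      apply per_pow (k := 1) _ (by omega)
      have := alt_per true
      simpa using this
    have h2 := (CR_shift (k := k) (n := 0 + 1) (ω := τ) (ω' := τ') hp 1).2 h1
    have e : (fun i : ℤ => alt true (i + (1 : ℕ))) = alt false := by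
      funext i
      unfold alt
      rcases Int.emod_two_eq_zero_or_one i with hi | hi
      · have : (i + ((1 : ℕ) : ℤ)) % 2 = 1 := by push_cast; omega
        simp only [this, hi]; decide
      · have : (i + ((1 : ℕ) : ℤ)) % 2 = 0 := by push_cast; omega
        simp only [this, hi]; decide
    rw [e] at h2
    exact h2
  · exact h1

/-- the counting condition, one occurrence of `1` -/
lemma LS_B {k : ℕ} {τ τ' : ℕ → Fin 3} (hs : Good k (0 + 1) τ τ') : LS (0 + 1 + k) 2 τ τ' := by
  have h1 : τ 0 = 1 := hs.last 0 rfl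
  have s1 := nc_split_CR hs (fun _ => True) (t := 2 ^ 2) (by positivity)
  simp only [true_and] at s1
  -- the critical words
  have he : nc (CR k (0 + 1) τ τ') (2 ^ 2) = 2 := by
    have hx : ∀ x : ℤ → Bool, Periodic x ((2 ^ 2 : ℕ) : ℤ) → CR k (0 + 1) τ τ' x →
        x = alt (x 0) := by
      intro x hx hc
      have hx2 : Periodic (ev x) ((2 : ℕ) : ℤ) ∧ Periodic (od x) ((2 : ℕ) : ℤ) := by
        rw [show 2 ^ 2 = 2 * 2 by norm_num] at hx
        exact (per_ev_od x 2).1 hx
      have h4 : 4 ≤ 2 ^ (0 + k + 2) := by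
        have : 2 ^ (0 + k + 2) = 4 * 2 ^ k := by ring
        have h2 : 0 < 2 ^ k := by positivity
        omega
      have hall : ∀ (u : ℤ → Bool) (b : Bool), Periodic u ((2 : ℕ) : ℤ) →
          (∀ l : ℕ, l < 2 ^ (0 + k + 2) → u l = b) → ∀ i, u i = b := by
        intro u b hu hl i
        rw [per_emod hu i]
        have g1 : 0 ≤ i % ((2 : ℕ) : ℤ) := Int.emod_nonneg _ (by norm_num)
        have g2 : i % ((2 : ℕ) : ℤ) < ((2 : ℕ) : ℤ) := Int.emod_lt_of_pos _ (by norm_num)
        have := hl (i % ((2 : ℕ) : ℤ)).toNat (by omega)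
        rwa [Int.toNat_of_nonneg g1] at this
      have hsplit : ∀ i, x i = if i % 2 = 0 then ev x (i / 2) else od x (i / 2) := by
        intro i
        have := congrFun (il_ev_od x) i
        rw [← this]; rfl
      rcases crit1 hs h1 x hc with ⟨a, b, -⟩ | ⟨a, b, -⟩
      · have hb := b.1
        rw [show 0 + k + 2 = k + 2 by ring] at hb
        have c1 := base_true_all k _ _ hs.shift _ hb
        rw [show k + 2 = 0 + k + 2 by ring] at c1
        have d1 := hall _ _ hx2.1 c1
        have d2 := hall _ _ hx2.2 a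
        have h0 : x 0 = true := by
          have := d1 0
          unfold ev at this
          simpa using this
        funext i
        rw [h0, hsplit i]
        unfold alt
        by_cases hi : i % 2 = 0
        · rw [if_pos hi, d1]; simp [hi]
        · rw [if_neg hi, d2]; simp [hi]
      · have hb := b.1
        rw [show 0 + k + 2 = k + 2 by ring] at hb
        have c1 := base_true_all k _ _ hs.shift _ hb
        rw [show k + 2 = 0 + k + 2 by ring] at c1
        have d1 := hall _ _ hx2.2 c1
        have d2 := hall _ _ hx2.1 a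
        have h0 : x 0 = false := by
          have := d2 0
          unfold ev at this
          simpa using this
        funext i
        rw [h0, hsplit i]
        unfold alt
        by_cases hi : i % 2 = 0
        · rw [if_pos hi, d2]; simp [hi]
        · rw [if_neg hi, d1]; simp [hi]
    unfold nc
    have e : {x : ℤ → Bool // Periodic x ((2 ^ 2 : ℕ) : ℤ) ∧ CR k (0 + 1) τ τ' x} ≃ Bool :=
      { toFun := fun x => x.1 0
        invFun := fun b => ⟨alt b, by
          apply per_pow (k := 1) _ (by norm_num)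
          have := alt_per b
          simpa using this, crit_alt hs b⟩
        left_inv := fun x => Subtype.ext (hx x.1 x.2.1 x.2.2).symm
        right_inv := fun b => by cases b <;> rfl }
    rw [Nat.card_congr e]
    simp
  -- the trivial words
  have ht1 : nc (fun x => TB τ' x (2 ^ (0 + 1 + k + 2))) (2 ^ 1) = 1 := by
    unfold nc
    rw [Nat.card_eq_one_iff_unique]
    have key : ∀ y : {x : ℤ → Bool // Periodic x ((2 ^ 1 : ℕ) : ℤ) ∧
        TB τ' x (2 ^ (0 + 1 + k + 2))}, y.1 = fun _ => true := by
      rintro ⟨y, hy, ht⟩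
      show y = _
      have hy2 : ∀ i, y i = if i % 2 = 0 then y 0 else y 1 := by
        intro i
        rw [per_emod hy i]
        rcases Int.emod_two_eq_zero_or_one i with hi | hi
        · rw [if_pos hi]
          have : i % ((2 ^ 1 : ℕ) : ℤ) = 0 := by simpa using hi
          rw [this]
        · rw [if_neg (by omega)]
          have : i % ((2 ^ 1 : ℕ) : ℤ) = 1 := by simpa using hi
          rw [this]
      cases h0 : y 0 <;> cases h11 : y 1
      · exfalso
        have : y = fun _ => false := by
          funext i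
          rw [hy2 i, h0, h11]; simp
        rw [this] at ht
        exact TB_false hs.two' _ (by positivity) ht
      · exfalso
        have : y = alt false := by
          funext i
          rw [hy2 i, h0, h11]
          unfold alt
          by_cases hi : i % 2 = 0
          · simp [hi]
          · simp [hi]
        rw [this] at ht
        exact (crit_alt hs false).2 ht
      · exfalso
        have : y = alt true := by
          funext i
          rw [hy2 i, h0, h11]
          unfold alt
          by_cases hi : i % 2 = 0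
          · simp [hi]
          · simp [hi]
        rw [this] at ht
        exact (crit_alt hs true).2 ht
      · funext i
        rw [hy2 i, h0, h11]; simp
    refine ⟨⟨fun a b => Subtype.ext (by rw [key a, key b])⟩, ⟨⟨fun _ => true, fun _ => rfl, ?_⟩⟩⟩
    apply ord_one (0 + 1 + k) τ' hs.two'
    refine ⟨0, by omega, ?_⟩
    rw [← hs.ag 0 (by omega)]
    exact h1
  have ht2 := nc_step (fun x => TB τ' x (2 ^ (0 + 1 + k + 2))) 1 1 one_pos (by
    intro x hx h2
    have hx' : Periodic x ((2 ^ 2 : ℕ) : ℤ) := by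
      rw [one_mul] at hx; exact hx
    exact (TB_shift (per_pow hx' (by omega)) 1).2 h2)
  rw [one_mul, one_mul, ht1] at ht2
  have ht3 : nc (fun x => TB τ' x (2 ^ (0 + 1 + k + 2))) (2 ^ 2) % 4 = 1 := ht2
  have s1' : nc (fun x => TB τ x (2 ^ (0 + 1 + k + 2))) (2 ^ 2) =
    nc (CR k (0 + 1) τ τ') (2 ^ 2) + nc (fun x => TB τ' x (2 ^ (0 + 1 + k + 2))) (2 ^ 2) := s1
  rw [he] at s1'
  set t' := nc (fun x => TB τ' x (2 ^ (0 + 1 + k + 2))) (2 ^ 2) with ht'
  obtain ⟨c, hc⟩ : ∃ c, t' = 4 * c + 1 := ⟨t' / 4, by omega⟩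
  refine ⟨2, c, 2 * c, ?_, ?_, ?_⟩
  · rw [s1', hc]; ring
  · rw [← ht', hc]; ring
  · ring

lemma sh_iter (a : ℕ) (ω : ℕ → Fin 3) : sh^[a] ω = fun i => ω (i + a) := by
  induction a generalizing ω with
  | zero => rfl
  | succ a ih =>
    rw [iterate_succ_apply, ih]
    funext i
    show ω (i + a + 1) = _
    congr 1

lemma NC_iter {ω : ℕ → Fin 3} (h : NC ω) (a : ℕ) : NC (sh^[a] ω) := by
  induction a generalizing ω with
  | zero => exact h
  | succ a ih => rw [iterate_succ_apply]; exact ih (NC_sh h)

/-- comparison of two-letter sequences with the same first occurrence `a` of `1` -/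
theorem rigid2 {ω ω' : ℕ → Fin 3} (hN : NC ω) (hN' : NC ω') (h2 : ∀ i, ω i ≠ 2)
    (h2' : ∀ i, ω' i ≠ 2) (a : ℕ) (ha : 1 ≤ a) (a0 : ∀ i < a, ω i = 0) (a1 : ω a = 1)
    (b0 : ∀ i < a, ω' i = 0) (b1 : ω' a = 1)
    (hr : ∀ i, a ≤ i → ω i = 0 → ω (i + 1) = 1)
    (heq : ∀ K, closedWords ω K = closedWords ω' K) : ω = ω' := by
  classical
  by_contra hne
  have hex : ∃ i, ω i ≠ ω' i := by
    by_contra hcon
    push Not at hcon
    exact hne (funext hcon)
  set N := Nat.find hex with hNdef
  have hNs : ω N ≠ ω' N := Nat.find_spec hex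
  have hmin : ∀ i < N, ω i = ω' i := by
    intro i hi
    by_contra hc
    exact Nat.find_min hex hi hc
  have hNa : a < N := by
    by_contra hlt
    rcases Nat.lt_or_ge N a with h | h
    · exact hNs (by rw [a0 N h, b0 N h])
    · have : N = a := by omega
      rw [this] at hNs
      exact hNs (by rw [a1, b1])
  -- reduction to the counting condition
  have red : ∀ (ω ω' : ℕ → Fin 3), NC ω → NC ω' → (∀ i < N, ω i = ω' i) → (∀ i < a, ω i = 0) →
      (∀ k n, n + 1 + k = N - a → Good k (n + 1) (sh^[a] ω) (sh^[a] ω') → (sh^[a] ω) 0 = 1 →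
        closedWords ω (2 ^ (N + 3)) ≠ closedWords ω' (2 ^ (N + 3))) := by
    intro ω ω' hN hN' hmin a0 k n hkn hG h1
    have hzero : ∀ i < a - 1, sh ω i = 0 ∧ sh ω' i = 0 := by
      intro i hi
      have : ω (i + 1) = 0 := a0 (i + 1) (by omega)
      exact ⟨this, by show ω' (i + 1) = 0; rw [← hmin (i + 1) (by omega)]; exact this⟩
    have hit : ∀ ω : ℕ → Fin 3, sh^[a] ω = sh^[a - 1] (sh ω) := by
      intro ω
      rw [← iterate_succ_apply]
      congr 1; omega
    have hag : ∀ i < (n + 1 + k + (a - 1)) + 1, ω i = ω' i := fun i hi => hmin i (by omega)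
    have hN1 : N = n + 1 + k + (a - 1) + 1 := by omega
    rw [hN1]
    rcases Nat.eq_zero_or_pos n with rfl | hn
    · have hLS := LS_B hG
      rw [hit ω, hit ω'] at hLS
      have := LS_iter (by norm_num) (a - 1) (sh ω) (sh ω') hzero hLS
      rw [show 2 + (a - 1) = (a - 1 + 1) + 1 by ring] at this
      exact top_ne hN hN' hag (a0 0 (by omega)) (by omega) this
    · have hLS := LS_A hG h1 hn
      rw [hit ω, hit ω'] at hLS
      have := LS_iter (by omega) (a - 1) (sh ω) (sh ω') hzero hLS
      rw [show n + 1 + (a - 1) = (n + (a - 1)) + 1 by ring] at this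
      exact top_ne hN hN' hag (a0 0 (by omega)) (by omega) this
  have hd : ∀ z : Fin 3, z ≠ 2 → z = 0 ∨ z = 1 := by decide
  rcases hd _ (h2 N) with c0 | c1
  · -- ω N = 0
    have c1' : ω' N = 1 := by
      rcases hd _ (h2' N) with c | c
      · rw [c0, c] at hNs; exact absurd rfl hNs
      · exact c
    have hl : ω (N - 1) = 1 := by
      rcases hd _ (h2 (N - 1)) with c | c
      · have := hr (N - 1) (by omega) c
        rw [show N - 1 + 1 = N by omega, c0] at this
        exact absurd this (by decide)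
      · exact c
    have hG : Good 0 ((N - a - 1) + 1) (sh^[a] ω') (sh^[a] ω) := by
      constructor
      · exact NC_iter hN' a
      · exact NC_iter hN a
      · intro i hi
        rw [sh_iter, sh_iter]
        exact (hmin _ (by omega)).symm
      · rw [sh_iter]
        show ω' (N - a - 1 + 1 + 0 + a) = 1
        rw [show N - a - 1 + 1 + 0 + a = N by omega]; exact c1'
      · rw [sh_iter]
        show ω (N - a - 1 + 1 + 0 + a) = 0
        rw [show N - a - 1 + 1 + 0 + a = N by omega]; exact c0
      · intro i; rw [sh_iter]; exact h2' _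
      · intro i; rw [sh_iter]; exact h2 _
      · intro i h3 h4; omega
      · intro m hm
        rw [sh_iter]
        show ω' (m + a) = 1
        rw [← hmin _ (by omega), show m + a = N - 1 by omega]; exact hl
      · intro i hi hz
        rw [sh_iter] at hz ⊢
        show ω' (i + 1 + a) = 1
        have hz' : ω (i + a) = 0 := by rw [hmin _ (by omega)]; exact hz
        have h5 := hr (i + a) (by omega) hz'
        by_cases h6 : i + 1 + a < N
        · rw [← hmin _ h6, show i + 1 + a = i + a + 1 by ring]; exact h5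
        · have : i + a = N - 1 := by omega
          rw [this, hl] at hz'
          exact absurd hz' (by decide)
    exact red ω' ω hN' hN (fun i hi => (hmin i hi).symm) b0 0 (N - a - 1) (by omega) hG
      (by rw [sh_iter]; show ω' (0 + a) = 1; rw [zero_add]; exact b1) (heq _).symm
  · -- ω N = 1
    have c0' : ω' N = 0 := by
      rcases hd _ (h2' N) with c | c
      · exact c
      · rw [c1, c] at hNs; exact absurd rfl hNs
    rcases hd _ (h2 (N - 1)) with p0 | p1
    · -- trailing zero
      have hN4 : a + 2 ≤ N := by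
        by_contra hlt
        have : N - 1 = a := by omega
        rw [this, a1] at p0
        exact absurd p0 (by decide)
      have hl : ω (N - 2) = 1 := by
        rcases hd _ (h2 (N - 2)) with c | c
        · have := hr (N - 2) (by omega) c
          rw [show N - 2 + 1 = N - 1 by omega, p0] at this
          exact absurd this (by decide)
        · exact c
      have hG : Good 1 ((N - a - 2) + 1) (sh^[a] ω) (sh^[a] ω') := by
        constructor
        · exact NC_iter hN a
        · exact NC_iter hN' a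
        · intro i hi
          rw [sh_iter, sh_iter]
          exact hmin _ (by omega)
        · rw [sh_iter]
          show ω (N - a - 2 + 1 + 1 + a) = 1
          rw [show N - a - 2 + 1 + 1 + a = N by omega]; exact c1
        · rw [sh_iter]
          show ω' (N - a - 2 + 1 + 1 + a) = 0
          rw [show N - a - 2 + 1 + 1 + a = N by omega]; exact c0'
        · intro i; rw [sh_iter]; exact h2 _
        · intro i; rw [sh_iter]; exact h2' _
        · intro i h3 h4
          rw [sh_iter]
          show ω (i + a) = 0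
          rw [show i + a = N - 1 by omega]; exact p0
        · intro m hm
          rw [sh_iter]
          show ω (m + a) = 1
          rw [show m + a = N - 2 by omega]; exact hl
        · intro i hi hz
          rw [sh_iter] at hz ⊢
          show ω (i + 1 + a) = 1
          rw [show i + 1 + a = i + a + 1 by ring]
          exact hr (i + a) (by omega) hz
      exact red ω ω' hN hN' hmin a0 1 (N - a - 2) (by omega) hG
        (by rw [sh_iter]; show ω (0 + a) = 1; rw [zero_add]; exact a1) (heq _)
    · have hG : Good 0 ((N - a - 1) + 1) (sh^[a] ω) (sh^[a] ω') := by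
        constructor
        · exact NC_iter hN a
        · exact NC_iter hN' a
        · intro i hi
          rw [sh_iter, sh_iter]
          exact hmin _ (by omega)
        · rw [sh_iter]
          show ω (N - a - 1 + 1 + 0 + a) = 1
          rw [show N - a - 1 + 1 + 0 + a = N by omega]; exact c1
        · rw [sh_iter]
          show ω' (N - a - 1 + 1 + 0 + a) = 0
          rw [show N - a - 1 + 1 + 0 + a = N by omega]; exact c0'
        · intro i; rw [sh_iter]; exact h2 _
        · intro i; rw [sh_iter]; exact h2' _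
        · intro i h3 h4; omega
        · intro m hm
          rw [sh_iter]
          show ω (m + a) = 1
          rw [show m + a = N - 1 by omega]; exact p1
        · intro i hi hz
          rw [sh_iter] at hz ⊢
          show ω (i + 1 + a) = 1
          rw [show i + 1 + a = i + a + 1 by ring]
          exact hr (i + a) (by omega) hz
      exact red ω ω' hN hN' hmin a0 0 (N - a - 1) (by omega) hG
        (by rw [sh_iter]; show ω (0 + a) = 1; rw [zero_add]; exact a1) (heq _)

/-! ### Relabelling -/

/-- the relabelling of the generators induced by a permutation of the symbols -/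
def hat (π : Equiv.Perm (Fin 3)) (s : Fin 4) : Fin 4 :=
  if s = 0 then 0 else ⟨3 - (π.symm ⟨(3 - s.val) % 3, Nat.mod_lt _ (by norm_num)⟩).val, by omega⟩

lemma hat_zero (π : Equiv.Perm (Fin 3)) : hat π 0 = 0 := by simp [hat]

lemma hat_ne (π : Equiv.Perm (Fin 3)) {s : Fin 4} (hs : s ≠ 0) : hat π s ≠ 0 := by
  unfold hat
  rw [if_neg hs]
  intro h
  have := congrArg Fin.val h
  simp only [Fin.val_zero] at this
  omega

lemma hat_inj (π : Equiv.Perm (Fin 3)) : Injective (hat π) := by
  intro s t hst
  by_cases hs : s = 0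
  · subst hs
    by_contra ht
    rw [hat_zero] at hst
    exact hat_ne π (Ne.symm ht) hst.symm
  · by_cases ht : t = 0
    · subst ht
      rw [hat_zero] at hst
      exact absurd hst (hat_ne π hs)
    · unfold hat at hst
      rw [if_neg hs, if_neg ht] at hst
      have h1 := congrArg Fin.val hst
      simp only at h1
      have h2 : (π.symm ⟨(3 - s.val) % 3, Nat.mod_lt _ (by norm_num)⟩) =
          (π.symm ⟨(3 - t.val) % 3, Nat.mod_lt _ (by norm_num)⟩) := by
        apply Fin.ext
        omega
      have h3 := congrArg Fin.val (π.symm.injective h2)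
      simp only at h3
      have hs' : s.val ≠ 0 := fun h => hs (Fin.ext h)
      have ht' : t.val ≠ 0 := fun h => ht (Fin.ext h)
      apply Fin.ext
      omega

lemma gen_hat (π : Equiv.Perm (Fin 3)) (ω : ℕ → Fin 3) (s : Fin 4) :
    gen (fun i => π (ω i)) s = gen ω (hat π s) := by
  by_cases hs : s = 0
  · subst hs
    rw [hat_zero, gen_zero, gen_zero]
  · funext v
    unfold gen
    rw [if_neg hs, if_neg (hat_ne π hs)]
    have hs' : s.val ≠ 0 := fun h => hs (Fin.ext h)
    have key : ∀ t, ((π (ω t)).val ≠ 3 - s.val ↔ (ω t).val ≠ 3 - (hat π s).val) := by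
      intro t
      rw [not_iff_not]
      unfold hat
      rw [if_neg hs]
      simp only
      have hm : (3 - s.val) % 3 = 3 - s.val := Nat.mod_eq_of_lt (by omega)
      have h5 := (π.symm ⟨(3 - s.val) % 3, Nat.mod_lt _ (by norm_num)⟩).isLt
      constructor
      · intro h
        have : π (ω t) = ⟨(3 - s.val) % 3, Nat.mod_lt _ (by norm_num)⟩ := Fin.ext (by
          show (π (ω t)).val = (3 - s.val) % 3
          rw [h, hm])
        rw [← this, Equiv.symm_apply_apply]
        have := (ω t).isLt
        omega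
      · intro h
        have h6 : ω t = π.symm ⟨(3 - s.val) % 3, Nat.mod_lt _ (by norm_num)⟩ := by
          apply Fin.ext; omega
        rw [h6, Equiv.apply_symm_apply]
        exact hm
    simp only [key]

lemma E_hat (π : Equiv.Perm (Fin 3)) (ω : ℕ → Fin 3) (u : List (Fin 4)) :
    E (fun i => π (ω i)) u = E ω (u.map (hat π)) := by
  unfold E
  rw [List.map_map]
  congr 1
  apply List.map_congr_left
  intro s _
  exact gen_hat π ω s

lemma closed_le (π : Equiv.Perm (Fin 3)) (ω : ℕ → Fin 3) (k : ℕ) :
    closedWords (fun i => π (ω i)) k ≤ closedWords ω k := by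
  unfold closedWords
  have : Finite {u : List (Fin 4) // u.length = k ∧ E ω u = id} := by
    have h : Set.Finite {u : List (Fin 4) | u.length = k} := List.finite_length_eq (Fin 4) k
    exact (h.subset (fun u hu => hu.1)).to_subtype
  apply Nat.card_le_card_of_injective
    (fun u : {u : List (Fin 4) // u.length = k ∧ E (fun i => π (ω i)) u = id} =>
      (⟨u.1.map (hat π), by rw [List.length_map]; exact u.2.1, by rw [← E_hat]; exact u.2.2⟩ :
        {u : List (Fin 4) // u.length = k ∧ E ω u = id}))
  intro u v huv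
  apply Subtype.ext
  have := congrArg Subtype.val huv
  exact (List.map_injective_iff.2 (hat_inj π)) this

lemma closed_perm (π : Equiv.Perm (Fin 3)) (ω : ℕ → Fin 3) (k : ℕ) :
    closedWords (fun i => π (ω i)) k = closedWords ω k := by
  apply le_antisymm (closed_le π ω k)
  have := closed_le π.symm (fun i => π (ω i)) k
  simpa using this

end Pool.Agent.H44Sp
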